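import Mathlib

/-!
Systems of geometric progressions with different prime ratios: many progressions need many points.
-/

namespace Pool.Agent.K7.H59.DC

open Finset

section Prune

variable {ι : Type*} [DecidableEq ι]

/-- Pruning of an incidence system: if the average degree is large there is a nonempty
subsystem in which every point has degree at least three and every line keeps half of its
points. -/
theorem prune (V : Finset ℕ) (L : Finset ι) (pts : ι → Finset ℕ) (n : ℕ)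
    (hpts : ∀ l ∈ L, pts l ⊆ V) (hn : ∀ l ∈ L, (pts l).card = n)
    (h : 5 * V.card < n * L.card) :
    ∃ V' L', V' ⊆ V ∧ L' ⊆ L ∧ V'.Nonempty ∧
      (∀ s ∈ V', 3 ≤ (L'.filter fun l => s ∈ pts l).card) ∧
      (∀ l ∈ L', n ≤ 2 * (V'.filter fun s => s ∈ pts l).card) := by
  classical
  set e : Finset ℕ → Finset ι → ℤ := fun V' L' =>
    ∑ l ∈ L', ((V'.filter fun s => s ∈ pts l).card : ℤ) with he
  set Φ : Finset ℕ × Finset ι → ℤ := fun y => 2 * e y.1 y.2 - 5 * y.1.card - n * y.2.card with hΦ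
  obtain ⟨y, hy, hmax⟩ := exists_max_image (V.powerset ×ˢ L.powerset) Φ
    ⟨(V, L), by simp⟩
  obtain ⟨V', L'⟩ := y
  rw [mem_product, mem_powerset, mem_powerset] at hy
  have hV' : V' ⊆ V := hy.1
  have hL' : L' ⊆ L := hy.2
  have h0 : 0 < Φ (V, L) := by
    have h1 : e V L = n * L.card := by
      simp only [he]
      have : ∀ l ∈ L, ((V.filter fun s => s ∈ pts l).card : ℤ) = n := by
        intro l hl
        have h2 : V.filter (fun s => s ∈ pts l) = pts l := by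
          ext s
          rw [mem_filter]
          exact ⟨fun h => h.2, fun h => ⟨hpts l hl h, h⟩⟩
        rw [h2, hn l hl]
      rw [Finset.sum_congr rfl this, Finset.sum_const]
      simp [mul_comm]
    simp only [hΦ, h1]
    have h2 : (5 * V.card : ℤ) < n * L.card := by exact_mod_cast h
    linarith
  have hpos : 0 < Φ (V', L') := lt_of_lt_of_le h0 (hmax (V, L) (by simp))
  refine ⟨V', L', hV', hL', ?_, ?_, ?_⟩
  · by_contra hemp
    rw [not_nonempty_iff_eq_empty] at hemp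
    rw [hemp] at hpos
    simp only [hΦ, he, filter_empty, card_empty] at hpos
    have : (0 : ℤ) ≤ n * L'.card := by positivity
    simp at hpos
    linarith
  · intro s hs
    have h1 := hmax (V'.erase s, L') (by
      rw [mem_product, mem_powerset, mem_powerset]
      exact ⟨(erase_subset _ _).trans hV', hL'⟩)
    have h2 : e (V'.erase s) L' = e V' L' - ((L'.filter fun l => s ∈ pts l).card : ℤ) := by
      simp only [he]
      have h3 : ∀ l ∈ L', (((V'.erase s).filter fun t => t ∈ pts l).card : ℤ) =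
          ((V'.filter fun t => t ∈ pts l).card : ℤ) - (if s ∈ pts l then 1 else 0) := by
        intro l _
        by_cases hl : s ∈ pts l
        · rw [if_pos hl]
          have h4 : (V'.erase s).filter (fun t => t ∈ pts l) =
              (V'.filter fun t => t ∈ pts l).erase s := by
            ext t; simp only [mem_filter, mem_erase]; tauto
          have h5 : s ∈ V'.filter fun t => t ∈ pts l := by
            rw [mem_filter]; exact ⟨hs, hl⟩
          rw [h4, card_erase_of_mem h5, Nat.cast_sub (card_pos.2 ⟨s, h5⟩)]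
          simp
        · rw [if_neg hl, sub_zero]
          congr 2
          ext t
          simp only [mem_filter, mem_erase]
          constructor
          · rintro ⟨⟨_, h6⟩, h7⟩; exact ⟨h6, h7⟩
          · rintro ⟨h6, h7⟩
            exact ⟨⟨fun h8 => hl (h8 ▸ h7), h6⟩, h7⟩
      rw [Finset.sum_congr rfl h3, Finset.sum_sub_distrib]
      congr 1
      rw [← Finset.sum_filter, Finset.sum_const]; simp
    have h3 : (V'.erase s).card = V'.card - 1 := card_erase_of_mem hs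
    have h4 : 1 ≤ V'.card := card_pos.2 ⟨s, hs⟩
    simp only [hΦ] at h1
    rw [h2, h3, Nat.cast_sub h4] at h1
    push_cast at h1
    have h5 : (5 : ℤ) ≤ 2 * ((L'.filter fun l => s ∈ pts l).card : ℤ) := by linarith
    omega
  · intro l hl
    have h1 := hmax (V', L'.erase l) (by
      rw [mem_product, mem_powerset, mem_powerset]
      exact ⟨hV', (erase_subset _ _).trans hL'⟩)
    have h2 : e V' (L'.erase l) = e V' L' - ((V'.filter fun s => s ∈ pts l).card : ℤ) := by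
      simp only [he]
      rw [← Finset.add_sum_erase L' _ hl]; ring
    have h3 : (L'.erase l).card = L'.card - 1 := card_erase_of_mem hl
    have h4 : 1 ≤ L'.card := card_pos.2 ⟨l, hl⟩
    simp only [hΦ] at h1
    rw [h2, h3, Nat.cast_sub h4] at h1
    push_cast at h1
    have h5 : (n : ℤ) ≤ 2 * ((V'.filter fun s => s ∈ pts l).card : ℤ) := by linarith
    exact_mod_cast h5

end Prune

/-- Two positive integers up to `M` whose logarithms differ by less than `1 / M` are equal. -/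
theorem eq_of_log_close (u v : ℕ) (M : ℝ) (hu : 0 < u) (hv : 0 < v) (huM : (u : ℝ) ≤ M)
    (hvM : (v : ℝ) ≤ M) (h : |Real.log u - Real.log v| * M < 1) : u = v := by
  have key : ∀ u v : ℕ, 0 < u → 0 < v → (u : ℝ) ≤ M → (v : ℝ) ≤ M →
      |Real.log u - Real.log v| * M < 1 → ¬ u < v := by
    intro u v hu hv huM hvM h hlt
    have hu' : (0 : ℝ) < u := by exact_mod_cast hu
    have hv' : (0 : ℝ) < v := by exact_mod_cast hv
    have h1 : (u : ℝ) + 1 ≤ v := by exact_mod_cast hlt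
    have h2 : Real.log (u / v) ≤ u / v - 1 := Real.log_le_sub_one_of_pos (by positivity)
    rw [Real.log_div hu'.ne' hv'.ne'] at h2
    have h3 : (u : ℝ) / v - 1 ≤ -(1 / v) := by
      rw [div_sub_one hv'.ne', ← neg_div, div_le_div_iff_of_pos_right hv']
      linarith
    have h4 : 1 / (v : ℝ) ≤ |Real.log u - Real.log v| := by
      rw [abs_sub_comm]
      refine le_trans ?_ (le_abs_self _)
      linarith
    have h5 : 1 ≤ |Real.log u - Real.log v| * M := by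
      calc (1 : ℝ) = 1 / v * v := by field_simp
        _ ≤ |Real.log u - Real.log v| * M := by
            apply mul_le_mul h4 hvM hv'.le (abs_nonneg _)
    linarith
  rcases lt_trichotomy u v with h1 | h1 | h1
  · exact absurd h1 (key u v hu hv huM hvM h)
  · exact h1
  · rw [abs_sub_comm] at h
    exact absurd h1 (key v u hv hu hvM huM h)

theorem fact_pow {a b : ℕ} (ha : a.Prime) (hb : b.Prime) (k : ℕ) :
    (b ^ k).factorization a = if a = b then k else 0 := by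
  rw [Nat.factorization_pow]
  simp only [Finsupp.coe_smul, Pi.smul_apply, smul_eq_mul]
  split_ifs with h
  · subst h; rw [hb.factorization_self]; ring
  · rw [Nat.factorization_eq_zero_of_not_dvd, mul_zero]
    intro hd
    exact h ((Nat.prime_dvd_prime_iff_eq ha hb).mp hd)

/-- Two products of five prime powers with close logarithms are equal. -/
theorem five_powers (a b c d e : ℕ) (ha : a.Prime) (hb : b.Prime) (hc : c.Prime) (hd : d.Prime)
    (he : e.Prime) (a₁ b₁ c₁ d₁ e₁ a₂ b₂ c₂ d₂ e₂ : ℕ) (X η : ℝ) (hX1 : 1 ≤ X)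
    (ha₁ : (a : ℝ) ^ a₁ ≤ X) (hb₁ : (b : ℝ) ^ b₁ ≤ X) (hc₁ : (c : ℝ) ^ c₁ ≤ X)
    (hd₁ : (d : ℝ) ^ d₁ ≤ X) (he₁ : (e : ℝ) ^ e₁ ≤ X)
    (ha₂ : (a : ℝ) ^ a₂ ≤ X) (hb₂ : (b : ℝ) ^ b₂ ≤ X) (hc₂ : (c : ℝ) ^ c₂ ≤ X)
    (hd₂ : (d : ℝ) ^ d₂ ≤ X) (he₂ : (e : ℝ) ^ e₂ ≤ X) (hη : 12 * η * X ^ 5 < 1)
    (h : |(a₁ * Real.log a + b₁ * Real.log b + c₁ * Real.log c + d₁ * Real.log d +
        e₁ * Real.log e) - (a₂ * Real.log a + b₂ * Real.log b + c₂ * Real.log c +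
        d₂ * Real.log d + e₂ * Real.log e)| ≤ 12 * η) :
    a ^ a₁ * b ^ b₁ * c ^ c₁ * d ^ d₁ * e ^ e₁ = a ^ a₂ * b ^ b₂ * c ^ c₂ * d ^ d₂ * e ^ e₂ := by
  have ha0 : (0 : ℝ) < a := by exact_mod_cast ha.pos
  have hb0 : (0 : ℝ) < b := by exact_mod_cast hb.pos
  have hc0 : (0 : ℝ) < c := by exact_mod_cast hc.pos
  have hd0 : (0 : ℝ) < d := by exact_mod_cast hd.pos
  have he0 : (0 : ℝ) < e := by exact_mod_cast he.pos
  have hX0 : 0 < X := by linarith
  have hlog : ∀ i j k l m : ℕ, Real.log ((a ^ i * b ^ j * c ^ k * d ^ l * e ^ m : ℕ) : ℝ) =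
      i * Real.log a + j * Real.log b + k * Real.log c + l * Real.log d + m * Real.log e := by
    intro i j k l m
    push_cast
    rw [Real.log_mul (by positivity) (by positivity), Real.log_mul (by positivity) (by positivity),
      Real.log_mul (by positivity) (by positivity), Real.log_mul (by positivity) (by positivity),
      Real.log_pow, Real.log_pow, Real.log_pow, Real.log_pow, Real.log_pow]
  have hbd : ∀ i j k l m : ℕ, (a : ℝ) ^ i ≤ X → (b : ℝ) ^ j ≤ X → (c : ℝ) ^ k ≤ X →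
      (d : ℝ) ^ l ≤ X → (e : ℝ) ^ m ≤ X →
      ((a ^ i * b ^ j * c ^ k * d ^ l * e ^ m : ℕ) : ℝ) ≤ X ^ 5 := by
    intro i j k l m h1 h2 h3 h4 h5
    push_cast
    have e1 : X ^ 5 = X * X * X * X * X := by ring
    rw [e1]
    gcongr
  have hp : ∀ i j k l m : ℕ, 0 < a ^ i * b ^ j * c ^ k * d ^ l * e ^ m := by
    intro i j k l m
    have := ha.pos; have := hb.pos; have := hc.pos; have := hd.pos; have := he.pos
    positivity
  apply eq_of_log_close _ _ (X ^ 5) (hp _ _ _ _ _) (hp _ _ _ _ _)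
    (hbd _ _ _ _ _ ha₁ hb₁ hc₁ hd₁ he₁) (hbd _ _ _ _ _ ha₂ hb₂ hc₂ hd₂ he₂)
  rw [hlog, hlog]
  refine lt_of_le_of_lt ?_ hη
  exact mul_le_mul_of_nonneg_right h (by positivity)

theorem five_factor (q a b c d e : ℕ) (hq : q.Prime) (ha : a.Prime) (hb : b.Prime)
    (hc : c.Prime) (hd : d.Prime) (he : e.Prime) (i j k l m : ℕ) :
    (a ^ i * b ^ j * c ^ k * d ^ l * e ^ m).factorization q =
      (if q = a then i else 0) + (if q = b then j else 0) + (if q = c then k else 0) +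
      (if q = d then l else 0) + (if q = e then m else 0) := by
  have h1 : ∀ {x y : ℕ}, x.Prime → x ^ y ≠ 0 := fun hx => pow_ne_zero _ hx.ne_zero
  rw [Nat.factorization_mul (by simp [ha.ne_zero, hb.ne_zero, hc.ne_zero, hd.ne_zero])
      (h1 he),
    Nat.factorization_mul (by simp [ha.ne_zero, hb.ne_zero, hc.ne_zero]) (h1 hd),
    Nat.factorization_mul (by simp [ha.ne_zero, hb.ne_zero]) (h1 hc),
    Nat.factorization_mul (h1 ha) (h1 hb)]
  simp only [Finsupp.coe_add, Pi.add_apply]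
  rw [fact_pow hq ha, fact_pow hq hb, fact_pow hq hc, fact_pow hq hd, fact_pow hq he]

/-- Many lines need many points. -/
theorem many_points {ι : Type*} [DecidableEq ι] (L : Finset ι) (pr : ι → ℕ) (pt : ι → ℕ → ℕ)
    (x : ι → ℝ) (n : ℕ) (η X : ℝ) (hX1 : 1 ≤ X)
    (hpr : ∀ l ∈ L, (pr l).Prime)
    (hclose : ∀ l ∈ L, ∀ t, t < n →
      |Real.log (pt l t) + (2 * t : ℕ) * Real.log (pr l) - x l| ≤ η)
    (hinj : ∀ l ∈ L, ∀ l' ∈ L, pr l = pr l' → ∀ t, t < n → ∀ t', t' < n →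
      pt l t = pt l' t' → l = l' ∧ t = t')
    (hX : ∀ l ∈ L, ∀ t, t < n → (pr l : ℝ) ^ (2 * t) ≤ X) (hη : 12 * η * X ^ 5 < 1)
    (V : Finset ℕ) (hV : ∀ l ∈ L, ∀ t, t < n → pt l t ∈ V) :
    n * L.card ≤ 5 * V.card ∨ n ^ 3 ≤ 8 * V.card := by
  classical
  by_cases hcase : n * L.card ≤ 5 * V.card
  · exact Or.inl hcase
  right
  push Not at hcase
  set pts : ι → Finset ℕ := fun l => (range n).image (pt l) with hpts
  obtain ⟨V', L', hV', hL', hne, hdeg, hlin⟩ := prune V L pts n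
    (by
      intro l hl s hs
      simp only [hpts, mem_image, mem_range] at hs
      obtain ⟨t, ht, rfl⟩ := hs
      exact hV l hl t ht)
    (by
      intro l hl
      simp only [hpts]
      rw [card_image_of_injOn, card_range]
      intro t ht t' ht' he
      rw [mem_coe, mem_range] at ht ht'
      exact (hinj l hl l hl rfl t ht t' ht' he).2)
    hcase
  obtain ⟨s₀, hs₀⟩ := hne
  -- the choice of a line through a point avoiding two primes
  have hchoice : ∀ s ∈ V', ∀ q₁ q₂ : ℕ, ∃ l ∈ L', s ∈ pts l ∧ pr l ≠ q₁ ∧ pr l ≠ q₂ := by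
    intro s hs q₁ q₂
    have h1 : 3 ≤ ((L'.filter fun l => s ∈ pts l).image pr).card := by
      rw [card_image_of_injOn]
      · exact hdeg s hs
      · intro l hl l' hl' he
        rw [mem_coe, mem_filter] at hl hl'
        have h2 := hl.2
        have h3 := hl'.2
        simp only [hpts, mem_image, mem_range] at h2 h3
        obtain ⟨t, ht, hts⟩ := h2
        obtain ⟨t', ht', hts'⟩ := h3
        exact (hinj l (hL' hl.1) l' (hL' hl'.1) he t ht t' ht' (by rw [hts, hts'])).1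
    have h2 : ∃ r ∈ (L'.filter fun l => s ∈ pts l).image pr, r ∉ ({q₁, q₂} : Finset ℕ) := by
      apply exists_mem_notMem_of_card_lt_card
      exact lt_of_le_of_lt (card_le_two) h1
    obtain ⟨r, hr, hr2⟩ := h2
    rw [mem_image] at hr
    obtain ⟨l, hl, rfl⟩ := hr
    rw [mem_filter] at hl
    rw [mem_insert, mem_singleton, not_or] at hr2
    exact ⟨l, hl.1, hl.2, hr2.1, hr2.2⟩
  have : Nonempty ι := ⟨(hchoice s₀ hs₀ 0 0).choose⟩
  choose! c hcL hcs hc1 hc2 using hchoice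
  have hlev : ∀ l s, s ∈ pts l → ∃ t, t < n ∧ pt l t = s := by
    intro l s hs
    simp only [hpts, mem_image, mem_range] at hs
    obtain ⟨t, ht, h⟩ := hs
    exact ⟨t, ht, h⟩
  set l₁ := c s₀ 0 0 with hl₁
  set F₁ := V'.filter fun s => s ∈ pts l₁ with hF₁
  set l₂ : ℕ → ι := fun s₁ => c s₁ (pr l₁) (pr l₁) with hl₂
  set F₂ : ℕ → Finset ℕ := fun s₁ => V'.filter fun s => s ∈ pts (l₂ s₁) with hF₂
  set l₃ : ℕ → ℕ → ι := fun s₁ s₂ => c s₂ (pr l₁) (pr (l₂ s₁)) with hl₃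
  set F₃ : ℕ → ℕ → Finset ℕ := fun s₁ s₂ => V'.filter fun s => s ∈ pts (l₃ s₁ s₂) with hF₃
  set Dm : Finset (Σ _ : ℕ, Σ _ : ℕ, ℕ) :=
    F₁.sigma fun s₁ => (F₂ s₁).sigma fun s₂ => F₃ s₁ s₂ with hDm
  have hl₁L : l₁ ∈ L' := hcL s₀ hs₀ 0 0
  have hcard : n ^ 3 ≤ 8 * Dm.card := by
    have h3 : ∀ s₁ ∈ F₁, ∀ s₂ ∈ F₂ s₁, n ≤ 2 * (F₃ s₁ s₂).card := by
      intro s₁ hs₁ s₂ hs₂
      apply hlin
      exact hcL s₂ (mem_filter.1 hs₂).1 _ _
    have h2 : ∀ s₁ ∈ F₁, n * n ≤ 4 * ((F₂ s₁).sigma fun s₂ => F₃ s₁ s₂).card := by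
      intro s₁ hs₁
      rw [card_sigma]
      have h4 : n ≤ 2 * (F₂ s₁).card := hlin _ (hcL s₁ (mem_filter.1 hs₁).1 _ _)
      have h5 : (F₂ s₁).card * n ≤ 2 * ∑ s₂ ∈ F₂ s₁, (F₃ s₁ s₂).card := by
        rw [Finset.mul_sum]
        have := Finset.sum_le_sum (h3 s₁ hs₁)
        rw [Finset.sum_const, smul_eq_mul] at this
        exact this
      nlinarith
    rw [hDm, card_sigma]
    have h4 : n ≤ 2 * F₁.card := hlin _ hl₁L
    have h5 : F₁.card * (n * n) ≤ 4 * ∑ s₁ ∈ F₁, ((F₂ s₁).sigma fun s₂ => F₃ s₁ s₂).card := by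
      rw [Finset.mul_sum]
      have := Finset.sum_le_sum h2
      rw [Finset.sum_const, smul_eq_mul] at this
      exact this
    calc n ^ 3 = n * (n * n) := by ring
      _ ≤ 2 * F₁.card * (n * n) := Nat.mul_le_mul_right _ h4
      _ = 2 * (F₁.card * (n * n)) := by ring
      _ ≤ 2 * (4 * ∑ s₁ ∈ F₁, ((F₂ s₁).sigma fun s₂ => F₃ s₁ s₂).card) :=
          Nat.mul_le_mul_left _ h5
      _ = _ := by ring
  refine le_trans hcard (Nat.mul_le_mul_left _ ?_)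
  apply card_le_card_of_injOn (fun y => y.2.2)
  · intro y hy
    rw [mem_coe, hDm, mem_sigma, mem_sigma] at hy
    rw [mem_coe]
    exact hV' (mem_filter.1 hy.2.2).1
  · rintro ⟨s₁, s₂, s₃⟩ hy ⟨r₁, r₂, r₃⟩ hz hyz
    simp only at hyz
    subst hyz
    rw [mem_coe, hDm, mem_sigma, mem_sigma] at hy hz
    obtain ⟨hy1, hy2, hy3⟩ := hy
    obtain ⟨hz1, hz2, hz3⟩ := hz
    simp only at hy1 hy2 hy3 hz1 hz2 hz3
    rw [hF₁, mem_filter] at hy1 hz1
    rw [hF₂, mem_filter] at hy2 hz2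
    rw [hF₃, mem_filter] at hy3 hz3
    have m2 : l₂ s₁ ∈ L' := hcL s₁ hy1.1 _ _
    have m2' : l₂ r₁ ∈ L' := hcL r₁ hz1.1 _ _
    have m3 : l₃ s₁ s₂ ∈ L' := hcL s₂ hy2.1 _ _
    have m3' : l₃ r₁ r₂ ∈ L' := hcL r₂ hz2.1 _ _
    have P1 := hpr _ (hL' hl₁L)
    have P2 := hpr _ (hL' m2)
    have P2' := hpr _ (hL' m2')
    have P3 := hpr _ (hL' m3)
    have P3' := hpr _ (hL' m3')
    have n2 : pr (l₂ s₁) ≠ pr l₁ := hc1 s₁ hy1.1 _ _
    have n2' : pr (l₂ r₁) ≠ pr l₁ := hc1 r₁ hz1.1 _ _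
    have n3 : pr (l₃ s₁ s₂) ≠ pr l₁ := hc1 s₂ hy2.1 _ _
    have n3' : pr (l₃ r₁ r₂) ≠ pr l₁ := hc1 r₂ hz2.1 _ _
    have k3 : pr (l₃ s₁ s₂) ≠ pr (l₂ s₁) := hc2 s₂ hy2.1 _ _
    have k3' : pr (l₃ r₁ r₂) ≠ pr (l₂ r₁) := hc2 r₂ hz2.1 _ _
    obtain ⟨t₀, ht₀, et₀⟩ := hlev _ _ (hcs s₀ hs₀ 0 0)
    obtain ⟨t₁, ht₁, et₁⟩ := hlev _ _ hy1.2
    obtain ⟨τ₁, hτ₁, eτ₁⟩ := hlev _ _ hz1.2
    obtain ⟨t₂, ht₂, et₂⟩ := hlev _ _ (hcs s₁ hy1.1 (pr l₁) (pr l₁))
    obtain ⟨τ₂, hτ₂, eτ₂⟩ := hlev _ _ (hcs r₁ hz1.1 (pr l₁) (pr l₁))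
    obtain ⟨t₂', ht₂', et₂'⟩ := hlev _ _ hy2.2
    obtain ⟨τ₂', hτ₂', eτ₂'⟩ := hlev _ _ hz2.2
    obtain ⟨t₃, ht₃, et₃⟩ := hlev _ _ (hcs s₂ hy2.1 (pr l₁) (pr (l₂ s₁)))
    obtain ⟨τ₃, hτ₃, eτ₃⟩ := hlev _ _ (hcs r₂ hz2.1 (pr l₁) (pr (l₂ r₁)))
    obtain ⟨t₃', ht₃', et₃'⟩ := hlev _ _ hy3.2
    obtain ⟨τ₃', hτ₃', eτ₃'⟩ := hlev _ _ hz3.2
    have step : ∀ l ∈ L', ∀ t, t < n → ∀ t', t' < n → ∀ s s' : ℕ, pt l t = s → pt l t' = s' →
        |(Real.log s + (2 * t : ℕ) * Real.log (pr l)) -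
          (Real.log s' + (2 * t' : ℕ) * Real.log (pr l))| ≤ 2 * η := by
      intro l hl t ht t' ht' s s' hs hs'
      have h1 := hclose l (hL' hl) t ht
      have h2 := hclose l (hL' hl) t' ht'
      rw [hs] at h1
      rw [hs'] at h2
      rw [abs_le] at h1 h2 ⊢
      constructor <;> linarith [h1.1, h1.2, h2.1, h2.2]
    have q1 := step l₁ hl₁L t₀ ht₀ t₁ ht₁ s₀ s₁ et₀ et₁
    have q1' := step l₁ hl₁L t₀ ht₀ τ₁ hτ₁ s₀ r₁ et₀ eτ₁
    have q2 := step (l₂ s₁) m2 t₂ ht₂ t₂' ht₂' s₁ s₂ et₂ et₂'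
    have q2' := step (l₂ r₁) m2' τ₂ hτ₂ τ₂' hτ₂' r₁ r₂ eτ₂ eτ₂'
    have q3 := step (l₃ s₁ s₂) m3 t₃ ht₃ t₃' ht₃' s₂ s₃ et₃ et₃'
    have q3' := step (l₃ r₁ r₂) m3' τ₃ hτ₃ τ₃' hτ₃' r₂ s₃ eτ₃ eτ₃'
    have hmain := five_powers (pr l₁) (pr (l₂ s₁)) (pr (l₃ s₁ s₂)) (pr (l₂ r₁)) (pr (l₃ r₁ r₂))
      P1 P2 P3 P2' P3' (2 * τ₁) (2 * t₂) (2 * t₃) (2 * τ₂') (2 * τ₃')
      (2 * t₁) (2 * t₂') (2 * t₃') (2 * τ₂) (2 * τ₃) X η hX1
      (hX _ (hL' hl₁L) _ hτ₁) (hX _ (hL' m2) _ ht₂) (hX _ (hL' m3) _ ht₃)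
      (hX _ (hL' m2') _ hτ₂') (hX _ (hL' m3') _ hτ₃')
      (hX _ (hL' hl₁L) _ ht₁) (hX _ (hL' m2) _ ht₂') (hX _ (hL' m3) _ ht₃')
      (hX _ (hL' m2') _ hτ₂) (hX _ (hL' m3') _ hτ₃) hη
      (by
        rw [abs_le] at q1 q1' q2 q2' q3 q3' ⊢
        constructor <;>
        linarith [q1.1, q1.2, q1'.1, q1'.2, q2.1, q2.2, q2'.1, q2'.2, q3.1, q3.2, q3'.1, q3'.2])
    have hfa := congrArg (fun z : ℕ => z.factorization (pr l₁)) hmain
    rw [five_factor _ _ _ _ _ _ P1 P1 P2 P3 P2' P3', five_factor _ _ _ _ _ _ P1 P1 P2 P3 P2' P3',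
      if_pos rfl, if_pos rfl, if_neg n2.symm, if_neg n2.symm, if_neg n3.symm, if_neg n3.symm,
      if_neg n2'.symm, if_neg n2'.symm, if_neg n3'.symm, if_neg n3'.symm] at hfa
    have ht1 : t₁ = τ₁ := by omega
    have hs1 : s₁ = r₁ := by rw [← et₁, ← eτ₁, ht1]
    subst hs1
    have ht2 : t₂ = τ₂ :=
      (hinj _ (hL' m2) _ (hL' m2) rfl t₂ ht₂ τ₂ hτ₂ (by rw [et₂, eτ₂])).2
    have hfb := congrArg (fun z : ℕ => z.factorization (pr (l₂ s₁))) hmain
    rw [five_factor _ _ _ _ _ _ P2 P1 P2 P3 P2' P3', five_factor _ _ _ _ _ _ P2 P1 P2 P3 P2' P3',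
      if_neg n2, if_neg n2, if_pos rfl, if_pos rfl, if_neg k3.symm, if_neg k3.symm,
      if_pos rfl, if_pos rfl, if_neg k3'.symm, if_neg k3'.symm] at hfb
    have ht2' : t₂' = τ₂' := by omega
    have hs2 : s₂ = r₂ := by rw [← et₂', ← eτ₂', ht2']
    subst hs2
    rfl

end Pool.Agent.K7.H59.DC
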