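import Pool.Agent.K7.H59.DC.Lines
import Pool.Agent.K7.H59.DC.Comb

/-!
Putting the lines of many primes together.
-/

namespace Pool.Agent.K7.H59.DC

open Finset

noncomputable section

theorem all_lines (b : ℕ) (hb : 2 ≤ b) (C : ℕ)
    (ε : ℕ → ℤ) (hε : ∀ k, |ε k| ≤ C) (x : ℝ)
    (hx : HasSum (fun k => (ε k : ℝ) / (b : ℝ) ^ k) x) (D : ℤ) (hD : x ^ 2 = D)
    (i g n L : ℕ) (hi : 64 ≤ i)
    (hC : 2 * C ^ 2 < 2 ^ i) (hg : i < 2 ^ g) (hg1 : 1 ≤ g)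
    (hn' : 4 * g * n ≤ i) (hL : g * L ≤ i)
    (hK : cnt ε (2 ^ (122 * i)) + 1 ≤ i ^ 3) (PP : Finset ℕ)
    (hPP : ∀ p ∈ PP, p.Prime ∧ p ≠ 2 ∧ (b : ZMod p) ≠ 0 ∧ (D : ZMod p) ^ ((p - 1) / 2) = -1 ∧
      8 * g * p ≤ i) :
    n * (L * PP.card) ≤ 10 * cnt ε (2 ^ (122 * i)) ∨ n ^ 3 ≤ 8 * cnt ε (2 ^ (122 * i)) := by
  classical
  have hK' : (places ε (2 ^ (122 * i))).card ≤ i ^ 3 := le_trans (card_places_le ε _) hK
  have hchoice : ∀ p : ℕ, ∃ Lp : Finset ℕ, ∃ pt : ℕ → ℕ → ℕ, p ∈ PP → (L ≤ 2 * Lp.card ∧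
      (∀ l ∈ Lp, ∀ t, t < n → ε (pt l t) ≠ 0 ∧ pt l t < 2 ^ (122 * i) ∧
        |Real.log (pt l t) + (2 * t : ℕ) * Real.log p - Real.log (l * 2 ^ (2 * i + 2))| ≤
          1 / 2 ^ (50 * i)) ∧
      (∀ l ∈ Lp, ∀ l' ∈ Lp, ∀ t, t < n → ∀ t', t' < n → pt l t = pt l' t' →
        l = l' ∧ t = t')) := by
    intro p
    by_cases hp : p ∈ PP
    · obtain ⟨h1, h2, h3, h4, h5⟩ := hPP p hp
      have : Fact p.Prime := ⟨h1⟩
      obtain ⟨Lp, pt, h6⟩ := lines_of_prime h2 b hb h3 C ε hε x hx D hD h4 i g n L hi hC hg hg1 h5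
        hn' hL hK'
      exact ⟨Lp, pt, fun _ => h6⟩
    · exact ⟨∅, fun _ _ => 0, fun h => absurd h hp⟩
  choose Lp pt hLp using hchoice
  have hcard : L * PP.card ≤ 2 * (PP.sigma Lp).card := by
    rw [Finset.card_sigma, Finset.mul_sum, mul_comm, ← smul_eq_mul, ← Finset.sum_const]
    exact Finset.sum_le_sum fun p hp => (hLp p hp).1
  have hV : ∀ s : (Σ _ : ℕ, ℕ), s ∈ PP.sigma Lp → s.1 ∈ PP ∧ s.2 ∈ Lp s.1 := by
    intro s hs
    rwa [Finset.mem_sigma] at hs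
  have hmain := many_points (PP.sigma Lp) (fun s => s.1) (fun s t => pt s.1 s.2 t)
    (fun s => Real.log (s.2 * 2 ^ (2 * i + 2))) n (1 / 2 ^ (50 * i)) (2 ^ i)
    (one_le_pow₀ (by norm_num))
    (fun s hs => (hPP _ (hV s hs).1).1)
    (fun s hs t ht => ((hLp _ (hV s hs).1).2.1 _ (hV s hs).2 t ht).2.2)
    (by
      rintro ⟨p, l⟩ hs ⟨p', l'⟩ hs' hpp t ht t' ht' he
      dsimp only at hpp he
      subst hpp
      have h := (hLp _ (hV _ hs).1).2.2 l (hV _ hs).2 l' (hV _ hs').2 t ht t' ht' he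
      refine ⟨?_, h.2⟩
      rw [h.1])
    (by
      intro s hs t ht
      have h5 := (hPP _ (hV s hs).1).2.2.2.2
      have hp2 : s.1 ≤ 2 ^ g := by
        have h6 : s.1 ≤ 8 * g * s.1 := Nat.le_mul_of_pos_left _ (by omega)
        omega
      have hp0 : 0 < s.1 := (hPP _ (hV s hs).1).1.pos
      have h7 : s.1 ^ (2 * t) ≤ 2 ^ i := by
        calc s.1 ^ (2 * t) ≤ s.1 ^ (2 * n) := Nat.pow_le_pow_right hp0 (by omega)
          _ ≤ (2 ^ g) ^ (2 * n) := Nat.pow_le_pow_left hp2 _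
          _ = 2 ^ (2 * g * n) := by rw [← pow_mul]; congr 1; ring
          _ ≤ 2 ^ i := Nat.pow_le_pow_right (by norm_num) (by
              have e1 : 2 * g * n = 2 * (g * n) := by ring
              have e2 : 4 * g * n = 4 * (g * n) := by ring
              omega)
      exact_mod_cast h7)
    (by
      have h1 : (2 : ℝ) ^ (50 * i) = (2 ^ i) ^ 5 * (2 ^ i) ^ 45 := by
        rw [← pow_mul, ← pow_mul, ← pow_add]; congr 1; ring
      have h2 : (12 : ℝ) < (2 ^ i) ^ 45 := by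
        have h3 : (1 : ℝ) ≤ 2 ^ i := one_le_pow₀ (by norm_num)
        have h4 : (16 : ℝ) ≤ 2 ^ i := by
          calc (16 : ℝ) = 2 ^ 4 := by norm_num
            _ ≤ 2 ^ i := pow_le_pow_right₀ (by norm_num) (by omega)
        calc (12 : ℝ) < 16 := by norm_num
          _ ≤ 2 ^ i := h4
          _ = (2 ^ i) ^ 1 := (pow_one _).symm
          _ ≤ (2 ^ i) ^ 45 := pow_le_pow_right₀ h3 (by norm_num)
      rw [h1]
      have h5 : (0 : ℝ) < 2 ^ i := by positivity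
      rw [show 12 * (1 / (((2 : ℝ) ^ i) ^ 5 * (2 ^ i) ^ 45)) * (2 ^ i) ^ 5 =
        12 / (2 ^ i) ^ 45 by field_simp]
      rw [div_lt_one (by positivity)]
      exact h2)
    ((range (2 ^ (122 * i))).filter fun k => ε k ≠ 0)
    (by
      intro s hs t ht
      have h := (hLp _ (hV s hs).1).2.1 _ (hV s hs).2 t ht
      rw [mem_filter, mem_range]
      exact ⟨h.2.1, h.1⟩)
  have hc : ((range (2 ^ (122 * i))).filter fun k => ε k ≠ 0).card = cnt ε (2 ^ (122 * i)) := rfl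
  rw [hc] at hmain
  rcases hmain with h | h
  · left
    calc n * (L * PP.card) ≤ n * (2 * (PP.sigma Lp).card) := Nat.mul_le_mul_left _ hcard
      _ = 2 * (n * (PP.sigma Lp).card) := by ring
      _ ≤ 2 * (5 * cnt ε (2 ^ (122 * i))) := Nat.mul_le_mul_left _ h
      _ = 10 * cnt ε (2 ^ (122 * i)) := by ring
  · exact Or.inr h

end

end Pool.Agent.K7.H59.DC
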