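import Mathlib

/-!
Power series over `ZMod p`: Frobenius, residue sections and partial sums of coefficients.
-/

namespace Pool.Agent.K7.H59.DC

open Finset

noncomputable section

variable {p : ℕ} [hpF : Fact p.Prime]

instance charP_powerSeries : CharP (PowerSeries (ZMod p)) p :=
  charP_of_injective_algebraMap (algebraMap (ZMod p) (PowerSeries (ZMod p))).injective p

/-- The series `∑ X ^ i`; multiplying by it passes to partial sums of the coefficients. -/
def V (R : Type*) [CommRing R] : PowerSeries R := PowerSeries.mk fun _ => (1 : R)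

/-- The sum of the coefficients of `f` up to and including place `n`. -/
def ps {R : Type*} [CommRing R] (f : PowerSeries R) (n : ℕ) : R :=
  PowerSeries.coeff n (f * V R)

theorem ps_eq_sum {R : Type*} [CommRing R] (f : PowerSeries R) (n : ℕ) :
    ps f n = ∑ i ∈ range (n + 1), PowerSeries.coeff i f := by
  unfold ps V
  rw [PowerSeries.coeff_mul, Finset.Nat.sum_antidiagonal_eq_sum_range_succ_mk]
  simp

theorem ps_add {R : Type*} [CommRing R] (f g : PowerSeries R) (n : ℕ) :
    ps (f + g) n = ps f n + ps g n := by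
  simp [ps, add_mul]

theorem ps_sub {R : Type*} [CommRing R] (f g : PowerSeries R) (n : ℕ) :
    ps (f - g) n = ps f n - ps g n := by
  simp [ps, sub_mul]

theorem ps_mul {R : Type*} [CommRing R] (f g : PowerSeries R) (n : ℕ) :
    ps (f * g) n = ∑ i ∈ range (n + 1), PowerSeries.coeff i f * ps g (n - i) := by
  unfold ps
  rw [mul_assoc, PowerSeries.coeff_mul, Finset.Nat.sum_antidiagonal_eq_sum_range_succ_mk]

theorem ps_C {R : Type*} [CommRing R] (c : R) (n : ℕ) :
    ps (PowerSeries.C c) n = c := by
  simp [ps, V]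

theorem pow_eq_expand (j : ℕ) (f : PowerSeries (ZMod p)) :
    f ^ p ^ j = PowerSeries.expand (p ^ j) (pow_ne_zero j hpF.out.ne_zero) f := by
  have h := MvPowerSeries.map_iterateFrobenius_expand (R := ZMod p) (σ := Unit) p
    hpF.out.ne_zero f j
  have h2 : iterateFrobenius (ZMod p) p j = RingHom.id _ := by
    ext a
    rw [iterateFrobenius_def, ZMod.pow_card_pow, RingHom.id_apply]
  rw [h2] at h
  rw [← h]
  simp [PowerSeries.expand]

theorem coeff_pow_expand (j m : ℕ) (f : PowerSeries (ZMod p)) :
    PowerSeries.coeff m (f ^ p ^ j) =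
      if p ^ j ∣ m then PowerSeries.coeff (m / p ^ j) f else 0 := by
  rw [pow_eq_expand, PowerSeries.coeff_expand]

/-- The section of `f` along the residue class `r` modulo `P`. -/
def sec (P r : ℕ) (f : PowerSeries (ZMod p)) : PowerSeries (ZMod p) :=
  PowerSeries.mk fun m => PowerSeries.coeff (P * m + r) f

theorem coeff_sec (P r m : ℕ) (f : PowerSeries (ZMod p)) :
    PowerSeries.coeff m (sec P r f) = PowerSeries.coeff (P * m + r) f := by
  simp [sec]

theorem sec_add (P r : ℕ) (f g : PowerSeries (ZMod p)) :
    sec P r (f + g) = sec P r f + sec P r g := by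
  ext m; simp [coeff_sec]

theorem sec_C_mul (P r : ℕ) (c : ZMod p) (g : PowerSeries (ZMod p)) :
    sec P r (PowerSeries.C c * g) = PowerSeries.C c * sec P r g := by
  ext m; simp [coeff_sec]

theorem sec_mul_pow (j r : ℕ) (hr : r < p ^ j) (f g : PowerSeries (ZMod p)) :
    sec (p ^ j) r (f * g ^ p ^ j) = sec (p ^ j) r f * g := by
  have hP : 0 < p ^ j := pow_pos hpF.out.pos j
  ext m
  rw [coeff_sec, PowerSeries.coeff_mul, PowerSeries.coeff_mul]
  simp only [coeff_pow_expand, coeff_sec]
  symm
  have h1 : ∑ x ∈ antidiagonal m, (PowerSeries.coeff (p ^ j * x.1 + r) f *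
      PowerSeries.coeff x.2 g) = ∑ y ∈ (antidiagonal m).image
        (fun x : ℕ × ℕ => (p ^ j * x.1 + r, p ^ j * x.2)),
        PowerSeries.coeff y.1 f * (if p ^ j ∣ y.2 then PowerSeries.coeff (y.2 / p ^ j) g else 0) := by
    rw [Finset.sum_image]
    · apply Finset.sum_congr rfl
      intro x _
      rw [if_pos (dvd_mul_right _ _), Nat.mul_div_cancel_left _ hP]
    · intro a _ b _ hab
      simp only [Prod.mk.injEq, Nat.add_right_cancel_iff] at hab
      have h1 := Nat.eq_of_mul_eq_mul_left hP hab.1
      have h2 := Nat.eq_of_mul_eq_mul_left hP hab.2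
      exact Prod.ext h1 h2
  rw [h1]
  apply Finset.sum_subset
  · intro y hy
    rw [Finset.mem_image] at hy
    obtain ⟨x, hx, rfl⟩ := hy
    rw [HasAntidiagonal.mem_antidiagonal] at hx ⊢
    simp only
    rw [← hx]; ring
  · intro y hy hy2
    rw [HasAntidiagonal.mem_antidiagonal] at hy
    split_ifs with hd
    · exfalso
      apply hy2
      rw [Finset.mem_image]
      obtain ⟨k, hk⟩ := hd
      have hkm : k ≤ m := by
        by_contra hlt
        push Not at hlt
        have : p ^ j * (m + 1) ≤ p ^ j * k := Nat.mul_le_mul_left _ hlt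
        rw [Nat.mul_add] at this
        omega
      refine ⟨(m - k, k), by rw [HasAntidiagonal.mem_antidiagonal]; omega, ?_⟩
      apply Prod.ext
      · simp only
        have : p ^ j * (m - k) + p ^ j * k = p ^ j * m := by
          rw [← Nat.mul_add]; congr 1; omega
        omega
      · simp only; exact hk.symm
    · simp

end

end Pool.Agent.K7.H59.DC
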