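import Pool.Agent.K7.H59.DC.Basic

/-!
The zero estimate: if `B ^ p + B` is a polynomial of degree at most `p * q` over `ZMod p`, then
the partial sums of the coefficients of `B ^ 2` differ from a given nonsquare at least `p ^ j`
times before `p ^ j * (2 * p * q + 1)`.
-/

namespace Pool.Agent.K7.H59.DC

open Finset Polynomial

noncomputable section

variable {p : ℕ} [hpF : Fact p.Prime]

theorem telescoped (H : (ZMod p)[X]) (B : PowerSeries (ZMod p)) (hB : B ^ p + B = H) (j : ℕ) :
    B = ((∑ i ∈ range j, (-1) ^ i * H ^ p ^ i : (ZMod p)[X]) : PowerSeries (ZMod p))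
      + (-1) ^ j * B ^ p ^ j := by
  induction j with
  | zero => simp
  | succ j ih =>
    have h1 : (B ^ p + B) ^ p ^ j = B ^ p ^ (j + 1) + B ^ p ^ j := by
      rw [add_pow_char_pow, ← pow_mul, ← pow_succ']
    rw [hB] at h1
    have h2 : B ^ p ^ j = ((H ^ p ^ j : (ZMod p)[X]) : PowerSeries (ZMod p)) - B ^ p ^ (j + 1) := by
      rw [Polynomial.coe_pow, h1]; ring
    rw [Finset.sum_range_succ]
    conv_lhs => rw [ih, h2]
    push_cast
    ring

theorem natDegree_G (H : (ZMod p)[X]) (q : ℕ) (hH : H.natDegree ≤ p * q) (j : ℕ) :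
    (∑ i ∈ range j, (-1) ^ i * H ^ p ^ i : (ZMod p)[X]).natDegree ≤ p ^ j * q := by
  apply Polynomial.natDegree_sum_le_of_forall_le
  intro i hi
  rw [Finset.mem_range] at hi
  have h1 : ((-1) ^ i * H ^ p ^ i : (ZMod p)[X]).natDegree ≤ p ^ i * (p * q) := by
    refine le_trans Polynomial.natDegree_mul_le ?_
    have h2 : ((-1) ^ i : (ZMod p)[X]).natDegree = 0 := by
      have : ((-1) ^ i : (ZMod p)[X]) = C ((-1) ^ i) := by simp
      rw [this, natDegree_C]
    rw [h2, zero_add]
    refine le_trans Polynomial.natDegree_pow_le ?_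
    exact Nat.mul_le_mul_left _ hH
  refine le_trans h1 ?_
  rw [← mul_assoc, ← pow_succ]
  exact Nat.mul_le_mul_right _ (Nat.pow_le_pow_right hpF.out.pos hi)

theorem exists_poly (f : PowerSeries (ZMod p)) (d : ℕ)
    (h : ∀ m, d < m → PowerSeries.coeff m f = 0) :
    ∃ g : (ZMod p)[X], g.natDegree ≤ d ∧ (g : PowerSeries (ZMod p)) = f := by
  refine ⟨PowerSeries.trunc (d + 1) f, ?_, ?_⟩
  · exact Nat.lt_succ_iff.mp (PowerSeries.natDegree_trunc_lt f d)
  · ext m
    rw [Polynomial.coeff_coe, PowerSeries.coeff_trunc]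
    split_ifs with hm
    · rfl
    · exact (h m (by omega)).symm

theorem eq_zero_of_dvd (g : (ZMod p)[X]) (D : ℕ) (hd : g.natDegree < D)
    (h : (PowerSeries.X : PowerSeries (ZMod p)) ^ D ∣ (g : PowerSeries (ZMod p))) : g = 0 := by
  rw [PowerSeries.X_pow_dvd_iff] at h
  ext m
  rw [Polynomial.coeff_zero]
  by_cases hm : m < D
  · have := h m hm
    rwa [Polynomial.coeff_coe] at this
  · exact Polynomial.coeff_eq_zero_of_natDegree_lt (by omega)

theorem eq_zero_of_pow_add (hp2 : p ≠ 2) (w : PowerSeries (ZMod p)) (h : w ^ p + w = 0) :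
    w = 0 := by
  have hp1 : 1 ≤ p := hpF.out.one_le
  have h1 : w * (w ^ (p - 1) + 1) = 0 := by
    rw [mul_add, ← pow_succ', Nat.sub_add_cancel hp1, mul_one, h]
  rcases mul_eq_zero.mp h1 with h2 | h2
  · exact h2
  · exfalso
    have h3 := congrArg PowerSeries.constantCoeff h2
    rw [map_add, map_pow, map_one, map_zero] at h3
    by_cases hc : PowerSeries.constantCoeff w = 0
    · rw [hc, zero_pow (by have := hpF.out.two_le; omega), zero_add] at h3
      exact one_ne_zero h3
    · rw [ZMod.pow_card_sub_one_eq_one hc] at h3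
      have h4 : ((2 : ℕ) : ZMod p) = 0 := by
        push_cast
        rw [← h3]; norm_num
      rw [ZMod.natCast_eq_zero_iff] at h4
      exact hp2 ((Nat.prime_dvd_prime_iff_eq hpF.out Nat.prime_two).mp h4)

theorem sq_pow_ne (hp2 : p ≠ 2) (g : ZMod p) : (g ^ 2) ^ ((p - 1) / 2) ≠ -1 := by
  have hodd : p % 2 = 1 := by
    rcases hpF.out.eq_two_or_odd with h | h
    · exact absurd h hp2
    · exact h
  have hp3 : 3 ≤ p := by have := hpF.out.two_le; omega
  rw [← pow_mul]
  have h1 : 2 * ((p - 1) / 2) = p - 1 := by omega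
  rw [h1]
  intro h
  have hne : (1 : ZMod p) ≠ -1 := by
    intro h3
    have h4 : ((2 : ℕ) : ZMod p) = 0 := by
      push_cast
      calc (2 : ZMod p) = 1 + 1 := by norm_num
        _ = 1 + -1 := by rw [← h3]
        _ = 0 := by ring
    rw [ZMod.natCast_eq_zero_iff] at h4
    exact hp2 ((Nat.prime_dvd_prime_iff_eq hpF.out Nat.prime_two).mp h4)
  by_cases hc : g = 0
  · rw [hc, zero_pow (by omega)] at h
    have h5 : (1 : ZMod p) = 0 := by
      have : (0 : ZMod p) = 1 := by
        have h6 := congrArg Neg.neg h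
        rwa [neg_zero, neg_neg] at h6
      exact this.symm
    exact one_ne_zero h5
  · rw [ZMod.pow_card_sub_one_eq_one hc] at h
    exact hne h

/-- `U = 1 + X + ... + X ^ (P - 1)`. -/
def U (p P : ℕ) : (ZMod p)[X] := ∑ i ∈ range P, X ^ i

theorem coeff_U (P m : ℕ) : (U p P).coeff m = if m < P then 1 else 0 := by
  unfold U
  rw [Polynomial.finsetSum_coeff]
  simp only [Polynomial.coeff_X_pow]
  simp

theorem V_mul : V (ZMod p) * (1 - PowerSeries.X) = 1 := by
  unfold V
  ext m
  rw [mul_sub, mul_one, map_sub]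
  rcases m with _ | m
  · simp
  · rw [PowerSeries.coeff_succ_mul_X]
    simp [PowerSeries.coeff_one]

theorem V_eq (j : ℕ) :
    V (ZMod p) = (U p (p ^ j) : PowerSeries (ZMod p)) * V (ZMod p) ^ p ^ j := by
  have h1 : V (ZMod p) ^ p ^ j * (1 - PowerSeries.X) ^ p ^ j = 1 := by
    rw [← mul_pow, V_mul, one_pow]
  have h2 : ((1 : PowerSeries (ZMod p)) - PowerSeries.X) ^ p ^ j = 1 - PowerSeries.X ^ p ^ j := by
    rw [sub_pow_char_pow, one_pow]
  have h3 : (U p (p ^ j) : PowerSeries (ZMod p)) * (1 - PowerSeries.X)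
      = 1 - PowerSeries.X ^ p ^ j := by
    have h4 : U p (p ^ j) * (1 - X) = 1 - X ^ p ^ j := by
      unfold U
      have := geom_sum_mul (X : (ZMod p)[X]) (p ^ j)
      linear_combination -this
    have h5 := congrArg (fun g : (ZMod p)[X] => (g : PowerSeries (ZMod p))) h4
    push_cast at h5
    exact h5
  calc V (ZMod p) = V (ZMod p) * (V (ZMod p) ^ p ^ j * (1 - PowerSeries.X) ^ p ^ j) := by
        rw [h1, mul_one]
    _ = V (ZMod p) * (V (ZMod p) ^ p ^ j * ((U p (p ^ j) : PowerSeries (ZMod p)) *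
        (1 - PowerSeries.X))) := by rw [h2, h3]
    _ = (V (ZMod p) * (1 - PowerSeries.X)) * ((U p (p ^ j) : PowerSeries (ZMod p)) *
        V (ZMod p) ^ p ^ j) := by ring
    _ = _ := by rw [V_mul, one_mul]

theorem sec_U (j r : ℕ) (hr : r < p ^ j) :
    sec (p ^ j) r (U p (p ^ j) : PowerSeries (ZMod p)) = 1 := by
  ext m
  rw [coeff_sec, Polynomial.coeff_coe, coeff_U, PowerSeries.coeff_one]
  by_cases hm : m = 0
  · subst hm; simp [hr]
  · have : ¬ (p ^ j * m + r < p ^ j) := by
      have : p ^ j * 1 ≤ p ^ j * m := Nat.mul_le_mul_left _ (Nat.one_le_iff_ne_zero.mpr hm)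
      omega
    simp [hm, this]

theorem natDegree_U (P : ℕ) (hP : 0 < P) : (U p P).natDegree ≤ P - 1 := by
  rw [Polynomial.natDegree_le_iff_coeff_eq_zero]
  intro N hN
  rw [coeff_U, if_neg (by omega)]

/-- A series with `B ^ p + B` a polynomial of degree at most `p * q`, all of whose partial sums of
`B ^ 2` along a long progression equal `n`, is a polynomial of degree at most `q`. -/
theorem poly_of_progression (hp2 : p ≠ 2) (n : ZMod p) (q : ℕ)
    (H : (ZMod p)[X]) (hH : H.natDegree ≤ p * q) (B : PowerSeries (ZMod p))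
    (hB : B ^ p + B = H) (j r : ℕ) (hr : r < p ^ j)
    (hall : ∀ m, m < 2 * p * q + 1 → ps (B ^ 2) (p ^ j * m + r) = n) :
    ∃ g : (ZMod p)[X], g.natDegree ≤ q ∧ (g : PowerSeries (ZMod p)) = B := by
  have hpos : 0 < p ^ j := pow_pos hpF.out.pos j
  have hodd : p % 2 = 1 := by
    rcases hpF.out.eq_two_or_odd with h | h
    · exact absurd h hp2
    · exact h
  obtain ⟨h, hph⟩ : ∃ h, p = 2 * h + 1 := ⟨p / 2, by omega⟩
  have hh : 1 ≤ h := by have := hpF.out.two_le; omega
  set D' := 2 * p * q + 1 with hD'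
  set P := p ^ j with hP
  set G : (ZMod p)[X] := ∑ i ∈ range j, (-1) ^ i * H ^ p ^ i with hG
  have hGdeg : G.natDegree ≤ P * q := natDegree_G H q hH j
  have htel : B = (G : PowerSeries (ZMod p)) + (-1) ^ j * B ^ P := telescoped H B hB j
  -- the auxiliary polynomials
  set W : (ZMod p)[X] := (-1) ^ j * U p P * G with hW
  set Z : (ZMod p)[X] := U p P * (G ^ 2 - C n) with hZ
  have hs1 : ((-1) ^ j : (ZMod p)[X]).natDegree = 0 := by
    have : ((-1) ^ j : (ZMod p)[X]) = C ((-1) ^ j) := by simp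
    rw [this, natDegree_C]
  have hWdeg : W.natDegree ≤ (P - 1) + P * q := by
    refine le_trans Polynomial.natDegree_mul_le ?_
    refine add_le_add ?_ hGdeg
    refine le_trans Polynomial.natDegree_mul_le ?_
    rw [hs1, zero_add]
    exact natDegree_U P hpos
  have hZdeg : Z.natDegree ≤ (P - 1) + P * (2 * q) := by
    refine le_trans Polynomial.natDegree_mul_le ?_
    refine add_le_add (natDegree_U P hpos) ?_
    refine le_trans (Polynomial.natDegree_sub_le _ _) ?_
    rw [natDegree_C, max_eq_left (Nat.zero_le _)]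
    refine le_trans Polynomial.natDegree_pow_le ?_
    calc 2 * G.natDegree ≤ 2 * (P * q) := Nat.mul_le_mul_left _ hGdeg
      _ = P * (2 * q) := by ring
  obtain ⟨β, hβdeg, hβ⟩ := exists_poly (sec P r (W : PowerSeries (ZMod p))) q (by
    intro m hm
    rw [coeff_sec, Polynomial.coeff_coe]
    apply Polynomial.coeff_eq_zero_of_natDegree_lt
    have : P * (q + 1) ≤ P * m := Nat.mul_le_mul_left _ hm
    rw [Nat.mul_add] at this
    omega)
  obtain ⟨α, hαdeg, hα⟩ := exists_poly (sec P r (Z : PowerSeries (ZMod p))) (2 * q) (by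
    intro m hm
    rw [coeff_sec, Polynomial.coeff_coe]
    apply Polynomial.coeff_eq_zero_of_natDegree_lt
    have : P * (2 * q + 1) ≤ P * m := Nat.mul_le_mul_left _ hm
    rw [Nat.mul_add] at this
    omega)
  -- the section of the partial sums
  have hdiv1 : (PowerSeries.X : PowerSeries (ZMod p)) ^ D' ∣
      sec P r ((B ^ 2 - PowerSeries.C n) * V (ZMod p)) := by
    rw [PowerSeries.X_pow_dvd_iff]
    intro m hm
    rw [coeff_sec]
    have h1 := hall m hm
    have h2 := ps_C n (P * m + r)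
    have h3 : PowerSeries.coeff (P * m + r) ((B ^ 2 - PowerSeries.C n) * V (ZMod p)) =
        ps (B ^ 2) (P * m + r) - ps (PowerSeries.C n) (P * m + r) := by
      unfold ps
      rw [sub_mul, map_sub]
    rw [h3, h1, h2, sub_self]
  have hsec1 : sec P r ((B ^ 2 - PowerSeries.C n) * V (ZMod p)) =
      sec P r ((B ^ 2 - PowerSeries.C n) * (U p P : PowerSeries (ZMod p))) * V (ZMod p) := by
    rw [← sec_mul_pow j r hr]
    congr 1
    rw [mul_assoc, ← hP, ← V_eq j]
  have hdiv2 : (PowerSeries.X : PowerSeries (ZMod p)) ^ D' ∣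
      sec P r ((B ^ 2 - PowerSeries.C n) * (U p P : PowerSeries (ZMod p))) := by
    have h1 := Dvd.dvd.mul_right hdiv1 (1 - PowerSeries.X)
    rwa [hsec1, mul_assoc, V_mul, mul_one] at h1
  have hexp : (B ^ 2 - PowerSeries.C n) * (U p P : PowerSeries (ZMod p)) =
      (Z : PowerSeries (ZMod p)) + (W : PowerSeries (ZMod p)) * B ^ P
        + (W : PowerSeries (ZMod p)) * B ^ P + (U p P : PowerSeries (ZMod p)) * (B ^ 2) ^ P := by
    have hsq : ((-1 : PowerSeries (ZMod p)) ^ j) * (-1) ^ j = 1 := by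
      rw [← mul_pow]; simp
    have hZc : (Z : PowerSeries (ZMod p)) =
        (U p P : PowerSeries (ZMod p)) * ((G : PowerSeries (ZMod p)) ^ 2 - PowerSeries.C n) := by
      rw [hZ]; push_cast; rfl
    have hWc : (W : PowerSeries (ZMod p)) =
        (-1) ^ j * (U p P : PowerSeries (ZMod p)) * (G : PowerSeries (ZMod p)) := by
      rw [hW]; push_cast; rfl
    rw [hZc, hWc]
    conv_lhs => rw [htel]
    linear_combination (B ^ P) ^ 2 * (U p P : PowerSeries (ZMod p)) * hsq
  have hexp2 : sec P r ((B ^ 2 - PowerSeries.C n) * (U p P : PowerSeries (ZMod p))) =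
      (α : PowerSeries (ZMod p)) + 2 * (β : PowerSeries (ZMod p)) * B + B ^ 2 := by
    rw [hexp, sec_add, sec_add, sec_add, sec_mul_pow j r hr, sec_mul_pow j r hr, sec_U j r hr,
      ← hα, ← hβ]
    ring
  set Δ : (ZMod p)[X] := β ^ 2 - α with hΔ
  have hΔdeg : Δ.natDegree ≤ 2 * q := by
    refine le_trans (Polynomial.natDegree_sub_le _ _) ?_
    refine max_le ?_ hαdeg
    refine le_trans Polynomial.natDegree_pow_le ?_
    exact Nat.mul_le_mul_left _ hβdeg
  set B₁ : PowerSeries (ZMod p) := B + (β : PowerSeries (ZMod p)) with hB₁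
  have hd3 : (PowerSeries.X : PowerSeries (ZMod p)) ^ D' ∣ B₁ ^ 2 - (Δ : PowerSeries (ZMod p)) := by
    have : B₁ ^ 2 - (Δ : PowerSeries (ZMod p)) =
        (α : PowerSeries (ZMod p)) + 2 * (β : PowerSeries (ZMod p)) * B + B ^ 2 := by
      rw [hB₁, hΔ]; push_cast; ring
    rw [this, ← hexp2]
    exact hdiv2
  set H₁ : (ZMod p)[X] := H + β ^ p + β with hH₁
  have hH₁deg : H₁.natDegree ≤ p * q := by
    refine le_trans (Polynomial.natDegree_add_le _ _) (max_le ?_ ?_)
    · refine le_trans (Polynomial.natDegree_add_le _ _) (max_le hH ?_)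
      refine le_trans Polynomial.natDegree_pow_le ?_
      exact Nat.mul_le_mul_left _ hβdeg
    · exact le_trans hβdeg (Nat.le_mul_of_pos_left q hpF.out.pos)
  have hB₁eq : B₁ ^ p + B₁ = (H₁ : PowerSeries (ZMod p)) := by
    rw [hB₁, hH₁, add_pow_char]
    push_cast
    rw [← hB]; ring
  set u : (ZMod p)[X] := Δ ^ h + 1 with hu
  have hd4 : (PowerSeries.X : PowerSeries (ZMod p)) ^ D' ∣
      (H₁ : PowerSeries (ZMod p)) - B₁ * (u : PowerSeries (ZMod p)) := by
    have h1 : (H₁ : PowerSeries (ZMod p)) - B₁ * (u : PowerSeries (ZMod p)) =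
        B₁ * ((B₁ ^ 2) ^ h - (Δ : PowerSeries (ZMod p)) ^ h) := by
      have h0 : B₁ ^ p = B₁ ^ (2 * h + 1) := congrArg (fun k => B₁ ^ k) hph
      rw [← hB₁eq, hu, h0]
      push_cast
      ring_nf
    rw [h1]
    exact Dvd.dvd.mul_left (dvd_trans hd3 (sub_dvd_pow_sub_pow _ _ h)) _
  have hudeg : u.natDegree ≤ h * (2 * q) := by
    refine le_trans (Polynomial.natDegree_add_le _ _) (max_le ?_ ?_)
    · refine le_trans Polynomial.natDegree_pow_le ?_
      exact Nat.mul_le_mul_left _ hΔdeg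
    · simp
  have hkey : Δ * u ^ 2 = H₁ ^ 2 := by
    have h1 : Δ * u ^ 2 - H₁ ^ 2 = 0 := by
      apply eq_zero_of_dvd _ D'
      · have h2 : (Δ * u ^ 2).natDegree ≤ 2 * p * q := by
          refine le_trans Polynomial.natDegree_mul_le ?_
          have h3 : (u ^ 2).natDegree ≤ 2 * (h * (2 * q)) :=
            le_trans Polynomial.natDegree_pow_le (Nat.mul_le_mul_left _ hudeg)
          calc Δ.natDegree + (u ^ 2).natDegree ≤ 2 * q + 2 * (h * (2 * q)) :=
                add_le_add hΔdeg h3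
            _ = 2 * (2 * h + 1) * q := by ring
            _ = 2 * p * q := by rw [← hph]
        have h4 : (H₁ ^ 2).natDegree ≤ 2 * p * q := by
          refine le_trans Polynomial.natDegree_pow_le ?_
          calc 2 * H₁.natDegree ≤ 2 * (p * q) := Nat.mul_le_mul_left _ hH₁deg
            _ = 2 * p * q := by ring
        have h5 := Polynomial.natDegree_sub_le (Δ * u ^ 2) (H₁ ^ 2)
        have h6 : max (Δ * u ^ 2).natDegree (H₁ ^ 2).natDegree ≤ 2 * p * q := max_le h2 h4
        omega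
      · have h2 : ((Δ * u ^ 2 - H₁ ^ 2 : (ZMod p)[X]) : PowerSeries (ZMod p)) =
            -((B₁ ^ 2 - (Δ : PowerSeries (ZMod p))) * (u : PowerSeries (ZMod p)) ^ 2) -
            ((H₁ : PowerSeries (ZMod p)) - B₁ * (u : PowerSeries (ZMod p))) *
            ((H₁ : PowerSeries (ZMod p)) + B₁ * (u : PowerSeries (ZMod p))) := by
          push_cast; ring
        rw [h2]
        exact dvd_sub ((Dvd.dvd.mul_right hd3 _).neg_right) (Dvd.dvd.mul_right hd4 _)
    exact sub_eq_zero.mp h1
  by_cases hu0 : u = 0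
  · exfalso
    have hH₁0 : H₁ = 0 := by
      rw [hu0] at hkey
      have : H₁ ^ 2 = 0 := by rw [← hkey]; ring
      exact pow_eq_zero_iff (two_ne_zero) |>.mp this
    have hB₁0 : B₁ = 0 := by
      apply eq_zero_of_pow_add hp2
      rw [hB₁eq, hH₁0]; simp
    have hΔ0 : Δ = 0 := by
      apply eq_zero_of_dvd _ D'
      · have : 2 * q ≤ 2 * p * q := by
          calc 2 * q = 2 * 1 * q := by ring
            _ ≤ 2 * p * q := Nat.mul_le_mul_right _ (Nat.mul_le_mul_left _ hpF.out.pos)
        omega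
      · rw [hB₁0] at hd3
        have h1 : (0 : PowerSeries (ZMod p)) ^ 2 - (Δ : PowerSeries (ZMod p)) =
          -(Δ : PowerSeries (ZMod p)) := by ring
        rw [h1] at hd3
        exact (dvd_neg.mp hd3)
    rw [hu, hΔ0, zero_pow (by omega), zero_add] at hu0
    exact one_ne_zero hu0
  · have hdvd : u ∣ H₁ := by
      have h1 : u ^ 2 ∣ H₁ ^ 2 := ⟨Δ, by rw [← hkey]; ring⟩
      exact (IsIntegrallyClosed.pow_dvd_pow_iff two_ne_zero).mp h1
    obtain ⟨δ, hδ⟩ := hdvd
    have hΔδ : Δ = δ ^ 2 := by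
      have h1 : u ^ 2 * Δ = u ^ 2 * δ ^ 2 := by
        rw [mul_comm, hkey, hδ]; ring
      exact mul_left_cancel₀ (pow_ne_zero 2 hu0) h1
    have hH₁δ : H₁ = δ ^ p + δ := by
      have h0 : δ ^ p = δ ^ (2 * h + 1) := congrArg (fun k => δ ^ k) hph
      rw [hδ, hu, hΔδ, h0]
      ring
    have hw : B₁ - (δ : PowerSeries (ZMod p)) = 0 := by
      apply eq_zero_of_pow_add hp2
      rw [sub_pow_char]
      have h1 : (H₁ : PowerSeries (ZMod p)) = (δ : PowerSeries (ZMod p)) ^ p +
          (δ : PowerSeries (ZMod p)) := by rw [hH₁δ]; push_cast; rfl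
      rw [h1] at hB₁eq
      linear_combination hB₁eq
    refine ⟨δ - β, ?_, ?_⟩
    · refine le_trans (Polynomial.natDegree_sub_le _ _) (max_le ?_ hβdeg)
      have h1 : (δ ^ 2).natDegree ≤ 2 * q := by rw [← hΔδ]; exact hΔdeg
      rw [Polynomial.natDegree_pow] at h1
      omega
    · push_cast
      rw [hB₁] at hw
      linear_combination -hw

theorem zero_estimate (hp2 : p ≠ 2) (n : ZMod p) (hn : n ^ ((p - 1) / 2) = -1) (q : ℕ)
    (H : (ZMod p)[X]) (hH : H.natDegree ≤ p * q) (B : PowerSeries (ZMod p))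
    (hB : B ^ p + B = H) (j : ℕ) :
    p ^ j ≤ #{R ∈ range (p ^ j * (2 * p * q + 1)) | ps (B ^ 2) R ≠ n} := by
  classical
  have hpos : 0 < p ^ j := pow_pos hpF.out.pos j
  by_contra hlt
  push Not at hlt
  set bad := {R ∈ range (p ^ j * (2 * p * q + 1)) | ps (B ^ 2) R ≠ n} with hbad
  have hcard : (bad.image (fun R => R % p ^ j)).card < (range (p ^ j)).card := by
    rw [card_range]
    exact lt_of_le_of_lt card_image_le hlt
  obtain ⟨r, hr, hrn⟩ := exists_mem_notMem_of_card_lt_card hcard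
  rw [mem_range] at hr
  have hall : ∀ m, m < 2 * p * q + 1 → ps (B ^ 2) (p ^ j * m + r) = n := by
    intro m hm
    by_contra hne
    apply hrn
    rw [mem_image]
    refine ⟨p ^ j * m + r, ?_, ?_⟩
    · rw [hbad, mem_filter, mem_range]
      refine ⟨?_, hne⟩
      calc p ^ j * m + r < p ^ j * m + p ^ j := by omega
        _ = p ^ j * (m + 1) := by ring
        _ ≤ p ^ j * (2 * p * q + 1) := Nat.mul_le_mul_left _ hm
    · rw [Nat.mul_add_mod, Nat.mod_eq_of_lt hr]
  obtain ⟨g, hgdeg, hg⟩ := poly_of_progression hp2 n q H hH B hB j r hr hall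
  have h1 := hall (2 * p * q) (by omega)
  have h2 : ps (B ^ 2) (p ^ j * (2 * p * q) + r) = (g.eval 1) ^ 2 := by
    rw [ps_eq_sum, ← hg, ← Polynomial.coe_pow]
    have h3 : (g ^ 2).natDegree < p ^ j * (2 * p * q) + r + 1 := by
      have h4 : (g ^ 2).natDegree ≤ 2 * q :=
        le_trans Polynomial.natDegree_pow_le (Nat.mul_le_mul_left _ hgdeg)
      have h5 : 2 * q ≤ p ^ j * (2 * p * q) := by
        calc 2 * q = 1 * (2 * 1 * q) := by ring
          _ ≤ p ^ j * (2 * p * q) := Nat.mul_le_mul hpos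
              (Nat.mul_le_mul_right _ (Nat.mul_le_mul_left _ hpF.out.pos))
      omega
    have h6 := Polynomial.eval_eq_sum_range' h3 (1 : ZMod p)
    rw [eval_pow] at h6
    rw [h6]
    apply Finset.sum_congr rfl
    intro i _
    rw [Polynomial.coeff_coe]; simp
  rw [h2] at h1
  rw [← h1] at hn
  exact sq_pow_ne hp2 _ hn

end

end Pool.Agent.K7.H59.DC
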