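import Pool.Agent.K7.H59.DC.Good
import Pool.Agent.K7.H59.DC.ZeroEst

/-!
Comparison of a series whose partial sums nearly satisfy `E (R / p) = - E R` with its
self-similar continuation from one window, and of two such continuations with proportional
places.
-/

namespace Pool.Agent.K7.H59.DC

open Finset Polynomial

noncomputable section

variable {p : ℕ} [hpF : Fact p.Prime]

theorem ps_pow_char_pow (f : PowerSeries (ZMod p)) (l R : ℕ) :
    ps (f ^ p ^ l) R = ps f (R / p ^ l) := by
  induction l generalizing R with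
  | zero => simp
  | succ l ih =>
    rw [pow_succ, pow_mul, ps_pow_char, ih, Nat.div_div_eq_div_mul, mul_comm]

theorem ps_sum {ι : Type*} (s : Finset ι) (f : ι → PowerSeries (ZMod p)) (R : ℕ) :
    ps (∑ i ∈ s, f i) R = ∑ i ∈ s, ps (f i) R := by
  simp [ps, Finset.sum_mul, map_sum]

theorem ps_C_mul (c : ZMod p) (f : PowerSeries (ZMod p)) (R : ℕ) :
    ps (PowerSeries.C c * f) R = c * ps f R := by
  simp [ps, mul_assoc]

theorem ps_monomial (c : ZMod p) (k R : ℕ) :
    ps (((C c * X ^ k : (ZMod p)[X])) : PowerSeries (ZMod p)) R = if k ≤ R then c else 0 := by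
  rw [ps_eq_sum]
  simp only [Polynomial.coeff_coe, Polynomial.coeff_C_mul_X_pow]
  rw [Finset.sum_ite_eq' (range (R + 1)) k]
  simp

/-- Sum of monomials over an index set. -/
def msum {ι : Type*} (I : Finset ι) (w : ι → ZMod p) (a : ι → ℕ) : (ZMod p)[X] :=
  ∑ τ ∈ I, C (w τ) * X ^ a τ

theorem ps_msum {ι : Type*} (I : Finset ι) (w : ι → ZMod p) (a : ι → ℕ) (R : ℕ) :
    ps (msum I w a : PowerSeries (ZMod p)) R = ∑ τ ∈ I, if a τ ≤ R then w τ else 0 := by
  unfold msum
  have h : ((∑ τ ∈ I, C (w τ) * X ^ a τ : (ZMod p)[X]) : PowerSeries (ZMod p)) =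
      ∑ τ ∈ I, ((C (w τ) * X ^ a τ : (ZMod p)[X]) : PowerSeries (ZMod p)) := by
    exact map_sum (Polynomial.coeToPowerSeries.ringHom) _ _
  rw [h, ps_sum]
  exact Finset.sum_congr rfl fun τ _ => ps_monomial _ _ _

theorem ps_msum_sq {ι : Type*} (I : Finset ι) (w : ι → ZMod p) (a : ι → ℕ) (R : ℕ) :
    ps ((msum I w a : PowerSeries (ZMod p)) ^ 2) R =
      ∑ τ ∈ I, ∑ σ ∈ I, if a τ + a σ ≤ R then w τ * w σ else 0 := by
  have h : (msum I w a) ^ 2 = msum (I ×ˢ I) (fun y => w y.1 * w y.2) (fun y => a y.1 + a y.2) := by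
    unfold msum
    rw [pow_two, Finset.sum_mul_sum, Finset.sum_product]
    apply Finset.sum_congr rfl
    intro τ _
    apply Finset.sum_congr rfl
    intro σ _
    rw [C_mul, pow_add]; ring
  rw [← Polynomial.coe_pow, h, ps_msum, Finset.sum_product]

theorem msum_pow {ι : Type*} (I : Finset ι) (w : ι → ZMod p) (a : ι → ℕ) (l : ℕ) :
    (msum I w a) ^ p ^ l = msum I w (fun τ => a τ * p ^ l) := by
  unfold msum
  rw [sum_pow_char_pow]
  apply Finset.sum_congr rfl
  intro τ _
  rw [mul_pow, ← C_pow, ZMod.pow_card_pow, ← pow_mul]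

theorem coeff_msum_eq_zero {ι : Type*} (I : Finset ι) (w : ι → ZMod p) (a : ι → ℕ) (k : ℕ)
    (h : ∀ τ ∈ I, a τ ≠ k) : (msum I w a).coeff k = 0 := by
  unfold msum
  rw [Polynomial.finsetSum_coeff]
  apply Finset.sum_eq_zero
  intro τ hτ
  rw [Polynomial.coeff_C_mul_X_pow, if_neg (fun hk => h τ hτ hk.symm)]

/-- The places of the jumps of the partial sums inside the window. -/
def jumps (B : PowerSeries (ZMod p)) (T : ℕ) : Finset ℕ :=
  open Classical in {s ∈ Ioo T (p * T) | PowerSeries.coeff s B ≠ 0}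

/-- The places used in a window: its jumps and its right end. -/
def idx (B : PowerSeries (ZMod p)) (T : ℕ) : Finset ℕ := insert (p * T) (jumps B T)

/-- The weights used in a window. -/
def wt (B : PowerSeries (ZMod p)) (T s : ℕ) : ZMod p :=
  if s = 0 then ps B T
  else if s = p * T then -(ps B T + ps B (p * T - 1)) else PowerSeries.coeff s B

/-- The index set of the continuation. -/
def big (B : PowerSeries (ZMod p)) (T L : ℕ) : Finset (ℕ × ℕ) :=
  insert (0, 0) (idx B T ×ˢ range L)

/-- The weights of the continuation. -/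
def bwt (B : PowerSeries (ZMod p)) (T : ℕ) (τ : ℕ × ℕ) : ZMod p := (-1) ^ τ.2 * wt B T τ.1

/-- The continuation, with the places moved by `P`. -/
def cont (B : PowerSeries (ZMod p)) (T : ℕ) (P : ℕ → ℕ) (L : ℕ) : (ZMod p)[X] :=
  msum (big B T L) (bwt B T) (fun τ => P τ.1 * p ^ τ.2)

/-- The polynomial of one window, with the places moved by `P`. -/
def win (B : PowerSeries (ZMod p)) (T : ℕ) (P : ℕ → ℕ) : (ZMod p)[X] :=
  msum (idx B T) (wt B T) P

theorem idx_pos (B : PowerSeries (ZMod p)) (T : ℕ) (hT : 0 < T) (s : ℕ) (hs : s ∈ idx B T) :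
    T < s ∧ s ≤ p * T := by
  unfold idx jumps at hs
  rw [mem_insert, mem_filter, mem_Ioo] at hs
  rcases hs with rfl | ⟨⟨h1, h2⟩, _⟩
  · refine ⟨?_, le_rfl⟩
    calc T = 1 * T := by ring
      _ < p * T := Nat.mul_lt_mul_of_pos_right hpF.out.one_lt hT
  · exact ⟨h1, h2.le⟩

theorem card_big (B : PowerSeries (ZMod p)) (T L : ℕ) :
    (big B T L).card ≤ 1 + ((jumps B T).card + 1) * L := by
  unfold big
  refine le_trans (card_insert_le _ _) ?_
  rw [card_product, card_range, add_comm]
  exact Nat.add_le_add_left (Nat.mul_le_mul_right _ (card_insert_le _ _)) _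

theorem cont_eq (B : PowerSeries (ZMod p)) (T : ℕ) (hT : 0 < T) (P : ℕ → ℕ) (hP0 : P 0 = 0)
    (L : ℕ) :
    cont B T P L = C (ps B T) + ∑ l ∈ range L, (-1) ^ l * win B T P ^ p ^ l := by
  unfold cont big
  unfold msum
  rw [Finset.sum_insert]
  · congr 1
    · simp [bwt, wt, hP0]
    · rw [Finset.sum_product_right]
      apply Finset.sum_congr rfl
      intro l _
      unfold win
      rw [msum_pow]
      unfold msum
      rw [Finset.mul_sum]
      apply Finset.sum_congr rfl
      intro s _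
      simp only [bwt]
      rw [C_mul, C_pow, C_neg, C_1]
      ring
  · intro h
    rw [mem_product] at h
    have := (idx_pos B T hT 0 h.1).1
    omega

theorem notMem_jumps (B : PowerSeries (ZMod p)) (T : ℕ) : p * T ∉ jumps B T := by
  unfold jumps
  rw [mem_filter, mem_Ioo]
  rintro ⟨⟨_, h⟩, _⟩
  exact lt_irrefl _ h

theorem sum_jumps (B : PowerSeries (ZMod p)) (T R : ℕ) (h1 : T ≤ R) (h2 : R < p * T) :
    (∑ s ∈ jumps B T, if s ≤ R then PowerSeries.coeff s B else 0) = ps B R - ps B T := by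
  classical
  rw [ps_eq_sum, ps_eq_sum, ← Finset.sum_Ico_eq_sub _ (by omega : T + 1 ≤ R + 1),
    ← Finset.sum_filter]
  apply Finset.sum_subset
  · intro s hs
    rw [mem_filter] at hs
    unfold jumps at hs
    rw [mem_filter, mem_Ioo] at hs
    rw [mem_Ico]
    omega
  · intro s hs hs2
    rw [mem_Ico] at hs
    by_contra hne
    apply hs2
    rw [mem_filter]
    unfold jumps
    rw [mem_filter, mem_Ioo]
    exact ⟨⟨⟨by omega, by omega⟩, hne⟩, by omega⟩

theorem ps_win (B : PowerSeries (ZMod p)) (T R : ℕ) (hT : 0 < T) :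
    ps (win B T id : PowerSeries (ZMod p)) R =
      (if p * T ≤ R then -(ps B T + ps B (p * T - 1)) else 0) +
        ∑ s ∈ jumps B T, if s ≤ R then PowerSeries.coeff s B else 0 := by
  have hpT : 0 < p * T := Nat.mul_pos hpF.out.pos hT
  unfold win
  rw [ps_msum]
  unfold idx
  rw [Finset.sum_insert (notMem_jumps B T)]
  congr 1
  · simp only [wt, id, if_true, if_neg hpT.ne']
  · apply Finset.sum_congr rfl
    intro s hs
    have h1 : s ≠ p * T := fun h => notMem_jumps B T (h ▸ hs)
    have h2 : s ≠ 0 := by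
      have := (idx_pos B T hT s (mem_insert_of_mem hs)).1
      omega
    simp only [wt, if_neg h1, if_neg h2, id]

theorem ps_win_lt (B : PowerSeries (ZMod p)) (T R : ℕ) (hT : 0 < T) (hR : R < T) :
    ps (win B T id : PowerSeries (ZMod p)) R = 0 := by
  rw [ps_win B T R hT]
  have hpT : T ≤ p * T := Nat.le_mul_of_pos_left T hpF.out.pos
  rw [if_neg (by omega), zero_add]
  apply Finset.sum_eq_zero
  intro s hs
  have := (idx_pos B T hT s (mem_insert_of_mem hs)).1
  rw [if_neg (by omega)]

theorem ps_win_mid (B : PowerSeries (ZMod p)) (T R : ℕ) (hT : 0 < T) (hR : T ≤ R)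
    (hR2 : R < p * T) :
    ps (win B T id : PowerSeries (ZMod p)) R = ps B R - ps B T := by
  rw [ps_win B T R hT, if_neg (by omega), zero_add, sum_jumps B T R hR hR2]

theorem ps_win_ge (B : PowerSeries (ZMod p)) (T R : ℕ) (hT : 0 < T) (hR : p * T ≤ R) :
    ps (win B T id : PowerSeries (ZMod p)) R = -2 * ps B T := by
  rw [ps_win B T R hT, if_pos hR]
  have hpT : T < p * T := by
    calc T = 1 * T := by ring
      _ < p * T := Nat.mul_lt_mul_of_pos_right hpF.out.one_lt hT
  have h1 : (∑ s ∈ jumps B T, if s ≤ R then PowerSeries.coeff s B else 0) =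
      ∑ s ∈ jumps B T, if s ≤ p * T - 1 then PowerSeries.coeff s B else 0 := by
    apply Finset.sum_congr rfl
    intro s hs
    have h2 := (idx_pos B T hT s (mem_insert_of_mem hs)).2
    have h3 : s ≠ p * T := fun h => notMem_jumps B T (h ▸ hs)
    rw [if_pos (by omega), if_pos (by omega)]
  rw [h1, sum_jumps B T (p * T - 1) (by omega) (by omega)]
  ring

theorem ps_cont (B : PowerSeries (ZMod p)) (T : ℕ) (hT : 0 < T) (P : ℕ → ℕ) (hP0 : P 0 = 0)
    (L R : ℕ) :
    ps (cont B T P L : PowerSeries (ZMod p)) R = ps B T +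
      ∑ l ∈ range L, (-1) ^ l * ps (win B T P : PowerSeries (ZMod p)) (R / p ^ l) := by
  rw [cont_eq B T hT P hP0 L]
  have h : ((C (ps B T) + ∑ l ∈ range L, (-1) ^ l * win B T P ^ p ^ l : (ZMod p)[X]) :
      PowerSeries (ZMod p)) = PowerSeries.C (ps B T) +
      ∑ l ∈ range L, PowerSeries.C ((-1) ^ l) * (win B T P : PowerSeries (ZMod p)) ^ p ^ l := by
    rw [Polynomial.coe_add, Polynomial.coe_C]
    congr 1
    have h1 := map_sum (Polynomial.coeToPowerSeries.ringHom (R := ZMod p))
      (fun l => (-1) ^ l * win B T P ^ p ^ l) (range L)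
    rw [Polynomial.coeToPowerSeries.ringHom_apply] at h1
    rw [h1]
    apply Finset.sum_congr rfl
    intro l _
    rw [Polynomial.coeToPowerSeries.ringHom_apply]
    push_cast
    simp
  rw [h, ps_add, ps_C, ps_sum]
  congr 1
  apply Finset.sum_congr rfl
  intro l _
  rw [ps_C_mul, ps_pow_char_pow]

theorem cont_eq_of_level (B : PowerSeries (ZMod p)) (T : ℕ) (hT : 0 < T) (L R k : ℕ)
    (hk : k < L) (h1 : p ^ k * T ≤ R) (h2 : R < p ^ (k + 1) * T) :
    ps (cont B T id L : PowerSeries (ZMod p)) R = (-1) ^ k * ps B (R / p ^ k) := by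
  have hp0 : 0 < p := hpF.out.pos
  rw [ps_cont B T hT id rfl L R]
  have h3 : ∑ l ∈ range L, (-1) ^ l * ps (win B T id : PowerSeries (ZMod p)) (R / p ^ l) =
      ∑ l ∈ range (k + 1), (-1) ^ l * ps (win B T id : PowerSeries (ZMod p)) (R / p ^ l) := by
    symm
    apply Finset.sum_subset (range_subset_range.2 (by omega))
    intro l _ hl
    rw [mem_range, not_lt] at hl
    rw [ps_win_lt B T _ hT, mul_zero]
    rw [Nat.div_lt_iff_lt_mul (pow_pos hp0 l)]
    calc R < p ^ (k + 1) * T := h2
      _ ≤ p ^ l * T := Nat.mul_le_mul_right _ (Nat.pow_le_pow_right hp0 hl)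
      _ = T * p ^ l := by ring
  have h4 : ∀ l ∈ range k, (-1) ^ l * ps (win B T id : PowerSeries (ZMod p)) (R / p ^ l) =
      (-1) ^ l * (-2 * ps B T) := by
    intro l hl
    rw [mem_range] at hl
    rw [ps_win_ge B T _ hT]
    rw [Nat.le_div_iff_mul_le (pow_pos hp0 l)]
    calc p * T * p ^ l = p ^ (l + 1) * T := by ring
      _ ≤ p ^ k * T := Nat.mul_le_mul_right _ (Nat.pow_le_pow_right hp0 hl)
      _ ≤ R := h1
  have h5 : ps (win B T id : PowerSeries (ZMod p)) (R / p ^ k) = ps B (R / p ^ k) - ps B T := by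
    apply ps_win_mid B T _ hT
    · rw [Nat.le_div_iff_mul_le (pow_pos hp0 k)]
      calc T * p ^ k = p ^ k * T := by ring
        _ ≤ R := h1
    · rw [Nat.div_lt_iff_lt_mul (pow_pos hp0 k)]
      calc R < p ^ (k + 1) * T := h2
        _ = p * T * p ^ k := by ring
  have h6 : ∀ k : ℕ, 2 * ∑ l ∈ range k, (-1 : ZMod p) ^ l = 1 - (-1) ^ k := by
    intro k
    induction k with
    | zero => simp
    | succ k ih => rw [Finset.sum_range_succ, mul_add, ih]; ring
  rw [h3, Finset.sum_range_succ, Finset.sum_congr rfl h4, h5, ← Finset.sum_mul]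
  linear_combination (-ps B T) * h6 k

theorem chain (B : PowerSeries (ZMod p)) (N : ℕ) (E : Finset ℕ)
    (hgood : ∀ R, R < N → R ∉ E → ps B (R / p) = - ps B R) (k R : ℕ) (hR : R < N)
    (h : ∀ i, i < k → R / p ^ i ∉ E) : ps B (R / p ^ k) = (-1) ^ k * ps B R := by
  induction k with
  | zero => simp
  | succ k ih =>
    rw [pow_succ, ← Nat.div_div_eq_div_mul, hgood (R / p ^ k)
      (lt_of_le_of_lt (Nat.div_le_self _ _) hR) (h k (by omega)), ih (fun i hi => h i (by omega))]
    ring

/-- The places where the continuation differs from the original. -/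
def diffs (B : PowerSeries (ZMod p)) (T L N : ℕ) : Finset ℕ :=
  open Classical in {R ∈ range N | ps (cont B T id L : PowerSeries (ZMod p)) R ≠ ps B R}

theorem card_fiber (q N t : ℕ) (hq : 0 < q) :
    (filter (fun R => R / q = t) (range N)).card ≤ q := by
  have h1 : filter (fun R => R / q = t) (range N) ⊆ Ico (q * t) (q * t + q) := by
    intro R hR
    rw [mem_filter] at hR
    rw [mem_Ico, ← hR.2]
    constructor
    · exact Nat.mul_div_le R q
    · have := Nat.lt_mul_div_succ R hq
      calc R < q * (R / q + 1) := this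
        _ = _ := by ring
  refine le_trans (card_le_card h1) ?_
  rw [Nat.card_Ico]; omega

theorem card_div_mem (q N : ℕ) (hq : 0 < q) (E : Finset ℕ) :
    (filter (fun R => R / q ∈ E) (range N)).card ≤ q * E.card := by
  classical
  have h1 : filter (fun R => R / q ∈ E) (range N) ⊆
      E.biUnion (fun t => filter (fun R => R / q = t) (range N)) := by
    intro R hR
    rw [mem_filter] at hR
    rw [mem_biUnion]
    exact ⟨R / q, hR.2, by rw [mem_filter]; exact ⟨hR.1, rfl⟩⟩
  refine le_trans (card_le_card h1) (le_trans card_biUnion_le ?_)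
  refine le_trans (Finset.sum_le_sum fun t _ => card_fiber q N t hq) ?_
  rw [Finset.sum_const, smul_eq_mul, mul_comm]

theorem sum_pow_le (j : ℕ) : ∑ i ∈ range (j + 1), p ^ i ≤ 2 * p ^ j := by
  have hp2 : 2 ≤ p := hpF.out.two_le
  induction j with
  | zero => simp
  | succ j ih =>
    rw [Finset.sum_range_succ, pow_succ]
    calc ∑ i ∈ range (j + 1), p ^ i + p ^ j * p ≤ 2 * p ^ j + p ^ j * p := by omega
      _ ≤ p * p ^ j + p ^ j * p := Nat.add_le_add_right (Nat.mul_le_mul_right _ hp2) _
      _ = 2 * (p ^ j * p) := by ring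

theorem card_diffs (B : PowerSeries (ZMod p)) (T j N : ℕ) (hT : 0 < T)
    (hN : N ≤ p ^ (j + 2) * T) (E : Finset ℕ)
    (hgood : ∀ R, R < N → R ∉ E → ps B (R / p) = - ps B R) :
    (diffs B T (j + 2) N).card ≤ T + 2 * p ^ j * E.card := by
  classical
  have hp0 : 0 < p := hpF.out.pos
  have h1 : diffs B T (j + 2) N ⊆ range T ∪
      (range (j + 1)).biUnion (fun i => filter (fun R => R / p ^ i ∈ E) (range N)) := by
    intro R hR
    unfold diffs at hR
    rw [mem_filter, mem_range] at hR
    rw [mem_union, mem_range, mem_biUnion]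
    by_contra hcon
    push Not at hcon
    obtain ⟨hRT, hall⟩ := hcon
    apply hR.2
    set k := Nat.log p (R / T) with hk
    have hRT0 : R / T ≠ 0 := by
      have : 1 ≤ R / T := by rw [Nat.le_div_iff_mul_le hT]; omega
      omega
    have hk1 : p ^ k ≤ R / T := Nat.pow_log_le_self p hRT0
    have hk2 : R / T < p ^ (k + 1) := Nat.lt_pow_succ_log_self hpF.out.one_lt _
    rw [Nat.le_div_iff_mul_le hT] at hk1
    rw [Nat.div_lt_iff_lt_mul hT] at hk2
    have hkL : k < j + 2 := by
      have h2 : p ^ k * T < p ^ (j + 2) * T := lt_of_le_of_lt hk1 (lt_of_lt_of_le hR.1 hN)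
      have h3 : p ^ k < p ^ (j + 2) := Nat.lt_of_mul_lt_mul_right h2
      exact (Nat.pow_lt_pow_iff_right hpF.out.one_lt).mp h3
    rw [cont_eq_of_level B T hT (j + 2) R k hkL hk1 hk2,
      chain B N E hgood k R hR.1 (by
        intro i hi hiE
        have := hall i (by rw [mem_range]; omega)
        apply this
        rw [mem_filter, mem_range]
        exact ⟨hR.1, hiE⟩), ← mul_assoc, ← mul_pow]
    simp
  refine le_trans (card_le_card h1) (le_trans (card_union_le _ _) ?_)
  rw [card_range]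
  refine Nat.add_le_add_left (le_trans card_biUnion_le ?_) _
  refine le_trans (Finset.sum_le_sum fun i _ => card_div_mem (p ^ i) N (pow_pos hp0 i) E) ?_
  rw [← Finset.sum_mul]
  exact Nat.mul_le_mul_right _ (sum_pow_le j)

end

end Pool.Agent.K7.H59.DC
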