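import Mathlib
import Pool.Agent.TH423.SH.PAIP

/-!
A lower bound for the number of primes of a residue class in an interval `(P/2, P]`.
-/

namespace Pool.Agent.K7.H59.DC

open Finset

noncomputable section

/-- The primes `q ≡ a` modulo `m` with `P/2 < q ≤ P`. -/
def prs (m a P : ℕ) : Finset ℕ :=
  (Ioc ((P + 1) / 2) P).filter fun q => q.Prime ∧ q % m = a % m

theorem prs_card (m a : ℕ) (hm : 1 ≤ m) (ha : a.Coprime m) :
    ∃ c : ℝ, 0 < c ∧ ∃ P₀ : ℕ, ∀ P : ℕ, P₀ ≤ P → c * (P / Real.log P) ≤ ((prs m a P).card : ℝ) := by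
  obtain ⟨x₀, hx₀⟩ := Pool.Agent.TH423.SH.pai m hm (1 / 2) (1 / 4) (by norm_num) (by norm_num)
  have hφ : (0 : ℝ) < (Nat.totient m : ℝ) := by
    exact_mod_cast Nat.totient_pos.2 (by omega : 0 < m)
  refine ⟨1 / (8 * Nat.totient m), by positivity, max 4 (Nat.ceil x₀), ?_⟩
  intro P hP
  have hP4 : 4 ≤ P := le_trans (le_max_left _ _) hP
  have hPx : x₀ ≤ P := by
    have h1 : Nat.ceil x₀ ≤ P := le_trans (le_max_right _ _) hP
    exact le_trans (Nat.le_ceil x₀) (by exact_mod_cast h1)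
  have hP4R : (4 : ℝ) ≤ P := by exact_mod_cast hP4
  have hu1 : (P : ℝ) ≤ 2 * ((P + 1) / 2 : ℕ) := by
    have : P ≤ 2 * ((P + 1) / 2) := by omega
    exact_mod_cast this
  have hu2 : 2 * (((P + 1) / 2 : ℕ) : ℝ) ≤ P + 1 := by
    have : 2 * ((P + 1) / 2) ≤ P + 1 := by omega
    exact_mod_cast this
  have h := hx₀ P hPx ((P + 1) / 2) P a (by linarith) (by linarith) (by linarith) ha
  have hlog : 0 < Real.log P := Real.log_pos (by linarith)
  have h2 := (abs_le.mp h).1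
  set U : ℝ := (((P + 1) / 2 : ℕ) : ℝ) with hU
  have h3 : (P : ℝ) / 4 ≤ P - U := by linarith
  have h4 : (P : ℝ) / 4 / (Nat.totient m * Real.log P) ≤ (P - U) / (Nat.totient m * Real.log P) :=
    div_le_div_of_nonneg_right h3 (by positivity)
  have h5 : 1 / (8 * (Nat.totient m : ℝ)) * (P / Real.log P) =
      1 / 2 * ((P : ℝ) / 4 / (Nat.totient m * Real.log P)) := by
    field_simp
    norm_num
  rw [h5]
  unfold prs
  linarith

end

end Pool.Agent.K7.H59.DC
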