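import Pool.Agent.K7.H59.DC.Assemble
import Pool.Agent.K7.H59.DC.Primes

/-!
The lower bound `c (log n)^3 / (log log n)^4` for the number of nonzero terms.
-/

namespace Pool.Agent.K7.H59.DC

open Finset

noncomputable section

theorem cubic_eventually (b : ℕ) (hb : 2 ≤ b) (C : ℕ)
    (ε : ℕ → ℤ) (hε : ∀ k, |ε k| ≤ C) (x : ℝ)
    (hx : HasSum (fun k => (ε k : ℝ) / (b : ℝ) ^ k) x) (D : ℤ) (hD : x ^ 2 = D)
    (m a p₀ : ℕ) (hm : 1 ≤ m) (ha : a.Coprime m)
    (hn : ∀ p : ℕ, p.Prime → p % m = a % m → p₀ < p →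
      p ≠ 2 ∧ (b : ZMod p) ≠ 0 ∧ (D : ZMod p) ^ ((p - 1) / 2) = -1) :
    ∃ c : ℝ, 0 < c ∧ ∀ᶠ i : ℕ in Filter.atTop,
      c * ((i : ℝ) ^ 3 / Real.log i ^ 4) ≤ (cnt ε (2 ^ (122 * i)) : ℝ) := by
  obtain ⟨c₀, hc₀, P₀, hP₀⟩ := prs_card m a hm ha
  set M := P₀ + 2 * p₀ + 2 with hM
  have e1 : ∀ᶠ i : ℕ in Filter.atTop, 2 * C ^ 2 < 2 ^ i := by
    filter_upwards [eventually_poly_lt_pow (2 * (C : ℝ) ^ 2) 0 2 (by norm_num)] with i hi
    rw [pow_zero, mul_one] at hi
    exact_mod_cast hi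
  have e2 : ∀ᶠ i : ℕ in Filter.atTop, 24 * (M : ℝ) * Real.log i ≤ i := by
    have h1 := Real.isLittleO_log_id_atTop.bound (show (0 : ℝ) < 1 / (24 * M) by positivity)
    have h2 := tendsto_natCast_atTop_atTop (R := ℝ) |>.eventually h1
    filter_upwards [h2, Filter.eventually_ge_atTop 1] with i hi hi1
    have h3 : (0 : ℝ) ≤ i := by positivity
    rw [Real.norm_eq_abs, Real.norm_eq_abs, id, abs_of_nonneg h3] at hi
    have h4 := le_trans (le_abs_self (Real.log i)) hi
    rw [one_div, inv_mul_eq_div, le_div_iff₀ (by positivity)] at h4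
    linarith
  refine ⟨min c₀ 1 / 200000, by positivity, ?_⟩
  filter_upwards [e1, e2, Filter.eventually_ge_atTop 64] with i hi1 hi2 hi64
  have hiR : (64 : ℝ) ≤ i := by exact_mod_cast hi64
  have hl1 : 1 ≤ Real.log i := by
    rw [Real.le_log_iff_exp_le (by positivity)]
    have := Real.exp_one_lt_d9
    linarith
  have hc1 : min c₀ 1 ≤ c₀ := min_le_left _ _
  have hc2 : min c₀ 1 ≤ 1 := min_le_right _ _
  have hc3 : 0 < min c₀ 1 := by positivity
  set l := Real.log i with hl
  by_cases hK : cnt ε (2 ^ (122 * i)) + 1 ≤ i ^ 3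
  · set g := Nat.log 2 i + 1 with hg
    have hgi : i < 2 ^ g := Nat.lt_pow_succ_log_self (by norm_num) i
    have hgl : (g : ℝ) ≤ 3 * l := by
      have h1 : 2 ^ (Nat.log 2 i) ≤ i := Nat.pow_log_le_self 2 (by omega)
      have h2 : (2 : ℝ) ^ (Nat.log 2 i) ≤ i := by exact_mod_cast h1
      have h3 := Real.log_le_log (by positivity) h2
      rw [Real.log_pow] at h3
      have h4 := Real.log_two_gt_d9
      have h5 : (g : ℝ) = Nat.log 2 i + 1 := by rw [hg]; push_cast; ring
      rw [h5]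
      have h6 : (0 : ℝ) ≤ Nat.log 2 i := by positivity
      nlinarith
    have hg1 : 1 ≤ g := by omega
    have hg0 : (0 : ℝ) < g := by exact_mod_cast hg1
    have hgM : (8 * g * M : ℕ) ≤ i := by
      have h1 : (8 * (g : ℝ) * M) ≤ i := by
        refine le_trans ?_ hi2
        have : (0 : ℝ) ≤ M := by positivity
        nlinarith
      exact_mod_cast h1
    set n := i / (4 * g) with hndef
    set L := i / g with hLdef
    set P := i / (8 * g) with hPdef
    have hPM : M ≤ P := by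
      rw [hPdef, Nat.le_div_iff_mul_le (by omega)]
      calc M * (8 * g) = 8 * g * M := by ring
        _ ≤ i := hgM
    have hn' : 4 * g * n ≤ i := Nat.mul_div_le i (4 * g)
    have hL' : g * L ≤ i := Nat.mul_div_le i g
    have hP' : 8 * g * P ≤ i := Nat.mul_div_le i (8 * g)
    have hmain := all_lines b hb C ε hε x hx D hD i g n L hi64 hi1 hgi hg1 hn' hL' hK
      (prs m a P) (by
        intro p hp
        unfold prs at hp
        rw [mem_filter, mem_Ioc] at hp
        obtain ⟨h1, h2, h3⟩ := hn p hp.2.1 hp.2.2 (by omega)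
        refine ⟨hp.2.1, h1, h2, h3, ?_⟩
        calc 8 * g * p ≤ 8 * g * P := Nat.mul_le_mul_left _ hp.1.2
          _ ≤ i := hP')
    set y : ℝ := i / g with hy
    have hyg : y * g = i := by rw [hy]; field_simp
    have hy16 : 16 ≤ y := by
      rw [hy, le_div_iff₀ hg0]
      have h1 : 16 * g ≤ i := by
        calc 16 * g = 8 * g * 2 := by ring
          _ ≤ 8 * g * M := Nat.mul_le_mul_left _ (by omega)
          _ ≤ i := hgM
      exact_mod_cast h1
    have hnR : y / 8 ≤ n := by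
      have h1 : i < 4 * g * (n + 1) := Nat.lt_mul_div_succ i (by omega)
      have h2 : (i : ℝ) < 4 * g * (n + 1) := by exact_mod_cast h1
      have h3 : y < 4 * (n + 1) := by
        rw [hy, div_lt_iff₀ hg0]; linarith
      linarith
    have hLR : y / 2 ≤ L := by
      have h1 : i < g * (L + 1) := Nat.lt_mul_div_succ i (by omega)
      have h2 : (i : ℝ) < g * (L + 1) := by exact_mod_cast h1
      have h3 : y < L + 1 := by
        rw [hy, div_lt_iff₀ hg0]; linarith
      linarith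
    have hPR : y / 16 ≤ P := by
      have h1 : i < 8 * g * (P + 1) := Nat.lt_mul_div_succ i (by omega)
      have h2 : (i : ℝ) < 8 * g * (P + 1) := by exact_mod_cast h1
      have h3 : y < 8 * (P + 1) := by
        rw [hy, div_lt_iff₀ hg0]; linarith
      linarith
    have hyl : i / (3 * l) ≤ y := by
      rw [hy]
      exact div_le_div_of_nonneg_left (by positivity) hg0 hgl
    have hyl3 : (i : ℝ) ^ 3 / (27 * l ^ 3) ≤ y ^ 3 := by
      have h1 := pow_le_pow_left₀ (by positivity) hyl 3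
      have h2 : ((i : ℝ) / (3 * l)) ^ 3 = (i : ℝ) ^ 3 / (27 * l ^ 3) := by
        rw [div_pow, mul_pow]; norm_num
      rwa [h2] at h1
    have hy0 : 0 < y := by linarith
    have hl0 : 0 < l := by linarith
    set K : ℝ := (cnt ε (2 ^ (122 * i)) : ℝ) with hKdef
    rcases hmain with h | h
    · have h1 : (n : ℝ) * (L * (prs m a P).card) ≤ 10 * K := by
        rw [hKdef]; exact_mod_cast h
      have h2 : c₀ * (y / 16 / l) ≤ (prs m a P).card := by
        refine le_trans ?_ (hP₀ P (by omega))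
        apply mul_le_mul_of_nonneg_left _ hc₀.le
        have hP2 : (2 : ℝ) ≤ P := by
          have : 2 ≤ P := by omega
          exact_mod_cast this
        have hPi : (P : ℝ) ≤ i := by
          have : P ≤ i := Nat.div_le_self _ _
          exact_mod_cast this
        exact div_le_div₀ (by positivity) hPR (Real.log_pos (by linarith))
          (Real.log_le_log (by linarith) hPi)
      have h3 : y / 8 * (y / 2 * (c₀ * (y / 16 / l))) ≤ 10 * K := by
        refine le_trans ?_ h1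
        gcongr
      have h4 : y / 8 * (y / 2 * (c₀ * (y / 16 / l))) = c₀ / 256 * (y ^ 3 / l) := by
        field_simp; norm_num
      rw [h4] at h3
      have h5 : (i : ℝ) ^ 3 / (27 * l ^ 3) / l ≤ y ^ 3 / l := by gcongr
      have h6 : (i : ℝ) ^ 3 / (27 * l ^ 3) / l = 1 / 27 * ((i : ℝ) ^ 3 / l ^ 4) := by
        field_simp
      rw [h6] at h5
      have h7 : 0 ≤ (i : ℝ) ^ 3 / l ^ 4 := by positivity
      have h8 : c₀ / 256 * (1 / 27 * ((i : ℝ) ^ 3 / l ^ 4)) ≤ c₀ / 256 * (y ^ 3 / l) :=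
        mul_le_mul_of_nonneg_left h5 (by positivity)
      have h9 : min c₀ 1 / 200000 * ((i : ℝ) ^ 3 / l ^ 4) ≤
          c₀ / 69120 * ((i : ℝ) ^ 3 / l ^ 4) := by
        apply mul_le_mul_of_nonneg_right _ h7
        linarith
      linarith
    · have h1 : (n : ℝ) ^ 3 ≤ 8 * K := by
        rw [hKdef]; exact_mod_cast h
      have h2 : (y / 8) ^ 3 ≤ 8 * K := by
        refine le_trans ?_ h1
        gcongr
      have h3 : (y / 8) ^ 3 = y ^ 3 / 512 := by rw [div_pow]; norm_num
      rw [h3] at h2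
      have h4 : (i : ℝ) ^ 3 / l ^ 4 ≤ (i : ℝ) ^ 3 / l ^ 3 :=
        div_le_div_of_nonneg_left (by positivity) (by positivity)
          (pow_le_pow_right₀ hl1 (by norm_num))
      have h5 : (i : ℝ) ^ 3 / (27 * l ^ 3) = 1 / 27 * ((i : ℝ) ^ 3 / l ^ 3) := by
        field_simp
      rw [h5] at hyl3
      have h7 : 0 ≤ (i : ℝ) ^ 3 / l ^ 4 := by positivity
      have h9 : min c₀ 1 / 200000 * ((i : ℝ) ^ 3 / l ^ 4) ≤
          1 / 200000 * ((i : ℝ) ^ 3 / l ^ 4) := by
        apply mul_le_mul_of_nonneg_right _ h7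
        linarith
      linarith
  · push Not at hK
    have h1 : i ^ 3 ≤ cnt ε (2 ^ (122 * i)) := by omega
    have h2 : (i : ℝ) ^ 3 ≤ cnt ε (2 ^ (122 * i)) := by exact_mod_cast h1
    refine le_trans ?_ h2
    have h3 : (i : ℝ) ^ 3 / l ^ 4 ≤ (i : ℝ) ^ 3 :=
      div_le_self (by positivity) (one_le_pow₀ hl1)
    have h4 : 0 ≤ (i : ℝ) ^ 3 / l ^ 4 := by positivity
    have h9 : min c₀ 1 / 200000 * ((i : ℝ) ^ 3 / l ^ 4) ≤ 1 * ((i : ℝ) ^ 3 / l ^ 4) := by
      apply mul_le_mul_of_nonneg_right _ h4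
      linarith
    linarith

/-- If a bounded sequence of integers `ε` satisfies `∑ ε_k b^(-k) = x` with `x ^ 2 = D` an
integer, and `D` is a nonresidue modulo all large primes of one residue class, then `ε` has at
least `c (log n)^3 / (log log n)^4` nonzero terms before `n`, for all large `n`. -/
theorem cubic_bound (b : ℕ) (hb : 2 ≤ b) (C : ℕ)
    (ε : ℕ → ℤ) (hε : ∀ k, |ε k| ≤ C) (x : ℝ)
    (hx : HasSum (fun k => (ε k : ℝ) / (b : ℝ) ^ k) x) (D : ℤ) (hD : x ^ 2 = D)
    (m a p₀ : ℕ) (hm : 1 ≤ m) (ha : a.Coprime m)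
    (hn : ∀ p : ℕ, p.Prime → p % m = a % m → p₀ < p →
      p ≠ 2 ∧ (b : ZMod p) ≠ 0 ∧ (D : ZMod p) ^ ((p - 1) / 2) = -1) :
    ∃ c : ℝ, 0 < c ∧ ∀ᶠ n : ℕ in Filter.atTop,
      c * (Real.log n ^ 3 / Real.log (Real.log n) ^ 4) ≤ (cnt ε n : ℝ) := by
  obtain ⟨c, hc, hev⟩ := cubic_eventually b hb C ε hε x hx D hD m a p₀ hm ha hn
  have hlogN : Filter.Tendsto (fun n : ℕ => Real.log n) Filter.atTop Filter.atTop :=
    Real.tendsto_log_atTop.comp tendsto_natCast_atTop_atTop
  have hi : Filter.Tendsto (fun n : ℕ => Nat.log 2 n / 122) Filter.atTop Filter.atTop := by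
    have h1 : Filter.Tendsto (fun n : ℕ => Nat.log 2 n) Filter.atTop Filter.atTop := by
      apply Filter.tendsto_atTop.2
      intro k
      filter_upwards [Filter.eventually_ge_atTop (2 ^ k)] with n hn
      exact Nat.le_log_of_pow_le (by norm_num) hn
    apply Filter.tendsto_atTop.2
    intro k
    filter_upwards [Filter.tendsto_atTop.1 h1 (122 * k)] with n hn
    omega
  refine ⟨c / 244 ^ 3, by positivity, ?_⟩
  filter_upwards [hi.eventually hev, hlogN.eventually_ge_atTop 1,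
    hi.eventually_ge_atTop 3] with n h1 h2 h3
  set i := Nat.log 2 n / 122 with hidef
  have hn0 : n ≠ 0 := by
    rintro rfl
    simp at h2
    linarith
  have hL1 : 2 ^ (122 * i) ≤ n := by
    calc 2 ^ (122 * i) ≤ 2 ^ (Nat.log 2 n) := Nat.pow_le_pow_right (by norm_num) (by omega)
      _ ≤ n := Nat.pow_log_le_self 2 hn0
  have hL2 : n < 2 ^ (Nat.log 2 n + 1) := Nat.lt_pow_succ_log_self (by norm_num) n
  have hlog2 := Real.log_two_gt_d9
  have hlog2' := Real.log_two_lt_d9
  have hL3 : Real.log n ≤ (Nat.log 2 n + 1) * Real.log 2 := by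
    have h4 : (n : ℝ) ≤ (2 : ℝ) ^ (Nat.log 2 n + 1) := by exact_mod_cast hL2.le
    have h5 := Real.log_le_log (by positivity) h4
    rw [Real.log_pow] at h5
    push_cast at h5
    exact h5
  have hL4 : (Nat.log 2 n : ℝ) ≤ 122 * i + 121 := by
    have : Nat.log 2 n ≤ 122 * i + 121 := by omega
    exact_mod_cast this
  have hi3 : (3 : ℝ) ≤ i := by exact_mod_cast h3
  have hlow : Real.log n ≤ 244 * i := by
    have h4 : Real.log n ≤ (122 * i + 122) * Real.log 2 := by nlinarith
    nlinarith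
  have hup : (i : ℝ) ≤ Real.log n := by
    have h4 : (2 : ℝ) ^ (122 * i) ≤ n := by exact_mod_cast hL1
    have h5 := Real.log_le_log (by positivity) h4
    rw [Real.log_pow] at h5
    push_cast at h5
    nlinarith
  have hlogi : 0 < Real.log i := Real.log_pos (by linarith)
  have hlogn0 : 0 ≤ Real.log n := by linarith
  have hll : Real.log i ≤ Real.log (Real.log n) := Real.log_le_log (by linarith) hup
  have hmono : (cnt ε (2 ^ (122 * i)) : ℝ) ≤ cnt ε n := by exact_mod_cast cnt_mono ε hL1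
  refine le_trans ?_ (le_trans h1 hmono)
  have hsq : Real.log n ^ 3 ≤ 244 ^ 3 * (i : ℝ) ^ 3 := by
    rw [← mul_pow]
    exact pow_le_pow_left₀ hlogn0 hlow 3
  have h6 : Real.log n ^ 3 / Real.log (Real.log n) ^ 4 ≤
      (244 ^ 3 * (i : ℝ) ^ 3) / Real.log i ^ 4 :=
    div_le_div₀ (by positivity) hsq (by positivity) (pow_le_pow_left₀ hlogi.le hll 4)
  calc c / 244 ^ 3 * (Real.log n ^ 3 / Real.log (Real.log n) ^ 4)
      ≤ c / 244 ^ 3 * ((244 ^ 3 * (i : ℝ) ^ 3) / Real.log i ^ 4) :=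
        mul_le_mul_of_nonneg_left h6 (by positivity)
    _ = c * ((i : ℝ) ^ 3 / Real.log i ^ 4) := by
        field_simp

end

end Pool.Agent.K7.H59.DC
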