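import Pool.Agent.K7.H59.DC.KeyTwo

/-!
Events: blocks of a window in which the partial sums change between places whose whole chain of
divisions by `p` is good.  Each event gives a geometric progression of nonzero places.
-/

namespace Pool.Agent.K7.H59.DC

open Finset Polynomial

noncomputable section

variable {p : ℕ} [hpF : Fact p.Prime]

/-- The places with a bad place in their chain of length `k`. -/
def chainBad (p : ℕ) (E : Finset ℕ) (k N : ℕ) : Finset ℕ :=
  (range k).biUnion fun i => filter (fun R => R / p ^ i ∈ E) (range N)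

theorem card_chainBad (E : Finset ℕ) (k N : ℕ) :
    (chainBad p E k N).card ≤ 2 * p ^ k * E.card := by
  have hp0 : 0 < p := hpF.out.pos
  unfold chainBad
  refine le_trans card_biUnion_le ?_
  refine le_trans (Finset.sum_le_sum fun i _ => card_div_mem (p ^ i) N (pow_pos hp0 i) E) ?_
  rw [← Finset.sum_mul]
  apply Nat.mul_le_mul_right
  rcases k with _ | k
  · simp
  · refine le_trans (sum_pow_le k) (Nat.mul_le_mul_left _ ?_)
    exact Nat.pow_le_pow_right hp0 (by omega)

omit hpF in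
theorem not_mem_chainBad {E : Finset ℕ} {k N R : ℕ} (hR : R < N) (h : R ∉ chainBad p E k N) :
    ∀ i, i < k → R / p ^ i ∉ E := by
  intro i hi hmem
  apply h
  unfold chainBad
  rw [mem_biUnion]
  exact ⟨i, mem_range.2 hi, by rw [mem_filter, mem_range]; exact ⟨hR, hmem⟩⟩

/-- The series whose partial sums are a given function. -/
def ofSums (e : ℕ → ZMod p) : PowerSeries (ZMod p) :=
  PowerSeries.mk fun R => e R - if R = 0 then 0 else e (R - 1)

theorem ps_ofSums (e : ℕ → ZMod p) (R : ℕ) : ps (ofSums e) R = e R := by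
  rw [ps_eq_sum]
  unfold ofSums
  simp only [PowerSeries.coeff_mk]
  induction R with
  | zero => simp
  | succ R ih =>
    rw [Finset.sum_range_succ, ih, if_neg (by omega)]
    simp

theorem exists_rho (U : Finset ℕ) (w N : ℕ) (hU : U.card < w) :
    ∃ ρ : ℕ → ℕ, ∀ l, (l + 1) * w ≤ N → l * w ≤ ρ l ∧ ρ l < (l + 1) * w ∧ ρ l ∉ U := by
  have h : ∀ l, ∃ r, (l + 1) * w ≤ N → l * w ≤ r ∧ r < (l + 1) * w ∧ r ∉ U := by
    intro l
    have h1 : U.card < (Ico (l * w) ((l + 1) * w)).card := by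
      rw [Nat.card_Ico]
      have : (l + 1) * w = l * w + w := by ring
      omega
    obtain ⟨r, hr, hrU⟩ := exists_mem_notMem_of_card_lt_card h1
    rw [mem_Ico] at hr
    exact ⟨r, fun _ => ⟨hr.1, hr.2, hrU⟩⟩
  choose ρ hρ using h
  exact ⟨ρ, hρ⟩

/-- The event blocks of the window `[T, p T)`. -/
def events (B : PowerSeries (ZMod p)) (U : Finset ℕ) (T w N : ℕ) : Finset ℕ :=
  open Classical in {l ∈ range (p * T / w + 1) | T < (l + 1) * w ∧
    ∃ R₁, R₁ < N ∧ ∃ R₂, R₂ < N ∧ R₁ ∉ U ∧ R₂ ∉ U ∧ l * w ≤ R₁ + w ∧ l * w ≤ R₂ + w ∧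
      R₁ < (l + 1) * w ∧ R₂ < (l + 1) * w ∧ ps B R₁ ≠ ps B R₂}

omit hpF in
theorem mem_events {B : PowerSeries (ZMod p)} {U : Finset ℕ} {T w N l : ℕ} :
    l ∈ events B U T w N ↔ l < p * T / w + 1 ∧ T < (l + 1) * w ∧
    ∃ R₁, R₁ < N ∧ ∃ R₂, R₂ < N ∧ R₁ ∉ U ∧ R₂ ∉ U ∧ l * w ≤ R₁ + w ∧ l * w ≤ R₂ + w ∧
      R₁ < (l + 1) * w ∧ R₂ < (l + 1) * w ∧ ps B R₁ ≠ ps B R₂ := by
  unfold events
  rw [mem_filter, mem_range]

/-- The window estimate in terms of the number of events. -/
theorem events_estimate (hp2 : p ≠ 2) (n : ZMod p) (hn : n ^ ((p - 1) / 2) = -1)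
    (B : PowerSeries (ZMod p)) (j N : ℕ) (hN : 3 * p ^ (2 * j + 1) ≤ N) (S E U : Finset ℕ)
    (w : ℕ) (hU : U.card < w) (hwN : p * p ^ j + 2 * w ≤ N) (hS0 : 0 ∈ S)
    (hS : ∀ i, i < N → PowerSeries.coeff i B ≠ 0 → i ∈ S)
    (hgood : ∀ R, R < N → R ∉ E → ps (B ^ 2) R = n ∧ ps B (R / p) = - ps B R)
    (m : ℕ) (hm : (events B U (p ^ j) w N).card ≤ m) :
    p ^ j ≤ (16 * p * (1 + (m + 1) * (j + 2)) ^ 2) ^ (m + 1) *
      (S.card * (1 + 2 * E.card + 2 * p * ((m + 1) * w))) := by
  classical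
  have hw0 : 0 < w := by omega
  have hp0 : 0 < p := hpF.out.pos
  set T := p ^ j with hT
  obtain ⟨ρ, hρ⟩ := exists_rho U w N hU
  set e : ℕ → ZMod p := fun R => ps B (ρ (R / w)) with he
  set A₀ := ofSums e with hA₀
  have hblock : ∀ R, R < p * T → (R / w + 1) * w ≤ N := by
    intro R hR
    have h1 : R / w * w ≤ R := Nat.div_mul_le_self R w
    have h2 : (R / w + 1) * w = R / w * w + w := by ring
    omega
  -- the jumps of the coarse function
  have hjumps : (jumps A₀ T).card ≤ m := by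
    refine le_trans ?_ hm
    have hsub : ∀ s ∈ jumps A₀ T, s / w ∈ events B U T w N ∧ s / w * w = s := by
      intro s hs
      unfold jumps at hs
      rw [mem_filter, mem_Ioo] at hs
      obtain ⟨⟨hs1, hs2⟩, hs3⟩ := hs
      rw [hA₀, ofSums, PowerSeries.coeff_mk, if_neg (by omega)] at hs3
      have hne : ps B (ρ (s / w)) ≠ ps B (ρ ((s - 1) / w)) := sub_ne_zero.1 hs3
      have hdne : s / w ≠ (s - 1) / w := fun h => hne (by rw [h])
      have hdvd : w ∣ s := by
        by_contra hnd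
        apply hdne
        have h1 : (s - 1) / w = s / w := by
          have h2 : s % w ≠ 0 := fun h => hnd (Nat.dvd_of_mod_eq_zero h)
          have h3 := Nat.div_add_mod s w
          have h4 : s - 1 = w * (s / w) + (s % w - 1) := by omega
          rw [h4, Nat.mul_add_div hw0]
          have h5 : s % w < w := Nat.mod_lt _ hw0
          rw [Nat.div_eq_of_lt (by omega : s % w - 1 < w), add_zero]
        exact h1.symm
      have hsw : s / w * w = s := Nat.div_mul_cancel hdvd
      have hl1 : 1 ≤ s / w := by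
        rw [Nat.le_div_iff_mul_le hw0]
        have := Nat.le_of_dvd (by omega) hdvd
        omega
      have hpred : (s - 1) / w = s / w - 1 := by
        have h4 : s - 1 = w * (s / w - 1) + (w - 1) := by
          have : w * (s / w - 1) = w * (s / w) - w := by
            rw [Nat.mul_sub, mul_one]
          have h5 : w * (s / w) = s := by rw [mul_comm]; exact hsw
          have h6 : w ≤ s := Nat.le_of_dvd (by omega) hdvd
          omega
        rw [h4, Nat.mul_add_div hw0, Nat.div_eq_of_lt (by omega : w - 1 < w), add_zero]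
      refine ⟨?_, hsw⟩
      obtain ⟨a1, a2, a3⟩ := hρ (s / w) (hblock s hs2)
      obtain ⟨b1, b2, b3⟩ := hρ ((s - 1) / w) (hblock (s - 1) (by omega))
      rw [mem_events]
      have hlw : (s / w + 1) * w = s + w := by rw [Nat.add_mul, hsw, one_mul]
      have hlw2 : ((s - 1) / w + 1) * w = s := by rw [hpred, Nat.sub_add_cancel hl1, hsw]
      refine ⟨?_, ?_, ρ (s / w), ?_, ρ ((s - 1) / w), ?_, a3, b3, ?_, ?_, a2, ?_, hne⟩
      · have : s / w ≤ p * T / w := Nat.div_le_div_right hs2.le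
        omega
      · rw [hlw]; omega
      · have := hblock s hs2; omega
      · have := hblock (s - 1) (by omega); omega
      · omega
      · have h7 : (s - 1) / w * w + w = s := by
          have h8 := hlw2
          rw [Nat.add_mul, one_mul] at h8
          exact h8
        omega
      · rw [hlw]; omega
    have hcard : ((jumps A₀ T).image fun s => s / w).card ≤ (events B U T w N).card := by
      apply card_le_card
      intro l hl
      rw [mem_image] at hl
      obtain ⟨s, hs, rfl⟩ := hl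
      exact (hsub s hs).1
    rwa [card_image_of_injOn] at hcard
    intro s hs s' hs' hss
    simp only at hss
    rw [← (hsub s hs).2, ← (hsub s' hs').2, hss]
  -- the mismatches
  set W0 : Finset ℕ := U ∪ (events B U T w N).biUnion fun l => Ico (l * w) ((l + 1) * w) with hW0
  have hW0card : W0.card ≤ (m + 1) * w := by
    rw [hW0]
    refine le_trans (card_union_le _ _) ?_
    have h1 : ((events B U T w N).biUnion fun l => Ico (l * w) ((l + 1) * w)).card ≤ m * w := by
      refine le_trans card_biUnion_le ?_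
      have h2 : ∀ l ∈ events B U T w N, (Ico (l * w) ((l + 1) * w)).card = w := by
        intro l _
        rw [Nat.card_Ico]
        have : (l + 1) * w = l * w + w := by ring
        omega
      rw [Finset.sum_congr rfl h2, Finset.sum_const, smul_eq_mul]
      exact Nat.mul_le_mul_right _ hm
    calc U.card + _ ≤ w + m * w := Nat.add_le_add hU.le h1
      _ = (m + 1) * w := by ring
  have hmatch : ∀ R, T ≤ R → R < p * T → R ∉ W0 → ps A₀ R = ps B R := by
    intro R hR1 hR2 hRW
    rw [hA₀, ps_ofSums]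
    by_contra hne
    apply hRW
    rw [hW0, mem_union]
    by_cases hRU : R ∈ U
    · exact Or.inl hRU
    · right
      rw [mem_biUnion]
      have hdiv : R / w * w ≤ R := Nat.div_mul_le_self R w
      have hdiv2 : R < (R / w + 1) * w := by
        have := Nat.lt_mul_div_succ R hw0
        rwa [mul_comm]
      refine ⟨R / w, ?_, by rw [mem_Ico]; exact ⟨hdiv, hdiv2⟩⟩
      obtain ⟨a1, a2, a3⟩ := hρ (R / w) (hblock R hR2)
      rw [mem_events]
      refine ⟨?_, by omega, ρ (R / w), ?_, R, by omega, a3, hRU, by omega, by omega, a2, hdiv2, hne⟩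
      · have : R / w ≤ p * T / w := Nat.div_le_div_right hR2.le
        omega
      · have := hblock R hR2; omega
  have h := window_estimate2 hp2 n hn A₀ B j S E W0 hS0
    (fun i hi => hS i (by omega)) (fun R hR => hgood R (by omega)) hmatch m hjumps
  refine le_trans h ?_
  apply Nat.mul_le_mul_left
  apply Nat.mul_le_mul_left
  apply Nat.add_le_add_left
  exact Nat.mul_le_mul_left _ hW0card

/-- Each event gives a progression of places. -/
theorem event_points (B : PowerSeries (ZMod p)) (E : Finset ℕ) (k N T w l : ℕ)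
    (hgood : ∀ R, R < N → R ∉ E → ps B (R / p) = - ps B R)
    (hl : l ∈ events B (chainBad p E k N) T w N) (i : ℕ) (hi : i ≤ k) :
    ∃ s, PowerSeries.coeff s B ≠ 0 ∧ l * w < s * p ^ i + w ∧ s * p ^ i < (l + 1) * w := by
  have hp0 : 0 < p := hpF.out.pos
  have hpi : 0 < p ^ i := pow_pos hp0 i
  rw [mem_events] at hl
  obtain ⟨_, _, R₁, hR₁, R₂, hR₂, u₁, u₂, c₁, c₂, d₁, d₂, hne⟩ := hl
  have key : ∀ R₁ R₂ : ℕ, R₁ < R₂ → R₁ < N → R₂ < N → R₁ ∉ chainBad p E k N →
      R₂ ∉ chainBad p E k N → l * w ≤ R₁ + w → R₂ < (l + 1) * w → ps B R₁ ≠ ps B R₂ →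
      ∃ s, PowerSeries.coeff s B ≠ 0 ∧ l * w < s * p ^ i + w ∧ s * p ^ i < (l + 1) * w := by
    intro R₁ R₂ hlt hR₁ hR₂ u₁ u₂ c₁ d₂ hne
    have e₁ := chain B N E hgood i R₁ hR₁
      (fun i' hi' => not_mem_chainBad hR₁ u₁ i' (by omega))
    have e₂ := chain B N E hgood i R₂ hR₂
      (fun i' hi' => not_mem_chainBad hR₂ u₂ i' (by omega))
    have hne2 : ps B (R₁ / p ^ i) ≠ ps B (R₂ / p ^ i) := by
      rw [e₁, e₂]
      intro h
      apply hne
      have hu : ((-1 : ZMod p) ^ i) ≠ 0 := pow_ne_zero _ (neg_ne_zero.2 one_ne_zero)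
      exact mul_left_cancel₀ hu h
    have hle : R₁ / p ^ i ≤ R₂ / p ^ i := Nat.div_le_div_right hlt.le
    have h1 : ∑ s ∈ Ico (R₁ / p ^ i + 1) (R₂ / p ^ i + 1), PowerSeries.coeff s B ≠ 0 := by
      rw [Finset.sum_Ico_eq_sub _ (by omega : R₁ / p ^ i + 1 ≤ R₂ / p ^ i + 1), ← ps_eq_sum,
        ← ps_eq_sum]
      exact sub_ne_zero.2 hne2.symm
    obtain ⟨s, hs, hs0⟩ := Finset.exists_ne_zero_of_sum_ne_zero h1
    rw [mem_Ico] at hs
    refine ⟨s, hs0, ?_, ?_⟩
    · have h2 : R₁ / p ^ i < s := by omega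
      rw [Nat.div_lt_iff_lt_mul hpi] at h2
      omega
    · have h2 : s ≤ R₂ / p ^ i := by omega
      rw [Nat.le_div_iff_mul_le hpi] at h2
      omega
  rcases lt_trichotomy R₁ R₂ with h | h | h
  · exact key R₁ R₂ h hR₁ hR₂ u₁ u₂ c₁ d₂ hne
  · exact absurd (by rw [h]) hne
  · exact key R₂ R₁ h hR₂ hR₁ u₂ u₁ c₂ d₁ hne.symm

end

end Pool.Agent.K7.H59.DC
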