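import Pool.Agent.K7.H59.DC.Numeric

/-!
The lower bound for the number of nonzero terms of a bounded expansion of a square root.
-/

namespace Pool.Agent.K7.H59.DC

open Finset Polynomial

noncomputable section

/-- The number of nonzero terms before `n`. -/
def cnt (ε : ℕ → ℤ) (n : ℕ) : ℕ := ((range n).filter fun k => ε k ≠ 0).card

theorem cnt_mono (ε : ℕ → ℤ) {m n : ℕ} (h : m ≤ n) : cnt ε m ≤ cnt ε n := by
  unfold cnt
  apply card_le_card
  intro k hk
  rw [mem_filter, mem_range] at hk ⊢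
  exact ⟨by omega, hk.2⟩

theorem card_places_le (ε : ℕ → ℤ) (n : ℕ) : (places ε n).card ≤ cnt ε n + 1 :=
  card_insert_le _ _

variable {p : ℕ} [hpF : Fact p.Prime]

theorem sum_jumps_le (b : ℕ) (ε : ℕ → ℤ) (l u M : ℕ) (hu : p ^ u ≤ M) :
    ∑ j ∈ Ico l u, (jumps (red p b ε) (p ^ j)).card ≤ cnt ε M := by
  classical
  have hp0 : 0 < p := hpF.out.pos
  rw [← Finset.card_biUnion]
  · unfold cnt
    apply card_le_card
    intro s hs
    rw [mem_biUnion] at hs
    obtain ⟨j, hj, hs⟩ := hs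
    rw [mem_Ico] at hj
    unfold jumps at hs
    rw [mem_filter, mem_Ioo] at hs
    rw [mem_filter, mem_range]
    refine ⟨?_, ?_⟩
    · calc s < p * p ^ j := hs.1.2
        _ = p ^ (j + 1) := by ring
        _ ≤ p ^ u := Nat.pow_le_pow_right hp0 hj.2
        _ ≤ M := hu
    · intro h0
      apply hs.2
      rw [coeff_red, h0]; simp
  · intro j _ j' _ hne
    have key : ∀ j j' : ℕ, j < j' →
        Disjoint (jumps (red p b ε) (p ^ j)) (jumps (red p b ε) (p ^ j')) := by
      intro j j' hlt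
      rw [Finset.disjoint_left]
      intro s hs hs'
      unfold jumps at hs hs'
      rw [mem_filter, mem_Ioo] at hs hs'
      have h1 : s < p ^ (j + 1) := by
        calc s < p * p ^ j := hs.1.2
          _ = p ^ (j + 1) := by ring
      have h2 : p ^ (j + 1) ≤ p ^ j' := Nat.pow_le_pow_right hp0 hlt
      have h3 := hs'.1.1
      omega
    rcases lt_or_gt_of_ne hne with h | h
    · exact key j j' h
    · exact (key j' j h).symm

/-- The bound at the places `p ^ (12 i)`. -/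
theorem bound_at (hp2 : p ≠ 2) (b : ℕ) (hb : 2 ≤ b) (hpb : (b : ZMod p) ≠ 0) (C : ℕ)
    (ε : ℕ → ℤ) (hε : ∀ k, |ε k| ≤ C) (x : ℝ)
    (hx : HasSum (fun k => (ε k : ℝ) / (b : ℝ) ^ k) x) (D : ℤ) (hD : x ^ 2 = D)
    (hn : (D : ZMod p) ^ ((p - 1) / 2) = -1) (i : ℕ)
    (hi1 : C ^ 2 * (i + 7) < 2 ^ i) (hi2 : 16 * p ≤ i)
    (hi3 : 20 * p * i ^ (2 * p + 3) ≤ p ^ i)
    (hcnt : cnt ε (p ^ (12 * i)) + 1 ≤ i ^ 2) :
    (2 * i) * (i * Real.log p) ≤ 9 * Real.log i * (cnt ε (p ^ (12 * i)) + 2 * i) := by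
  have hp3 : 3 ≤ p := by have := hpF.out.two_le; omega
  have hp0 : 0 < p := hpF.out.pos
  have hi5 : 48 ≤ i := by omega
  set N := 3 * p ^ (8 * i + 1) with hN
  set Lam := p * (8 * i + 1) + i with hLam
  set M := p ^ (12 * i) with hM
  have hLam0 : 0 < Lam := by omega
  have hΛ : C ^ 2 * (N + Lam + 3) < 2 ^ Lam := by
    have h1 : p ^ (8 * i + 1) ≤ 2 ^ (p * (8 * i + 1)) := by
      rw [pow_mul]
      exact Nat.pow_le_pow_left (Nat.lt_two_pow_self).le _
    have h2 : p * (8 * i + 1) ≤ 2 ^ (p * (8 * i + 1)) := (Nat.lt_two_pow_self).le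
    have h3 : 1 ≤ 2 ^ (p * (8 * i + 1)) := Nat.one_le_two_pow
    set y := 2 ^ (p * (8 * i + 1)) with hy
    have h4 : N + Lam + 3 ≤ y * (i + 7) := by
      rw [hN, hLam]
      nlinarith
    calc C ^ 2 * (N + Lam + 3) ≤ C ^ 2 * (y * (i + 7)) := Nat.mul_le_mul_left _ h4
      _ = y * (C ^ 2 * (i + 7)) := by ring
      _ < y * 2 ^ i := Nat.mul_lt_mul_of_pos_left hi1 h3
      _ = 2 ^ Lam := by rw [hy, hLam, pow_add]
  have hNM : N + Lam ≤ M := by
    have h1 : 8 * i + 1 ≤ p ^ (8 * i + 1) := (Nat.lt_pow_self hpF.out.one_lt).le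
    have h2 : p * (8 * i + 1) ≤ p ^ (8 * i + 2) := by
      calc p * (8 * i + 1) ≤ p * p ^ (8 * i + 1) := Nat.mul_le_mul_left _ h1
        _ = p ^ (8 * i + 2) := by ring
    have h3 : i ≤ p ^ (8 * i + 2) := by
      calc i ≤ 8 * i + 2 := by omega
        _ ≤ p ^ (8 * i + 2) := (Nat.lt_pow_self hpF.out.one_lt).le
    have h4 : 3 * p ^ (8 * i + 1) ≤ p ^ (8 * i + 2) := by
      calc 3 * p ^ (8 * i + 1) ≤ p * p ^ (8 * i + 1) := Nat.mul_le_mul_right _ hp3
        _ = p ^ (8 * i + 2) := by ring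
    calc N + Lam ≤ 3 * p ^ (8 * i + 2) := by rw [hN, hLam]; omega
      _ ≤ p * p ^ (8 * i + 2) := Nat.mul_le_mul_right _ hp3
      _ = p ^ (8 * i + 3) := by ring
      _ ≤ M := Nat.pow_le_pow_right hp0 (by omega)
  obtain ⟨E, hE, hgood⟩ := good_main hp2 b hb hpb C ε hε x hx D hD hn N Lam hΛ
  set S := places ε (N + Lam) with hS
  have hScard : S.card ≤ i ^ 2 :=
    le_trans (card_places_le ε _) (le_trans (Nat.add_le_add_right (cnt_mono ε hNM) 1) hcnt)
  have hS0 : 0 ∈ S := by simp [hS, places]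
  have hwin : ∀ j ∈ Ico (2 * i) (4 * i),
      (i : ℝ) * Real.log p ≤ 9 * Real.log i * ((jumps (red p b ε) (p ^ j)).card + 1) := by
    intro j hj
    rw [mem_Ico] at hj
    have hjN : 3 * p ^ (2 * j + 1) ≤ N :=
      Nat.mul_le_mul_left _ (Nat.pow_le_pow_right hp0 (by omega))
    have h1 := window_estimate hp2 (D : ZMod p) hn (red p b ε) j S E Lam hLam0 hS0
      (by
        intro k hk hne
        simp only [hS, places, mem_insert, mem_filter, mem_range]
        right
        refine ⟨by omega, ?_⟩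
        intro h0
        apply hne
        rw [coeff_red, h0]; simp)
      hE (fun R hR hRE => hgood R (lt_of_lt_of_le hR hjN) hRE)
    set m := (jumps (red p b ε) (p ^ j)).card with hm
    have hmle : m ≤ cnt ε M := by
      have h2 : m = ∑ l ∈ Ico j (j + 1), (jumps (red p b ε) (p ^ l)).card := by simp [hm]
      rw [h2]
      exact sum_jumps_le b ε j (j + 1) M (Nat.pow_le_pow_right hp0 (by omega))
    have hQ : 1 + (m + 1) * (j + 2) ≤ i ^ 4 := by
      have h2 : (m + 1) * (j + 2) ≤ i ^ 2 * (5 * i) :=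
        Nat.mul_le_mul (by omega) (by omega)
      have h3 : 1 + i ^ 2 * (5 * i) ≤ i ^ 4 := by
        have h4 : i ^ 2 * (5 * i) + i ^ 3 ≤ i * i ^ 3 := by
          have : i ^ 2 * (5 * i) + i ^ 3 = 6 * i ^ 3 := by ring
          rw [this]
          exact Nat.mul_le_mul_right _ (by omega)
        have h5 : 1 ≤ i ^ 3 := Nat.one_le_pow _ _ (by omega)
        have h6 : i * i ^ 3 = i ^ 4 := by ring
        omega
      omega
    have hA : 16 * p * (1 + (m + 1) * (j + 2)) ^ 2 ≤ i ^ 9 := by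
      calc 16 * p * (1 + (m + 1) * (j + 2)) ^ 2 ≤ i * (i ^ 4) ^ 2 :=
            Nat.mul_le_mul hi2 (Nat.pow_le_pow_left hQ 2)
        _ = i ^ 9 := by ring
    have hrest : 2 * S.card ^ (p + 1) * Lam ≤ p ^ i := by
      have h2 : Lam ≤ 10 * p * i := by rw [hLam]; nlinarith
      calc 2 * S.card ^ (p + 1) * Lam ≤ 2 * (i ^ 2) ^ (p + 1) * (10 * p * i) :=
            Nat.mul_le_mul (Nat.mul_le_mul_left _ (Nat.pow_le_pow_left hScard _)) h2
        _ = 20 * p * i ^ (2 * p + 3) := by ring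
        _ ≤ p ^ i := hi3
    have h2 : p ^ i * p ^ i ≤ p ^ i * (i ^ 9) ^ (m + 1) := by
      calc p ^ i * p ^ i = p ^ (2 * i) := by ring
        _ ≤ p ^ j := Nat.pow_le_pow_right hp0 hj.1
        _ ≤ 2 * (16 * p * (1 + (m + 1) * (j + 2)) ^ 2) ^ (m + 1) * S.card ^ (p + 1) * Lam := h1
        _ ≤ 2 * (i ^ 9) ^ (m + 1) * S.card ^ (p + 1) * Lam := by
            apply Nat.mul_le_mul_right
            apply Nat.mul_le_mul_right
            apply Nat.mul_le_mul_left
            exact Nat.pow_le_pow_left hA _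
        _ = (2 * S.card ^ (p + 1) * Lam) * (i ^ 9) ^ (m + 1) := by ring
        _ ≤ p ^ i * (i ^ 9) ^ (m + 1) := Nat.mul_le_mul_right _ hrest
    have h3 : p ^ i ≤ (i ^ 9) ^ (m + 1) := Nat.le_of_mul_le_mul_left h2 (pow_pos hp0 i)
    have h4 : ((p : ℝ) ^ i) ≤ ((i : ℝ) ^ 9) ^ (m + 1) := by exact_mod_cast h3
    have h5 := Real.log_le_log (by positivity) h4
    rw [Real.log_pow, Real.log_pow, Real.log_pow] at h5
    push_cast at h5
    linarith
  have hsum := Finset.sum_le_sum hwin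
  rw [Finset.sum_const, ← Finset.mul_sum, Finset.sum_add_distrib, Finset.sum_const] at hsum
  rw [Nat.card_Ico] at hsum
  have h6 : 4 * i - 2 * i = 2 * i := by omega
  rw [h6] at hsum
  simp only [nsmul_eq_mul, mul_one] at hsum
  push_cast at hsum
  have h7 : (∑ j ∈ Ico (2 * i) (4 * i), ((jumps (red p b ε) (p ^ j)).card : ℝ)) ≤
      (cnt ε M : ℝ) := by
    have := sum_jumps_le (p := p) b ε (2 * i) (4 * i) M (Nat.pow_le_pow_right hp0 (by omega))
    exact_mod_cast this
  have h8 : 0 ≤ 9 * Real.log i := by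
    have : 0 ≤ Real.log i := Real.log_natCast_nonneg i
    positivity
  calc (2 * (i : ℝ)) * (i * Real.log p) ≤ _ := hsum
    _ ≤ 9 * Real.log i * (cnt ε M + 2 * i) := by
        apply mul_le_mul_of_nonneg_left _ h8
        linarith

theorem eventually_poly_lt_pow (a : ℝ) (k : ℕ) (r : ℝ) (hr : 1 < r) :
    ∀ᶠ i : ℕ in Filter.atTop, a * (i : ℝ) ^ k < r ^ i := by
  have h := tendsto_pow_const_div_const_pow_of_one_lt k hr
  have h2 : Filter.Tendsto (fun n : ℕ => a * ((n : ℝ) ^ k / r ^ n)) Filter.atTop (nhds 0) := by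
    simpa using h.const_mul a
  filter_upwards [h2.eventually_lt_const one_pos] with i hi
  have hpos : 0 < r ^ i := by positivity
  rw [← mul_div_assoc, div_lt_one hpos] at hi
  exact hi

theorem bound_eventually (hp2 : p ≠ 2) (b : ℕ) (hb : 2 ≤ b) (hpb : (b : ZMod p) ≠ 0) (C : ℕ)
    (ε : ℕ → ℤ) (hε : ∀ k, |ε k| ≤ C) (x : ℝ)
    (hx : HasSum (fun k => (ε k : ℝ) / (b : ℝ) ^ k) x) (D : ℤ) (hD : x ^ 2 = D)
    (hn : (D : ZMod p) ^ ((p - 1) / 2) = -1) :
    ∀ᶠ i : ℕ in Filter.atTop,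
      Real.log p / 9 * ((i : ℝ) ^ 2 / Real.log i) ≤ (cnt ε (p ^ (12 * i)) : ℝ) := by
  have hp3 : 3 ≤ p := by have := hpF.out.two_le; omega
  have hp1 : (1 : ℝ) < p := by exact_mod_cast hpF.out.one_lt
  have e1 : ∀ᶠ i : ℕ in Filter.atTop, C ^ 2 * (i + 7) < 2 ^ i := by
    filter_upwards [eventually_poly_lt_pow (8 * (C : ℝ) ^ 2) 1 2 (by norm_num),
      Filter.eventually_ge_atTop 1] with i hi hi1
    have h1 : (1 : ℝ) ≤ i := by exact_mod_cast hi1
    have h2 : (C : ℝ) ^ 2 * (i + 7) < 2 ^ i := by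
      refine lt_of_le_of_lt ?_ hi
      have : (0 : ℝ) ≤ (C : ℝ) ^ 2 := by positivity
      nlinarith
    exact_mod_cast h2
  have e3 : ∀ᶠ i : ℕ in Filter.atTop, 20 * p * i ^ (2 * p + 3) ≤ p ^ i := by
    filter_upwards [eventually_poly_lt_pow (20 * (p : ℝ)) (2 * p + 3) p hp1] with i hi
    exact_mod_cast hi.le
  have e4 : ∀ᶠ i : ℕ in Filter.atTop, 18 * Real.log i ≤ i := by
    have h1 := Real.isLittleO_log_id_atTop.bound (show (0 : ℝ) < 1 / 18 by norm_num)
    have h2 := tendsto_natCast_atTop_atTop (R := ℝ) |>.eventually h1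
    filter_upwards [h2, Filter.eventually_ge_atTop 1] with i hi hi1
    have h3 : (0 : ℝ) ≤ i := by positivity
    rw [Real.norm_eq_abs, Real.norm_eq_abs, id, abs_of_nonneg h3] at hi
    have := le_abs_self (Real.log i)
    linarith
  filter_upwards [e1, Filter.eventually_ge_atTop (16 * p), e3, e4] with i hi1 hi2 hi3 hi4
  have hi48 : 48 ≤ i := by omega
  have hiR : (48 : ℝ) ≤ i := by exact_mod_cast hi48
  have hpi : (p : ℝ) ≤ i := by
    have : p ≤ i := by omega
    exact_mod_cast this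
  have hlogp : 1 ≤ Real.log p := by
    rw [Real.le_log_iff_exp_le (by positivity)]
    have h3 : (3 : ℝ) ≤ p := by exact_mod_cast hp3
    have := Real.exp_one_lt_d9
    linarith
  have hlogi : Real.log p ≤ Real.log i := Real.log_le_log (by positivity) hpi
  have hlogi0 : 0 < Real.log i := by linarith
  by_cases hcnt : cnt ε (p ^ (12 * i)) + 1 ≤ i ^ 2
  · have h := bound_at hp2 b hb hpb C ε hε x hx D hD hn i hi1 hi2 hi3 hcnt
    have h1 : 2 * (i : ℝ) * (9 * Real.log i) ≤ (i : ℝ) * (i * Real.log p) := by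
      have h2 : 2 * (9 * Real.log i) ≤ i * Real.log p := by nlinarith
      nlinarith
    have h3 : (i : ℝ) * (i * Real.log p) ≤ 9 * Real.log i * cnt ε (p ^ (12 * i)) := by
      nlinarith
    rw [← mul_div_assoc, div_le_iff₀ hlogi0]
    nlinarith
  · push Not at hcnt
    have h1 : i ^ 2 ≤ cnt ε (p ^ (12 * i)) := by omega
    have h2 : (i : ℝ) ^ 2 ≤ cnt ε (p ^ (12 * i)) := by exact_mod_cast h1
    refine le_trans ?_ h2
    rw [← mul_div_assoc, div_le_iff₀ hlogi0]
    have h3 : (0 : ℝ) ≤ (i : ℝ) ^ 2 := by positivity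
    nlinarith

/-- If a bounded sequence of integers `ε` satisfies `∑ ε_k b^(-k) = x` with `x ^ 2 = D` an
integer, and `D` is a nonresidue modulo an odd prime `p` not dividing `b`, then `ε` has at least
`c (log n)^2 / log log n` nonzero terms before `n`, for all large `n`. -/
theorem sparse_bound (hp2 : p ≠ 2) (b : ℕ) (hb : 2 ≤ b) (hpb : (b : ZMod p) ≠ 0) (C : ℕ)
    (ε : ℕ → ℤ) (hε : ∀ k, |ε k| ≤ C) (x : ℝ)
    (hx : HasSum (fun k => (ε k : ℝ) / (b : ℝ) ^ k) x) (D : ℤ) (hD : x ^ 2 = D)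
    (hn : (D : ZMod p) ^ ((p - 1) / 2) = -1) :
    ∃ c : ℝ, 0 < c ∧ ∀ᶠ n : ℕ in Filter.atTop,
      c * (Real.log n ^ 2 / Real.log (Real.log n)) ≤ (cnt ε n : ℝ) := by
  have hp3 : 3 ≤ p := by have := hpF.out.two_le; omega
  have hp0 : 0 < p := hpF.out.pos
  have hlogp : 1 ≤ Real.log p := by
    rw [Real.le_log_iff_exp_le (by positivity)]
    have h3 : (3 : ℝ) ≤ p := by exact_mod_cast hp3
    have := Real.exp_one_lt_d9
    linarith
  have hev := bound_eventually hp2 b hb hpb C ε hε x hx D hD hn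
  have hlogN : Filter.Tendsto (fun n : ℕ => Real.log n) Filter.atTop Filter.atTop :=
    Real.tendsto_log_atTop.comp tendsto_natCast_atTop_atTop
  have hi : Filter.Tendsto (fun n : ℕ => Nat.log p n / 12) Filter.atTop Filter.atTop := by
    have h1 : Filter.Tendsto (fun n : ℕ => Nat.log p n) Filter.atTop Filter.atTop := by
      apply Filter.tendsto_atTop.2
      intro k
      filter_upwards [Filter.eventually_ge_atTop (p ^ k)] with n hn
      exact Nat.le_log_of_pow_le hpF.out.one_lt hn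
    apply Filter.tendsto_atTop.2
    intro k
    filter_upwards [Filter.tendsto_atTop.1 h1 (12 * k)] with n hn
    omega
  refine ⟨Real.log p / 9 / (24 * Real.log p) ^ 2, by positivity, ?_⟩
  filter_upwards [hi.eventually hev, hlogN.eventually_ge_atTop (48 * Real.log p),
    hi.eventually_ge_atTop 3] with n h1 h2 h3
  set i := Nat.log p n / 12 with hidef
  have hn0 : n ≠ 0 := by
    rintro rfl
    simp at h2
    linarith
  have hL1 : p ^ (12 * i) ≤ n := by
    calc p ^ (12 * i) ≤ p ^ (Nat.log p n) := Nat.pow_le_pow_right hp0 (by omega)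
      _ ≤ n := Nat.pow_log_le_self p hn0
  have hL2 : n < p ^ (Nat.log p n + 1) := Nat.lt_pow_succ_log_self hpF.out.one_lt n
  have hL3 : Real.log n ≤ (Nat.log p n + 1) * Real.log p := by
    have h4 : (n : ℝ) ≤ (p : ℝ) ^ (Nat.log p n + 1) := by exact_mod_cast hL2.le
    have h5 := Real.log_le_log (by positivity) h4
    rw [Real.log_pow] at h5
    push_cast at h5
    exact h5
  have hL4 : (Nat.log p n : ℝ) ≤ 12 * i + 11 := by
    have : Nat.log p n ≤ 12 * i + 11 := by omega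
    exact_mod_cast this
  have hlow : Real.log n ≤ 24 * Real.log p * i := by
    have h4 : Real.log n ≤ (12 * i + 12) * Real.log p := by nlinarith
    have h5 : (1 : ℝ) ≤ i := by
      have : 1 ≤ i := by omega
      exact_mod_cast this
    nlinarith
  have hup : (i : ℝ) ≤ Real.log n := by
    have h4 : (p : ℝ) ^ (12 * i) ≤ n := by exact_mod_cast hL1
    have h5 := Real.log_le_log (by positivity) h4
    rw [Real.log_pow] at h5
    push_cast at h5
    have h6 : (0 : ℝ) ≤ i := by positivity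
    nlinarith
  have hi3 : (3 : ℝ) ≤ i := by exact_mod_cast h3
  have hlogi : 0 < Real.log i := Real.log_pos (by linarith)
  have hlogn0 : 0 ≤ Real.log n := by linarith
  have hll : Real.log i ≤ Real.log (Real.log n) := Real.log_le_log (by linarith) hup
  have hmono : (cnt ε (p ^ (12 * i)) : ℝ) ≤ cnt ε n := by exact_mod_cast cnt_mono ε hL1
  refine le_trans ?_ (le_trans h1 hmono)
  have hsq : Real.log n ^ 2 ≤ (24 * Real.log p) ^ 2 * (i : ℝ) ^ 2 := by
    rw [← mul_pow]
    exact pow_le_pow_left₀ hlogn0 hlow 2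
  have h6 : Real.log n ^ 2 / Real.log (Real.log n) ≤
      ((24 * Real.log p) ^ 2 * (i : ℝ) ^ 2) / Real.log i :=
    div_le_div₀ (by positivity) hsq hlogi hll
  calc Real.log p / 9 / (24 * Real.log p) ^ 2 * (Real.log n ^ 2 / Real.log (Real.log n))
      ≤ Real.log p / 9 / (24 * Real.log p) ^ 2 *
        (((24 * Real.log p) ^ 2 * (i : ℝ) ^ 2) / Real.log i) :=
        mul_le_mul_of_nonneg_left h6 (by positivity)
    _ = Real.log p / 9 * ((i : ℝ) ^ 2 / Real.log i) := by
        field_simp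

end

end Pool.Agent.K7.H59.DC
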