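import Pool.Agent.K7.H59.DC.Basic

/-!
Good places: where the sumset of the nonzero places of an expansion of a square root leaves a
gap, the reductions modulo `p` of the partial sums satisfy exact identities.
-/

namespace Pool.Agent.K7.H59.DC

open Finset

noncomputable section

/-- The self-convolution of a sequence. -/
def conv2 (ε : ℕ → ℤ) (m : ℕ) : ℤ := ∑ x ∈ antidiagonal m, ε x.1 * ε x.2

theorem abs_conv2_le (ε : ℕ → ℤ) (C : ℕ) (hε : ∀ k, |ε k| ≤ C) (m : ℕ) :
    |conv2 ε m| ≤ C ^ 2 * (m + 1) := by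
  unfold conv2
  refine le_trans (Finset.abs_sum_le_sum_abs _ _) ?_
  calc ∑ x ∈ antidiagonal m, |ε x.1 * ε x.2| ≤ ∑ x ∈ antidiagonal m, (C : ℤ) ^ 2 := by
        apply Finset.sum_le_sum
        intro x _
        rw [abs_mul, pow_two]
        exact mul_le_mul (hε _) (hε _) (abs_nonneg _) (by positivity)
    _ = C ^ 2 * (m + 1) := by
        rw [Finset.sum_const, Finset.Nat.card_antidiagonal]
        simp [mul_comm]

theorem hasSum_conv2 (b : ℕ) (hb : 2 ≤ b) (C : ℕ) (ε : ℕ → ℤ) (hε : ∀ k, |ε k| ≤ C) (x : ℝ)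
    (hx : HasSum (fun k => (ε k : ℝ) / (b : ℝ) ^ k) x) :
    HasSum (fun m => (conv2 ε m : ℝ) / (b : ℝ) ^ m) (x ^ 2) := by
  have hb0 : (0 : ℝ) < b := by positivity
  have hb1 : (2 : ℝ) ≤ b := by exact_mod_cast hb
  have hsn : Summable (fun k => ‖(ε k : ℝ) / (b : ℝ) ^ k‖) := by
    have hg : Summable (fun k : ℕ => (C : ℝ) * (1 / 2 : ℝ) ^ k) :=
      (summable_geometric_of_lt_one (by norm_num) (by norm_num)).mul_left _
    refine Summable.of_nonneg_of_le (fun _ => norm_nonneg _) (fun k => ?_) hg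
    rw [norm_div, Real.norm_eq_abs, Real.norm_eq_abs, abs_of_pos (pow_pos hb0 k), one_div,
      inv_pow, div_eq_mul_inv]
    have h1 : |(ε k : ℝ)| ≤ C := by exact_mod_cast hε k
    refine mul_le_mul h1 ?_ (by positivity) (by positivity)
    exact inv_anti₀ (by positivity) (pow_le_pow_left₀ (by norm_num) hb1 k)
  have h1 := tsum_mul_tsum_eq_tsum_sum_antidiagonal_of_summable_norm hsn hsn
  have h2 : ∀ m, ∑ kl ∈ antidiagonal m, (ε kl.1 : ℝ) / (b : ℝ) ^ kl.1 *
      ((ε kl.2 : ℝ) / (b : ℝ) ^ kl.2) = (conv2 ε m : ℝ) / (b : ℝ) ^ m := by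
    intro m
    unfold conv2
    push_cast
    rw [Finset.sum_div]
    apply Finset.sum_congr rfl
    intro kl hkl
    rw [HasAntidiagonal.mem_antidiagonal] at hkl
    rw [div_mul_div_comm, ← pow_add, hkl]
  have h3 := summable_norm_sum_mul_antidiagonal_of_summable_norm hsn hsn
  have h4 := h3.of_norm
  simp only [h2] at h1 h4
  rw [hx.tsum_eq] at h1
  rw [pow_two, h1]
  exact h4.hasSum

theorem exact_of_gap (b : ℕ) (hb : 2 ≤ b) (C : ℕ) (ε : ℕ → ℤ) (hε : ∀ k, |ε k| ≤ C) (x : ℝ)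
    (hx : HasSum (fun k => (ε k : ℝ) / (b : ℝ) ^ k) x) (D : ℤ) (hD : x ^ 2 = D) (R Λ : ℕ)
    (hΛ : C ^ 2 * (R + Λ + 3) < 2 ^ Λ)
    (hgap : ∀ m, R < m → m ≤ R + Λ → conv2 ε m = 0) :
    ∑ m ∈ range (R + 1), conv2 ε m * (b : ℤ) ^ (R - m) = D * (b : ℤ) ^ R := by
  have hb0 : (0 : ℝ) < b := by positivity
  have hb1 : (2 : ℝ) ≤ b := by exact_mod_cast hb
  set g : ℕ → ℝ := fun m => (conv2 ε m : ℝ) / (b : ℝ) ^ m with hg
  have hsum : HasSum g (D : ℝ) := by
    rw [← hD]; exact hasSum_conv2 b hb C ε hε x hx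
  set S : ℕ → ℝ := fun M => ∑ m ∈ range M, g m with hS
  have hSgap : ∀ t, t ≤ Λ → S (R + 1 + t) = S (R + 1) := by
    intro t ht
    induction t with
    | zero => rfl
    | succ t ih =>
      rw [← ih (by omega)]
      simp only [hS]
      rw [show R + 1 + (t + 1) = (R + 1 + t) + 1 by ring, Finset.sum_range_succ]
      have : g (R + 1 + t) = 0 := by
        simp only [hg]
        rw [hgap (R + 1 + t) (by omega) (by omega)]; simp
      rw [this, add_zero]
  set c0 : ℝ := (C : ℝ) ^ 2 / ((b : ℝ) ^ R * 2 ^ Λ) with hc0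
  have hc0nn : 0 ≤ c0 := by positivity
  set f : ℕ → ℝ := fun t => ((R : ℝ) + Λ + 3 + t) / 2 ^ t with hf
  have hbound : ∀ t, |S (R + 1 + Λ + t) - S (R + 1)| ≤ c0 * (f 0 - f t) := by
    intro t
    induction t with
    | zero => simp [hSgap Λ le_rfl]
    | succ t ih =>
      have h1 : S (R + 1 + Λ + (t + 1)) = S (R + 1 + Λ + t) + g (R + 1 + Λ + t) := by
        simp only [hS]
        rw [show R + 1 + Λ + (t + 1) = (R + 1 + Λ + t) + 1 by ring, Finset.sum_range_succ]
      have h2 : |g (R + 1 + Λ + t)| ≤ c0 * (f t - f (t + 1)) := by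
        simp only [hg, hf]
        rw [abs_div, abs_of_pos (pow_pos hb0 _)]
        have h3 : |(conv2 ε (R + 1 + Λ + t) : ℝ)| ≤ (C : ℝ) ^ 2 * ((R : ℝ) + 1 + Λ + t + 1) := by
          have := abs_conv2_le ε C hε (R + 1 + Λ + t)
          have h4 : (|conv2 ε (R + 1 + Λ + t)| : ℝ) ≤
              (((C : ℤ) ^ 2 * (((R + 1 + Λ + t : ℕ) : ℤ) + 1) : ℤ) : ℝ) := by exact_mod_cast this
          push_cast at h4
          exact h4
        have h5 : (b : ℝ) ^ R * 2 ^ (1 + Λ + t) ≤ (b : ℝ) ^ (R + 1 + Λ + t) := by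
          rw [show R + 1 + Λ + t = R + (1 + Λ + t) by ring, pow_add (b : ℝ) R]
          exact mul_le_mul_of_nonneg_left (pow_le_pow_left₀ (by norm_num) hb1 _)
            (pow_pos hb0 R).le
        calc |(conv2 ε (R + 1 + Λ + t) : ℝ)| / (b : ℝ) ^ (R + 1 + Λ + t)
            ≤ ((C : ℝ) ^ 2 * ((R : ℝ) + 1 + Λ + t + 1)) / ((b : ℝ) ^ R * 2 ^ (1 + Λ + t)) :=
              div_le_div₀ (by positivity) h3 (mul_pos (pow_pos hb0 _) (by positivity)) h5
          _ = c0 * (((R : ℝ) + Λ + 3 + t) / 2 ^ t - ((R : ℝ) + Λ + 3 + ((t + 1 : ℕ) : ℝ)) /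
              2 ^ (t + 1)) := by
              rw [hc0]
              have e1 : (2 : ℝ) ^ (1 + Λ + t) = 2 * 2 ^ Λ * 2 ^ t := by ring
              rw [e1, pow_succ]
              push_cast
              field_simp
              ring
      calc |S (R + 1 + Λ + (t + 1)) - S (R + 1)|
          = |(S (R + 1 + Λ + t) - S (R + 1)) + g (R + 1 + Λ + t)| := by rw [h1]; ring_nf
        _ ≤ |S (R + 1 + Λ + t) - S (R + 1)| + |g (R + 1 + Λ + t)| := abs_add_le _ _
        _ ≤ c0 * (f 0 - f t) + c0 * (f t - f (t + 1)) := add_le_add ih h2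
        _ = c0 * (f 0 - f (t + 1)) := by ring
  have hlim : |(D : ℝ) - S (R + 1)| ≤ c0 * (R + Λ + 3) := by
    have h1 : Filter.Tendsto (fun t => |S (t + (R + 1 + Λ)) - S (R + 1)|) Filter.atTop
        (nhds |(D : ℝ) - S (R + 1)|) := by
      have h2 : Filter.Tendsto S Filter.atTop (nhds (D : ℝ)) := hsum.tendsto_sum_nat
      have h3 := (Filter.tendsto_add_atTop_iff_nat (R + 1 + Λ)).mpr h2
      exact (h3.sub_const _).abs
    refine le_of_tendsto h1 (Filter.Eventually.of_forall fun t => ?_)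
    have h5 : 0 ≤ f t := by simp only [hf]; positivity
    have h6 : f 0 = R + Λ + 3 := by simp [hf]
    rw [add_comm t]
    calc |S (R + 1 + Λ + t) - S (R + 1)| ≤ c0 * (f 0 - f t) := hbound t
      _ ≤ c0 * f 0 := mul_le_mul_of_nonneg_left (by linarith) hc0nn
      _ = _ := by rw [h6]
  -- multiply by `b ^ R`
  have hint : ((∑ m ∈ range (R + 1), conv2 ε m * (b : ℤ) ^ (R - m) : ℤ) : ℝ) =
      (b : ℝ) ^ R * S (R + 1) := by
    push_cast
    simp only [hS, hg]
    rw [Finset.mul_sum]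
    apply Finset.sum_congr rfl
    intro m hm
    rw [Finset.mem_range] at hm
    have : (b : ℝ) ^ R = (b : ℝ) ^ (R - m) * (b : ℝ) ^ m := by
      rw [← pow_add]; congr 1; omega
    rw [this]
    field_simp
  have hfin : |((D * (b : ℤ) ^ R - ∑ m ∈ range (R + 1), conv2 ε m * (b : ℤ) ^ (R - m) : ℤ) : ℝ)|
      < 1 := by
    rw [Int.cast_sub, hint]
    push_cast
    have h1 : (D : ℝ) * (b : ℝ) ^ R - (b : ℝ) ^ R * S (R + 1) =
        (b : ℝ) ^ R * ((D : ℝ) - S (R + 1)) := by ring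
    rw [h1, abs_mul, abs_of_pos (pow_pos hb0 R)]
    calc (b : ℝ) ^ R * |(D : ℝ) - S (R + 1)| ≤ (b : ℝ) ^ R * (c0 * (R + Λ + 3)) :=
          mul_le_mul_of_nonneg_left hlim (by positivity)
      _ = ((C : ℝ) ^ 2 * (R + Λ + 3)) / 2 ^ Λ := by rw [hc0]; field_simp
      _ < 1 := by
          rw [div_lt_one (by positivity)]
          exact_mod_cast hΛ
  have hz : (D * (b : ℤ) ^ R - ∑ m ∈ range (R + 1), conv2 ε m * (b : ℤ) ^ (R - m)) = 0 := by
    rw [← Int.abs_lt_one_iff]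
    exact_mod_cast hfin
  linarith

variable {p : ℕ} [hpF : Fact p.Prime]

/-- The reduction modulo `p` of the series `∑ ε_i b^(-i) X^i`. -/
def red (p b : ℕ) (ε : ℕ → ℤ) : PowerSeries (ZMod p) :=
  PowerSeries.mk fun i => (ε i : ZMod p) * ((b : ZMod p)⁻¹) ^ i

theorem coeff_red (b : ℕ) (ε : ℕ → ℤ) (i : ℕ) :
    PowerSeries.coeff i (red p b ε) = (ε i : ZMod p) * ((b : ZMod p)⁻¹) ^ i := by
  simp [red]

theorem coeff_red_sq (b : ℕ) (ε : ℕ → ℤ) (m : ℕ) :
    PowerSeries.coeff m (red p b ε ^ 2) = (conv2 ε m : ZMod p) * ((b : ZMod p)⁻¹) ^ m := by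
  rw [pow_two, PowerSeries.coeff_mul]
  unfold conv2
  push_cast
  rw [Finset.sum_mul]
  apply Finset.sum_congr rfl
  intro x hx
  rw [HasAntidiagonal.mem_antidiagonal] at hx
  rw [coeff_red, coeff_red, ← hx, pow_add]
  ring

theorem ps_red_sq (b : ℕ) (hb : 2 ≤ b) (hpb : (b : ZMod p) ≠ 0) (C : ℕ) (ε : ℕ → ℤ)
    (hε : ∀ k, |ε k| ≤ C) (x : ℝ)
    (hx : HasSum (fun k => (ε k : ℝ) / (b : ℝ) ^ k) x) (D : ℤ) (hD : x ^ 2 = D) (R Λ : ℕ)
    (hΛ : C ^ 2 * (R + Λ + 3) < 2 ^ Λ)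
    (hgap : ∀ m, R < m → m ≤ R + Λ → conv2 ε m = 0) :
    ps (red p b ε ^ 2) R = (D : ZMod p) := by
  have h1 := exact_of_gap b hb C ε hε x hx D hD R Λ hΛ hgap
  have h2 := congrArg (fun z : ℤ => (z : ZMod p)) h1
  push_cast at h2
  rw [ps_eq_sum]
  have h3 : ∀ m ∈ range (R + 1), PowerSeries.coeff m (red p b ε ^ 2) =
      (conv2 ε m : ZMod p) * (b : ZMod p) ^ (R - m) * ((b : ZMod p)⁻¹) ^ R := by
    intro m hm
    rw [Finset.mem_range] at hm
    rw [coeff_red_sq]
    have : ((b : ZMod p)⁻¹) ^ R = ((b : ZMod p)⁻¹) ^ (R - m) * ((b : ZMod p)⁻¹) ^ m := by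
      rw [← pow_add]; congr 1; omega
    rw [this]
    have h4 : (b : ZMod p) ^ (R - m) * ((b : ZMod p)⁻¹) ^ (R - m) = 1 := by
      rw [← mul_pow, mul_inv_cancel₀ hpb, one_pow]
    linear_combination (-(conv2 ε m : ZMod p) * ((b : ZMod p)⁻¹) ^ m) * h4
  rw [Finset.sum_congr rfl h3, ← Finset.sum_mul, h2, mul_assoc, ← mul_pow, mul_inv_cancel₀ hpb,
    one_pow, mul_one]

/-- The `k`-fold sumset of `S`. -/
def sums (S : Finset ℕ) : ℕ → Finset ℕ
  | 0 => {0}
  | k + 1 => image₂ (fun s t => s + t) (sums S k) S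

theorem card_sums (S : Finset ℕ) (k : ℕ) : (sums S k).card ≤ S.card ^ k := by
  induction k with
  | zero => simp [sums]
  | succ k ih =>
    rw [sums, pow_succ]
    exact le_trans (card_image₂_le _ _ _) (Nat.mul_le_mul_right _ ih)

theorem mem_sums_succ (S : Finset ℕ) (k s t : ℕ) (hs : s ∈ sums S k) (ht : t ∈ S) :
    s + t ∈ sums S (k + 1) := mem_image₂_of_mem hs ht

theorem mem_sums_add (S : Finset ℕ) (k l s t : ℕ) (hs : s ∈ sums S k) (ht : t ∈ sums S l) :
    s + t ∈ sums S (k + l) := by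
  induction l generalizing t with
  | zero =>
    simp only [sums, mem_singleton] at ht
    rw [ht]; simpa using hs
  | succ l ih =>
    simp only [sums, mem_image₂] at ht
    obtain ⟨a, ha, c, hc, rfl⟩ := ht
    rw [← add_assoc, ← add_assoc]
    exact mem_sums_succ S _ _ _ (ih a ha) hc

theorem sums_mono (S : Finset ℕ) (h0 : 0 ∈ S) (k l : ℕ) (hkl : k ≤ l) :
    sums S k ⊆ sums S l := by
  induction l, hkl using Nat.le_induction with
  | base => exact Subset.refl _
  | succ l _ ih =>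
    intro s hs
    have := mem_sums_succ S l s 0 (ih hs) h0
    simpa using this

theorem supp_pow (S : Finset ℕ) (M : ℕ) (B : PowerSeries (ZMod p))
    (hS : ∀ i, i < M → PowerSeries.coeff i B ≠ 0 → i ∈ S) (k : ℕ) :
    ∀ m, m < M → PowerSeries.coeff m (B ^ k) ≠ 0 → m ∈ sums S k := by
  induction k with
  | zero =>
    intro m _ h
    rw [pow_zero, PowerSeries.coeff_one] at h
    by_cases hm : m = 0
    · subst hm; simp [sums]
    · rw [if_neg hm] at h; exact absurd rfl h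
  | succ k ih =>
    intro m hm h
    rw [pow_succ, PowerSeries.coeff_mul] at h
    obtain ⟨x, hx, hne⟩ := Finset.exists_ne_zero_of_sum_ne_zero h
    rw [HasAntidiagonal.mem_antidiagonal] at hx
    have h1 := ih x.1 (by omega) (left_ne_zero_of_mul hne)
    have h2 := hS x.2 (by omega) (right_ne_zero_of_mul hne)
    rw [← hx]
    exact mem_sums_succ S k _ _ h1 h2

/-- If the partial sums of `B ^ 2` are `n` wherever the twofold sumset leaves a gap, then the
partial sums of `B ^ (2 k + 1)` are `n ^ k` times those of `B` wherever the `2 k + 1`-fold sumset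
leaves a gap. -/
theorem ps_odd_pow (S : Finset ℕ) (h0 : 0 ∈ S) (N Λ : ℕ) (n : ZMod p)
    (B : PowerSeries (ZMod p))
    (hS : ∀ i, i < N → PowerSeries.coeff i B ≠ 0 → i ∈ S)
    (hbase : ∀ R, R < N → (∀ t ∈ sums S 2, ¬ (R < t ∧ t ≤ R + Λ)) → ps (B ^ 2) R = n) (k : ℕ) :
    ∀ R, R < N → (∀ t ∈ sums S (2 * k + 1), ¬ (R < t ∧ t ≤ R + Λ)) →
      ps (B ^ (2 * k + 1)) R = n ^ k * ps B R := by
  induction k with
  | zero => intro R _ _; simp
  | succ k ih =>
    intro R hR hgap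
    have h1 : B ^ (2 * (k + 1) + 1) = B ^ (2 * k + 1) * B ^ 2 := by ring
    rw [h1, ps_mul]
    have h2 : ∀ i ∈ range (R + 1), PowerSeries.coeff i (B ^ (2 * k + 1)) * ps (B ^ 2) (R - i) =
        PowerSeries.coeff i (B ^ (2 * k + 1)) * n := by
      intro i hi
      rw [mem_range] at hi
      by_cases hc : PowerSeries.coeff i (B ^ (2 * k + 1)) = 0
      · rw [hc, zero_mul, zero_mul]
      · rw [hbase (R - i) (by omega)]
        intro t ht htr
        have h3 := supp_pow S N B hS (2 * k + 1) i (by omega) hc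
        have h4 := mem_sums_add S (2 * k + 1) 2 i t h3 ht
        exact hgap (i + t) h4 ⟨by omega, by omega⟩
    rw [Finset.sum_congr rfl h2, ← Finset.sum_mul, ← ps_eq_sum,
      ih R hR (fun t ht => hgap t (sums_mono S h0 _ _ (by omega) ht))]
    ring

theorem ps_pow_char (B : PowerSeries (ZMod p)) (R : ℕ) : ps (B ^ p) R = ps B (R / p) := by
  have hp0 : 0 < p := hpF.out.pos
  rw [ps_eq_sum, ps_eq_sum]
  have h1 : ∀ i, PowerSeries.coeff i (B ^ p) =
      if p ∣ i then PowerSeries.coeff (i / p) B else 0 := by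
    intro i
    have := coeff_pow_expand (p := p) 1 i B
    rwa [pow_one] at this
  simp only [h1]
  rw [← Finset.sum_filter]
  symm
  have h2 : (range (R + 1)).filter (fun i => p ∣ i) = (range (R / p + 1)).image (fun i => p * i) := by
    ext i
    simp only [mem_filter, mem_range, mem_image]
    constructor
    · rintro ⟨hi, k, rfl⟩
      refine ⟨k, ?_, rfl⟩
      have : k ≤ R / p := by
        rw [Nat.le_div_iff_mul_le hp0, mul_comm]; omega
      omega
    · rintro ⟨k, hk, rfl⟩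
      refine ⟨?_, dvd_mul_right _ _⟩
      have : k ≤ R / p := by omega
      rw [Nat.le_div_iff_mul_le hp0, mul_comm] at this
      omega
  rw [h2, Finset.sum_image]
  · apply Finset.sum_congr rfl
    intro i _
    rw [Nat.mul_div_cancel_left _ hp0]
  · intro a _ c _ hac
    exact Nat.eq_of_mul_eq_mul_left hp0 hac

/-- The places of the nonzero terms before `M`, with `0` added. -/
def places (ε : ℕ → ℤ) (M : ℕ) : Finset ℕ := insert 0 ((range M).filter fun i => ε i ≠ 0)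

theorem good_main (hp2 : p ≠ 2) (b : ℕ) (hb : 2 ≤ b) (hpb : (b : ZMod p) ≠ 0) (C : ℕ)
    (ε : ℕ → ℤ) (hε : ∀ k, |ε k| ≤ C) (x : ℝ)
    (hx : HasSum (fun k => (ε k : ℝ) / (b : ℝ) ^ k) x) (D : ℤ) (hD : x ^ 2 = D)
    (hn : (D : ZMod p) ^ ((p - 1) / 2) = -1) (N Λ : ℕ)
    (hΛ : C ^ 2 * (N + Λ + 3) < 2 ^ Λ) :
    ∃ E : Finset ℕ, E.card ≤ (places ε (N + Λ)).card ^ p * Λ ∧
      ∀ R, R < N → R ∉ E → ps (red p b ε ^ 2) R = (D : ZMod p) ∧
        ps (red p b ε) (R / p) = - ps (red p b ε) R := by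
  classical
  have hodd : p % 2 = 1 := by
    rcases hpF.out.eq_two_or_odd with h | h
    · exact absurd h hp2
    · exact h
  obtain ⟨h, hph⟩ : ∃ h, p = 2 * h + 1 := ⟨p / 2, by omega⟩
  have hh : 1 ≤ h := by have := hpF.out.two_le; omega
  set S := places ε (N + Λ) with hS
  have h0 : 0 ∈ S := by simp [hS, places]
  have hmemS : ∀ i, i < N + Λ → ε i ≠ 0 → i ∈ S := by
    intro i hi hne
    simp only [hS, places, mem_insert, mem_filter, mem_range]
    exact Or.inr ⟨hi, hne⟩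
  have hcoeffS : ∀ i, i < N + Λ → PowerSeries.coeff i (red p b ε) ≠ 0 → i ∈ S := by
    intro i hi hne
    apply hmemS i hi
    intro h
    apply hne
    rw [coeff_red, h]; simp
  have hbase : ∀ R, R < N → (∀ t ∈ sums S 2, ¬ (R < t ∧ t ≤ R + Λ)) →
      ps (red p b ε ^ 2) R = (D : ZMod p) := by
    intro R hR hgap
    apply ps_red_sq b hb hpb C ε hε x hx D hD R Λ
    · refine lt_of_le_of_lt ?_ hΛ
      exact Nat.mul_le_mul_left _ (by omega)
    · intro m hm1 hm2
      unfold conv2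
      apply Finset.sum_eq_zero
      intro y hy
      rw [HasAntidiagonal.mem_antidiagonal] at hy
      by_contra hne
      have h1 : ε y.1 ≠ 0 := left_ne_zero_of_mul hne
      have h2 : ε y.2 ≠ 0 := right_ne_zero_of_mul hne
      have h3 := hmemS y.1 (by omega) h1
      have h4 := hmemS y.2 (by omega) h2
      have h5 : m ∈ sums S 2 := by
        rw [← hy]
        apply mem_sums_succ S 1 _ _ _ h4
        have := mem_sums_succ S 0 0 y.1 (by simp [sums]) h3
        simpa using this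
      exact hgap m h5 ⟨hm1, hm2⟩
  refine ⟨(sums S p).biUnion fun t => Ico (t - Λ) t, ?_, ?_⟩
  · refine le_trans Finset.card_biUnion_le ?_
    calc ∑ t ∈ sums S p, (Ico (t - Λ) t).card ≤ ∑ t ∈ sums S p, Λ := by
          apply Finset.sum_le_sum
          intro t _
          rw [Nat.card_Ico]; omega
      _ = (sums S p).card * Λ := by rw [Finset.sum_const, smul_eq_mul]
      _ ≤ _ := Nat.mul_le_mul_right _ (card_sums S p)
  · intro R hR hRE
    have hgap : ∀ t ∈ sums S p, ¬ (R < t ∧ t ≤ R + Λ) := by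
      intro t ht htr
      apply hRE
      rw [mem_biUnion]
      exact ⟨t, ht, by rw [mem_Ico]; omega⟩
    refine ⟨hbase R hR fun t ht => hgap t (sums_mono S h0 _ _ (by omega) ht), ?_⟩
    have h1 := ps_odd_pow S h0 N Λ (D : ZMod p) (red p b ε)
      (fun i hi => hcoeffS i (by omega)) hbase h R hR (by rw [← hph]; exact hgap)
    have h2 : (p - 1) / 2 = h := by omega
    rw [h2] at hn
    rw [hn, ← hph, ps_pow_char] at h1
    rw [h1]; ring

end

end Pool.Agent.K7.H59.DC
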