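import Pool.Agent.K7.H59.DC.Model

/-!
The key inequality: a window with few jumps forces many bad places.
-/

namespace Pool.Agent.K7.H59.DC

open Finset Polynomial

noncomputable section

theorem add_div_le (x e q : ℕ) (hq : 0 < q) : (x + e) / q ≤ x / q + e / q + 1 := by
  have h1 := Nat.lt_mul_div_succ x hq
  have h2 := Nat.lt_mul_div_succ e hq
  have h3 : (x + e) / q < x / q + e / q + 2 := by
    rw [Nat.div_lt_iff_lt_mul hq]
    nlinarith
  omega

theorem card_between (q N lo hi e : ℕ) (hq : 0 < q) (h : hi ≤ lo + e) :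
    (filter (fun R => lo ≤ R * q ∧ R * q < hi) (range N)).card ≤ e / q + 1 := by
  have h1 : filter (fun R => lo ≤ R * q ∧ R * q < hi) (range N) ⊆
      Ico ((lo + (q - 1)) / q) ((hi + (q - 1)) / q) := by
    intro R hR
    rw [mem_filter] at hR
    rw [mem_Ico]
    constructor
    · have : (lo + (q - 1)) / q < R + 1 := by
        rw [Nat.div_lt_iff_lt_mul hq, Nat.add_mul]
        omega
      omega
    · have : R + 1 ≤ (hi + (q - 1)) / q := by
        rw [Nat.le_div_iff_mul_le hq, Nat.add_mul]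
        omega
      omega
  refine le_trans (card_le_card h1) ?_
  rw [Nat.card_Ico]
  have h2 : (hi + (q - 1)) / q ≤ ((lo + (q - 1)) + e) / q := Nat.div_le_div_right (by omega)
  have h3 := add_div_le (lo + (q - 1)) e q hq
  rw [Nat.sub_le_iff_le_add]
  omega

theorem card_ge_fiber (q T N r : ℕ) (hq : 0 < q) (hN : (r + 1) * T ≤ N * q) :
    T / q ≤ (filter (fun R => R * q / T = r) (range N)).card := by
  set R₀ := (r * T + (q - 1)) / q with hR₀
  have h0 : r * T ≤ R₀ * q := by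
    have := Nat.lt_mul_div_succ (r * T + (q - 1)) hq
    rw [← hR₀, Nat.mul_add, mul_comm q R₀] at this
    omega
  have h0' : R₀ * q ≤ r * T + (q - 1) := Nat.div_mul_le_self _ _
  have h1 : Ico R₀ (R₀ + T / q) ⊆ filter (fun R => R * q / T = r) (range N) := by
    intro R hR
    rw [mem_Ico] at hR
    have h2 : r * T ≤ R * q := le_trans h0 (Nat.mul_le_mul_right _ hR.1)
    have h3 : R * q < (r + 1) * T := by
      have h4 : (R + 1) * q ≤ (R₀ + T / q) * q := Nat.mul_le_mul_right _ hR.2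
      have h5 : T / q * q ≤ T := Nat.div_mul_le_self _ _
      rw [Nat.add_mul, Nat.add_mul] at h4
      rw [Nat.add_mul]
      omega
    rw [mem_filter, mem_range]
    refine ⟨?_, ?_⟩
    · have : R * q < N * q := lt_of_lt_of_le h3 hN
      exact Nat.lt_of_mul_lt_mul_right this
    · exact Nat.div_eq_of_lt_le h2 h3
  have h2 := card_le_card h1
  rw [Nat.card_Ico] at h2
  omega

theorem dirichlet (J : Finset ℕ) (T A : ℕ) (hT : 0 < T) (hA : 0 < A) :
    ∃ q, 0 < q ∧ q ≤ A ^ J.card ∧ ∃ P : ℕ → ℕ, ∀ s ∈ J,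
      (A : ℤ) * |(q : ℤ) * s - P s * T| < T := by
  classical
  set f : ℕ → (J → ℕ) := fun k s => A * ((k * (s : ℕ)) % T) / T with hf
  have hmaps : ∀ k ∈ range (A ^ J.card + 1), f k ∈ Fintype.piFinset (fun _ : J => range A) := by
    intro k _
    rw [Fintype.mem_piFinset]
    intro s
    rw [mem_range]
    simp only [hf]
    rw [Nat.div_lt_iff_lt_mul hT]
    exact Nat.mul_lt_mul_of_pos_left (Nat.mod_lt _ hT) hA
  have hcard : (Fintype.piFinset (fun _ : J => range A)).card <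
      (range (A ^ J.card + 1)).card := by
    rw [Fintype.card_piFinset, card_range]
    simp
  obtain ⟨k, hk, k', hk', hne, hfk⟩ := exists_ne_map_eq_of_card_lt_of_maps_to hcard hmaps
  rw [mem_range] at hk hk'
  -- symmetric statement
  have main : ∀ k k' : ℕ, k < k' → k' < A ^ J.card + 1 → f k = f k' →
      ∃ q, 0 < q ∧ q ≤ A ^ J.card ∧ ∃ P : ℕ → ℕ, ∀ s ∈ J,
        (A : ℤ) * |(q : ℤ) * s - P s * T| < T := by
    intro k k' hlt hk' hfk
    refine ⟨k' - k, by omega, by omega, fun s => k' * s / T - k * s / T, ?_⟩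
    intro s hs
    have h1 : k * s / T ≤ k' * s / T := Nat.div_le_div_right (Nat.mul_le_mul_right _ hlt.le)
    have h2 := Nat.div_add_mod (k * s) T
    have h3 := Nat.div_add_mod (k' * s) T
    have h4 : (((k' - k : ℕ) : ℤ)) * (s : ℤ) - ((k' * s / T - k * s / T : ℕ) : ℤ) * (T : ℤ) =
        ((k' * s % T : ℕ) : ℤ) - ((k * s % T : ℕ) : ℤ) := by
      have h2' : (T : ℤ) * ((k * s / T : ℕ) : ℤ) + ((k * s % T : ℕ) : ℤ) = k * s := by
        exact_mod_cast h2
      have h3' : (T : ℤ) * ((k' * s / T : ℕ) : ℤ) + ((k' * s % T : ℕ) : ℤ) = k' * s := by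
        exact_mod_cast h3
      rw [Nat.cast_sub hlt.le, Nat.cast_sub h1]
      linear_combination h2' - h3'
    rw [h4]
    have h5 : A * ((k * s) % T) / T = A * ((k' * s) % T) / T := congrFun hfk ⟨s, hs⟩
    set x := (k' * s) % T
    set y := (k * s) % T
    set c := A * y / T with hc
    have hx1 : T * c ≤ A * x := by rw [h5]; exact Nat.mul_div_le _ _
    have hx2 : A * x < T * (c + 1) := by rw [h5]; exact Nat.lt_mul_div_succ _ hT
    have hy1 : T * c ≤ A * y := Nat.mul_div_le _ _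
    have hy2 : A * y < T * (c + 1) := Nat.lt_mul_div_succ _ hT
    have h6 : (A : ℤ) * |(x : ℤ) - y| = |(A : ℤ) * x - A * y| := by
      rw [← mul_sub, abs_mul, abs_of_nonneg (by positivity : (0 : ℤ) ≤ A)]
    rw [h6, abs_lt]
    have hx1' : (T : ℤ) * c ≤ A * x := by exact_mod_cast hx1
    have hx2' : (A : ℤ) * x < T * (c + 1) := by exact_mod_cast hx2
    have hy1' : (T : ℤ) * c ≤ A * y := by exact_mod_cast hy1
    have hy2' : (A : ℤ) * y < T * (c + 1) := by exact_mod_cast hy2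
    constructor <;> nlinarith
  rcases lt_or_gt_of_ne hne with h | h
  · exact main k k' h hk' hfk
  · exact main k' k h hk hfk.symm

theorem places_bounds {p : ℕ} (T A q s Q : ℕ) (hT : 0 < T) (hA : 0 < A) (hs1 : T < s) (hs2 : s < p * T)
    (h : (A : ℤ) * |(q : ℤ) * s - Q * T| < T) : q ≤ Q ∧ Q ≤ p * q := by
  have hA' : (1 : ℤ) ≤ A := by exact_mod_cast hA
  have h1 : |(q : ℤ) * s - Q * T| < T := by
    have := abs_nonneg ((q : ℤ) * s - Q * T)
    nlinarith
  rw [abs_lt] at h1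
  obtain ⟨h2, h3⟩ := h1
  have hT' : (0 : ℤ) < T := by exact_mod_cast hT
  have hs1' : (T : ℤ) ≤ s := by exact_mod_cast hs1.le
  have hs2' : (s : ℤ) ≤ p * T := by exact_mod_cast hs2.le
  have hq' : (0 : ℤ) ≤ q := by positivity
  constructor
  · have h4 : (q : ℤ) * T < (Q + 1) * T := by nlinarith [mul_le_mul_of_nonneg_left hs1' hq']
    have h5 : (q : ℤ) < Q + 1 := lt_of_mul_lt_mul_right h4 hT'.le
    have : (q : ℤ) ≤ Q := by linarith
    exact_mod_cast this
  · have h4 : (Q : ℤ) * T < (p * q + 1) * T := by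
      nlinarith [mul_le_mul_of_nonneg_left hs2' hq']
    have h5 : (Q : ℤ) < p * q + 1 := lt_of_mul_lt_mul_right h4 hT'.le
    have : (Q : ℤ) ≤ p * q := by linarith
    exact_mod_cast this

variable {p : ℕ} [hpF : Fact p.Prime]

theorem card_bad3 (B : PowerSeries (ZMod p)) (T j N q A : ℕ) (hT : 0 < T) (hq : 0 < q)
    (hA : 0 < A) (P : ℕ → ℕ) (hP0 : P 0 = 0)
    (hP : ∀ s ∈ idx B T, (A : ℤ) * |(q : ℤ) * s - P s * T| ≤ T)
    (W : Finset ℕ) (hW : W = open Classical in {R ∈ range N |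
      ps ((cont B T id (j + 2) : PowerSeries (ZMod p)) ^ 2) R ≠
      ps ((cont B T P (j + 2) : PowerSeries (ZMod p)) ^ 2) (R * q / T)}) :
    W.card ≤ (big B T (j + 2)).card ^ 2 * (2 * p ^ (j + 1) * T / (A * q) + 1) := by
  classical
  have hp0 : 0 < p := hpF.out.pos
  set I := big B T (j + 2) with hI
  have happ : ∀ τ ∈ I, (A : ℤ) * |(q : ℤ) * (τ.1 * p ^ τ.2 : ℕ) - (P τ.1 * p ^ τ.2 : ℕ) * T| ≤
      ((p ^ (j + 1) * T : ℕ) : ℤ) := by
    intro τ hτ
    rw [hI, big, mem_insert, mem_product, mem_range] at hτ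
    rcases hτ with rfl | ⟨h1, h2⟩
    · simp only [hP0, Nat.zero_mul, Nat.cast_zero, mul_zero, zero_mul, sub_zero, abs_zero]
      positivity
    · have h3 := hP τ.1 h1
      have h4 : (q : ℤ) * (τ.1 * p ^ τ.2 : ℕ) - (P τ.1 * p ^ τ.2 : ℕ) * T =
          ((q : ℤ) * τ.1 - P τ.1 * T) * (p : ℤ) ^ τ.2 := by push_cast; ring
      have h5 : (0 : ℤ) < (p : ℤ) ^ τ.2 := by positivity
      rw [h4, abs_mul, abs_of_pos h5, ← mul_assoc]
      have h6 : (p : ℤ) ^ τ.2 ≤ (p : ℤ) ^ (j + 1) := by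
        have : p ^ τ.2 ≤ p ^ (j + 1) := Nat.pow_le_pow_right hp0 (by omega)
        exact_mod_cast this
      calc (A : ℤ) * |(q : ℤ) * τ.1 - P τ.1 * T| * (p : ℤ) ^ τ.2 ≤ T * (p : ℤ) ^ τ.2 :=
            mul_le_mul_of_nonneg_right h3 h5.le
        _ ≤ T * (p : ℤ) ^ (j + 1) := mul_le_mul_of_nonneg_left h6 (by positivity)
        _ = ((p ^ (j + 1) * T : ℕ) : ℤ) := by push_cast; ring
  have h1 : W ⊆ (I ×ˢ I).biUnion (fun y => filter (fun R =>
      min ((y.1.1 * p ^ y.1.2 + y.2.1 * p ^ y.2.2) * q)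
        ((P y.1.1 * p ^ y.1.2 + P y.2.1 * p ^ y.2.2) * T) ≤ R * q ∧
      R * q < max ((y.1.1 * p ^ y.1.2 + y.2.1 * p ^ y.2.2) * q)
        ((P y.1.1 * p ^ y.1.2 + P y.2.1 * p ^ y.2.2) * T)) (range N)) := by
    intro R hR
    rw [hW, mem_filter] at hR
    rw [mem_biUnion]
    by_contra hcon
    push Not at hcon
    apply hR.2
    unfold cont
    rw [ps_msum_sq, ps_msum_sq]
    apply Finset.sum_congr rfl
    intro τ hτ
    apply Finset.sum_congr rfl
    intro σ hσ
    have h2 := hcon (τ, σ) (mem_product.2 ⟨hτ, hσ⟩)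
    rw [mem_filter, not_and] at h2
    have h3 := h2 hR.1
    simp only at h3
    have h4 : (id τ.1 * p ^ τ.2 + id σ.1 * p ^ σ.2 ≤ R) ↔
        (P τ.1 * p ^ τ.2 + P σ.1 * p ^ σ.2 ≤ R * q / T) := by
      rw [Nat.le_div_iff_mul_le hT]
      simp only [id]
      have h5 : (τ.1 * p ^ τ.2 + σ.1 * p ^ σ.2 ≤ R) ↔
          (τ.1 * p ^ τ.2 + σ.1 * p ^ σ.2) * q ≤ R * q :=
        ⟨fun h => Nat.mul_le_mul_right _ h, fun h => Nat.le_of_mul_le_mul_right h hq⟩
      rw [h5]
      rw [min_le_iff, lt_max_iff] at h3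
      omega
    simp only [h4]
  refine le_trans (card_le_card h1) (le_trans card_biUnion_le ?_)
  have h2 : ∀ y ∈ I ×ˢ I, (filter (fun R =>
      min ((y.1.1 * p ^ y.1.2 + y.2.1 * p ^ y.2.2) * q)
        ((P y.1.1 * p ^ y.1.2 + P y.2.1 * p ^ y.2.2) * T) ≤ R * q ∧
      R * q < max ((y.1.1 * p ^ y.1.2 + y.2.1 * p ^ y.2.2) * q)
        ((P y.1.1 * p ^ y.1.2 + P y.2.1 * p ^ y.2.2) * T)) (range N)).card ≤
      2 * p ^ (j + 1) * T / (A * q) + 1 := by
    intro y hy
    rw [mem_product] at hy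
    have ha := happ y.1 hy.1
    have hb := happ y.2 hy.2
    rw [← Nat.div_div_eq_div_mul]
    apply card_between q N _ _ _ hq
    set u := (y.1.1 * p ^ y.1.2 + y.2.1 * p ^ y.2.2) * q with hu
    set v := (P y.1.1 * p ^ y.1.2 + P y.2.1 * p ^ y.2.2) * T with hv
    have h3 : (A : ℤ) * |(u : ℤ) - v| ≤ ((2 * p ^ (j + 1) * T : ℕ) : ℤ) := by
      have h4 : (u : ℤ) - v = ((q : ℤ) * (y.1.1 * p ^ y.1.2 : ℕ) - (P y.1.1 * p ^ y.1.2 : ℕ) * T) +
          ((q : ℤ) * (y.2.1 * p ^ y.2.2 : ℕ) - (P y.2.1 * p ^ y.2.2 : ℕ) * T) := by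
        rw [hu, hv]; push_cast; ring
      rw [h4]
      have h5 := abs_add_le ((q : ℤ) * (y.1.1 * p ^ y.1.2 : ℕ) - (P y.1.1 * p ^ y.1.2 : ℕ) * T)
        ((q : ℤ) * (y.2.1 * p ^ y.2.2 : ℕ) - (P y.2.1 * p ^ y.2.2 : ℕ) * T)
      have hA' : (0 : ℤ) ≤ A := by positivity
      calc _ ≤ (A : ℤ) * (|(q : ℤ) * (y.1.1 * p ^ y.1.2 : ℕ) - (P y.1.1 * p ^ y.1.2 : ℕ) * T| +
          |(q : ℤ) * (y.2.1 * p ^ y.2.2 : ℕ) - (P y.2.1 * p ^ y.2.2 : ℕ) * T|) :=
            mul_le_mul_of_nonneg_left h5 hA'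
        _ ≤ ((p ^ (j + 1) * T : ℕ) : ℤ) + ((p ^ (j + 1) * T : ℕ) : ℤ) := by
            rw [mul_add]; exact add_le_add ha hb
        _ = _ := by push_cast; ring
    have h6 : A * (max u v - min u v) ≤ 2 * p ^ (j + 1) * T := by
      have h7 : ((max u v - min u v : ℕ) : ℤ) = |(u : ℤ) - v| := by
        rcases le_total u v with h | h
        · rw [max_eq_right h, min_eq_left h, Nat.cast_sub h, abs_sub_comm,
            abs_of_nonneg (by exact_mod_cast (sub_nonneg.2 (Nat.cast_le (α := ℤ).2 h)))]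
        · rw [max_eq_left h, min_eq_right h, Nat.cast_sub h,
            abs_of_nonneg (by exact_mod_cast (sub_nonneg.2 (Nat.cast_le (α := ℤ).2 h)))]
      have h8 : ((A * (max u v - min u v) : ℕ) : ℤ) ≤ ((2 * p ^ (j + 1) * T : ℕ) : ℤ) := by
        rw [Nat.cast_mul, h7]; exact h3
      exact_mod_cast h8
    have h9 : max u v - min u v ≤ 2 * p ^ (j + 1) * T / A := by
      rw [Nat.le_div_iff_mul_le hA, mul_comm]; exact h6
    have h10 : min u v ≤ max u v := min_le_max
    omega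
  refine le_trans (Finset.sum_le_sum h2) ?_
  rw [Finset.sum_const, smul_eq_mul, card_product, ← pow_two]

theorem key_ineq (hp2 : p ≠ 2) (n : ZMod p) (hn : n ^ ((p - 1) / 2) = -1)
    (B : PowerSeries (ZMod p)) (j T : ℕ) (hT : 0 < T) (S E : Finset ℕ)
    (hS : ∀ i, i < 3 * p ^ (j + 1) * T → PowerSeries.coeff i B ≠ 0 → i ∈ S)
    (hgood : ∀ R, R < 3 * p ^ (j + 1) * T → R ∉ E →
      ps (B ^ 2) R = n ∧ ps B (R / p) = - ps B R)
    (A Q : ℕ) (hA : 0 < A) (hQ : 1 + ((jumps B T).card + 1) * (j + 2) ≤ Q) :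
    ∃ q, 0 < q ∧ q ≤ A ^ (jumps B T).card ∧
      p ^ j * (T / q) ≤ E.card + (S.card + Q) * (T + 2 * p ^ j * E.card) +
        Q ^ 2 * (2 * p ^ (j + 1) * T / (A * q) + 1) := by
  classical
  have hp0 : 0 < p := hpF.out.pos
  have hp3 : 3 ≤ p := by have := hpF.out.two_le; omega
  obtain ⟨q, hq0, hqA, P₀, hP₀⟩ := dirichlet (jumps B T) T A hT hA
  refine ⟨q, hq0, hqA, ?_⟩
  set N := 3 * p ^ (j + 1) * T with hN
  set P : ℕ → ℕ := fun s => if s = 0 then 0 else if s = p * T then p * q else P₀ s with hP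
  have hP0 : P 0 = 0 := by simp [hP]
  have hPcases : ∀ s ∈ idx B T, (s = p * T ∧ P s = p * q) ∨
      (s ∈ jumps B T ∧ P s = P₀ s ∧ T < s ∧ s < p * T) := by
    intro s hs
    have hs' := idx_pos B T hT s hs
    unfold idx at hs
    rw [mem_insert] at hs
    rcases hs with h | h
    · left
      refine ⟨h, ?_⟩
      simp only [hP]
      rw [if_neg (by omega), if_pos h]
    · right
      have hne : s ≠ p * T := fun h' => notMem_jumps B T (h' ▸ h)
      refine ⟨h, ?_, hs'.1, lt_of_le_of_ne hs'.2 hne⟩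
      simp only [hP]
      rw [if_neg (by omega), if_neg hne]
  have hPb : ∀ s ∈ idx B T, q ≤ P s ∧ P s ≤ p * q := by
    intro s hs
    rcases hPcases s hs with ⟨_, h2⟩ | ⟨h1, h2, h3, h4⟩
    · rw [h2]; exact ⟨Nat.le_mul_of_pos_left q hp0, le_rfl⟩
    · rw [h2]; exact places_bounds T A q s (P₀ s) hT hA h3 h4 (hP₀ s h1)
  have hPa : ∀ s ∈ idx B T, (A : ℤ) * |(q : ℤ) * s - P s * T| ≤ T := by
    intro s hs
    rcases hPcases s hs with ⟨h1, h2⟩ | ⟨h1, h2, h3, h4⟩
    · rw [h2, h1]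
      have : (q : ℤ) * ((p * T : ℕ) : ℤ) - ((p * q : ℕ) : ℤ) * T = 0 := by push_cast; ring
      rw [this]; simp
    · rw [h2]; exact (hP₀ s h1).le
  set M := p ^ j * (2 * p * q + 1) with hM
  set bad := {R ∈ range M | ps ((cont B T P (j + 2) : PowerSeries (ZMod p)) ^ 2) R ≠ n}
    with hbad
  have hbadcard : p ^ j ≤ bad.card :=
    zeros_model hp2 n hn B T hT P hP0 q hq0 (fun s hs => (hPb s hs).1)
      (fun s hs => (hPb s hs).2) j
  set W2 := {R ∈ range N | ps ((cont B T id (j + 2) : PowerSeries (ZMod p)) ^ 2) R ≠ n} with hW2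
  set W3 := {R ∈ range N | ps ((cont B T id (j + 2) : PowerSeries (ZMod p)) ^ 2) R ≠
      ps ((cont B T P (j + 2) : PowerSeries (ZMod p)) ^ 2) (R * q / T)} with hW3
  have hc2 : W2.card ≤ E.card + (S.card + (big B T (j + 2)).card) *
      (diffs B T (j + 2) N).card :=
    card_bad2 B n T (j + 2) N S E hS (fun R hR hRE => (hgood R hR hRE).1) W2
      hW2
  have hNle : N ≤ p ^ (j + 2) * T := by
    rw [hN]
    calc 3 * p ^ (j + 1) * T ≤ p * p ^ (j + 1) * T :=
          Nat.mul_le_mul_right _ (Nat.mul_le_mul_right _ hp3)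
      _ = p ^ (j + 2) * T := by ring
  have hcd : (diffs B T (j + 2) N).card ≤ T + 2 * p ^ j * E.card :=
    card_diffs B T j N hT hNle E (fun R hR hRE => (hgood R hR hRE).2)
  have hc3 : W3.card ≤ (big B T (j + 2)).card ^ 2 * (2 * p ^ (j + 1) * T / (A * q) + 1) :=
    card_bad3 B T j N q A hT hq0 hA P hP0 hPa W3 hW3
  have hbig : (big B T (j + 2)).card ≤ Q := le_trans (card_big B T (j + 2)) hQ
  -- the fibres
  set V' := filter (fun R => R * q / T ∈ bad) (range N) with hV'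
  have hV1 : V' ⊆ W2 ∪ W3 := by
    intro R hR
    rw [hV', mem_filter, hbad, mem_filter] at hR
    rw [mem_union, hW2, hW3, mem_filter, mem_filter]
    by_cases h : ps ((cont B T id (j + 2) : PowerSeries (ZMod p)) ^ 2) R = n
    · right
      refine ⟨hR.1, ?_⟩
      rw [h]
      exact fun h' => hR.2.2 h'.symm
    · left
      exact ⟨hR.1, h⟩
  have hV2 : p ^ j * (T / q) ≤ V'.card := by
    have h1 : V'.card = ∑ r ∈ bad, (filter (fun R => R * q / T = r) V').card := by
      apply card_eq_sum_card_fiberwise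
      intro R hR
      rw [Finset.mem_coe, hV', mem_filter] at hR
      exact hR.2
    rw [h1]
    calc p ^ j * (T / q) ≤ bad.card * (T / q) := Nat.mul_le_mul_right _ hbadcard
      _ = ∑ r ∈ bad, T / q := by rw [Finset.sum_const, smul_eq_mul]
      _ ≤ _ := by
          apply Finset.sum_le_sum
          intro r hr
          have hrM : r < M := by
            rw [hbad, mem_filter, mem_range] at hr
            exact hr.1
          have hle : (r + 1) * T ≤ N * q := by
            calc (r + 1) * T ≤ M * T := Nat.mul_le_mul_right _ hrM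
              _ ≤ (p ^ j * (3 * p * q)) * T := by
                  apply Nat.mul_le_mul_right
                  rw [hM]
                  apply Nat.mul_le_mul_left
                  have : 1 ≤ p * q := Nat.mul_pos hp0 hq0
                  calc 2 * p * q + 1 = 2 * (p * q) + 1 := by rw [mul_assoc]
                    _ ≤ 3 * (p * q) := by omega
                    _ = 3 * p * q := by rw [mul_assoc]
              _ = N * q := by rw [hN]; ring
          refine le_trans (card_ge_fiber q T N r hq0 hle) (card_le_card ?_)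
          intro R hR
          rw [mem_filter] at hR
          rw [mem_filter, hV', mem_filter]
          refine ⟨⟨hR.1, ?_⟩, hR.2⟩
          rw [hR.2]; exact hr
  calc p ^ j * (T / q) ≤ V'.card := hV2
    _ ≤ (W2 ∪ W3).card := card_le_card hV1
    _ ≤ W2.card + W3.card := card_union_le _ _
    _ ≤ (E.card + (S.card + Q) * (T + 2 * p ^ j * E.card)) +
        Q ^ 2 * (2 * p ^ (j + 1) * T / (A * q) + 1) := by
        apply Nat.add_le_add
        · refine le_trans hc2 (Nat.add_le_add_left ?_ _)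
          exact Nat.mul_le_mul (Nat.add_le_add_left hbig _) hcd
        · exact le_trans hc3 (Nat.mul_le_mul_right _ (Nat.pow_le_pow_left hbig 2))

end

end Pool.Agent.K7.H59.DC
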