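import Pool.Agent.K7.H59.DC.Key

/-!
The key inequality for a window function that agrees with the partial sums only at most places.
-/

namespace Pool.Agent.K7.H59.DC

open Finset Polynomial

noncomputable section

variable {p : ℕ} [hpF : Fact p.Prime]

/-- The places where the continuation of `A` differs from `B`. -/
def diffs2 (A B : PowerSeries (ZMod p)) (T L N : ℕ) : Finset ℕ :=
  open Classical in {R ∈ range N | ps (cont A T id L : PowerSeries (ZMod p)) R ≠ ps B R}

theorem card_diffs2 (A B : PowerSeries (ZMod p)) (T j N : ℕ) (hT : 0 < T)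
    (hN : N ≤ p ^ (j + 2) * T) (E W0 : Finset ℕ)
    (hgood : ∀ R, R < N → R ∉ E → ps B (R / p) = - ps B R)
    (hW0 : ∀ R, T ≤ R → R < p * T → R ∉ W0 → ps A R = ps B R) :
    (diffs2 A B T (j + 2) N).card ≤ T + 2 * p ^ j * E.card + 2 * p ^ (j + 1) * W0.card := by
  classical
  have hp0 : 0 < p := hpF.out.pos
  have h1 : diffs2 A B T (j + 2) N ⊆ (range T ∪
      (range (j + 1)).biUnion (fun i => filter (fun R => R / p ^ i ∈ E) (range N))) ∪
      (range (j + 2)).biUnion (fun i => filter (fun R => R / p ^ i ∈ W0) (range N)) := by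
    intro R hR
    unfold diffs2 at hR
    rw [mem_filter, mem_range] at hR
    rw [mem_union, mem_union, mem_range, mem_biUnion, mem_biUnion]
    by_contra hcon
    push Not at hcon
    obtain ⟨⟨hRT, hall⟩, hall2⟩ := hcon
    apply hR.2
    set k := Nat.log p (R / T) with hk
    have hRT0 : R / T ≠ 0 := by
      have : 1 ≤ R / T := by rw [Nat.le_div_iff_mul_le hT]; omega
      omega
    have hk1 : p ^ k ≤ R / T := Nat.pow_log_le_self p hRT0
    have hk2 : R / T < p ^ (k + 1) := Nat.lt_pow_succ_log_self hpF.out.one_lt _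
    rw [Nat.le_div_iff_mul_le hT] at hk1
    rw [Nat.div_lt_iff_lt_mul hT] at hk2
    have hkL : k < j + 2 := by
      have h2 : p ^ k * T < p ^ (j + 2) * T := lt_of_le_of_lt hk1 (lt_of_lt_of_le hR.1 hN)
      have h3 : p ^ k < p ^ (j + 2) := Nat.lt_of_mul_lt_mul_right h2
      exact (Nat.pow_lt_pow_iff_right hpF.out.one_lt).mp h3
    have hAB : ps A (R / p ^ k) = ps B (R / p ^ k) := by
      apply hW0
      · rw [Nat.le_div_iff_mul_le (pow_pos hp0 k)]
        calc T * p ^ k = p ^ k * T := by ring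
          _ ≤ R := hk1
      · rw [Nat.div_lt_iff_lt_mul (pow_pos hp0 k)]
        calc R < p ^ (k + 1) * T := hk2
          _ = p * T * p ^ k := by ring
      · intro hmem
        apply hall2 k (by rw [mem_range]; exact hkL)
        rw [mem_filter, mem_range]
        exact ⟨hR.1, hmem⟩
    rw [cont_eq_of_level A T hT (j + 2) R k hkL hk1 hk2, hAB,
      chain B N E hgood k R hR.1 (by
        intro i hi hiE
        have := hall i (by rw [mem_range]; omega)
        apply this
        rw [mem_filter, mem_range]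
        exact ⟨hR.1, hiE⟩), ← mul_assoc, ← mul_pow]
    simp
  refine le_trans (card_le_card h1) (le_trans (card_union_le _ _) ?_)
  refine Nat.add_le_add (le_trans (card_union_le _ _) ?_) ?_
  · rw [card_range]
    refine Nat.add_le_add_left (le_trans card_biUnion_le ?_) _
    refine le_trans (Finset.sum_le_sum fun i _ => card_div_mem (p ^ i) N (pow_pos hp0 i) E) ?_
    rw [← Finset.sum_mul]
    exact Nat.mul_le_mul_right _ (sum_pow_le j)
  · refine le_trans card_biUnion_le ?_
    refine le_trans (Finset.sum_le_sum fun i _ => card_div_mem (p ^ i) N (pow_pos hp0 i) W0) ?_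
    rw [← Finset.sum_mul]
    exact Nat.mul_le_mul_right _ (sum_pow_le (j + 1))

theorem card_bad2' (A B : PowerSeries (ZMod p)) (n : ZMod p) (T L N : ℕ) (S E : Finset ℕ)
    (hS : ∀ i, i < N → PowerSeries.coeff i B ≠ 0 → i ∈ S)
    (hgood : ∀ R, R < N → R ∉ E → ps (B ^ 2) R = n)
    (W : Finset ℕ)
    (hW' : W = open Classical in {R ∈ range N |
      ps ((cont A T id L : PowerSeries (ZMod p)) ^ 2) R ≠ n}) :
    W.card ≤ E.card + (S.card + (big A T L).card) * (diffs2 A B T L N).card := by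
  classical
  set S₂ := (big A T L).image (fun τ => τ.1 * p ^ τ.2) with hS₂
  have h1 : W ⊆ E ∪ (S ∪ S₂).biUnion (fun s => (diffs2 A B T L N).image (fun t => t + s)) := by
    intro R hR
    rw [hW', mem_filter, mem_range] at hR
    rw [mem_union, mem_biUnion]
    by_contra hcon
    push Not at hcon
    obtain ⟨hRE, hall⟩ := hcon
    apply hR.2
    rw [← hgood R hR.1 hRE]
    apply ps_sq_eq_of_diffs
    intro i hi hc
    by_contra hne
    have hmem : R - i ∈ diffs2 A B T L N := by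
      unfold diffs2
      rw [mem_filter, mem_range]
      exact ⟨by omega, hne⟩
    have hiS : i ∈ S ∪ S₂ := by
      rw [mem_union]
      by_contra hcon
      push Not at hcon
      apply hc
      rw [map_add]
      have h2 : PowerSeries.coeff i B = 0 := by
        by_contra h3
        exact hcon.1 (hS i (by omega) h3)
      have h3 : PowerSeries.coeff i (cont A T id L : PowerSeries (ZMod p)) = 0 := by
        rw [Polynomial.coeff_coe]
        apply coeff_msum_eq_zero
        intro τ hτ he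
        apply hcon.2
        rw [hS₂, mem_image]
        exact ⟨τ, hτ, he⟩
      rw [h2, h3, add_zero]
    apply hall i hiS
    rw [mem_image]
    exact ⟨R - i, hmem, by omega⟩
  refine le_trans (card_le_card h1) (le_trans (card_union_le _ _) ?_)
  refine Nat.add_le_add_left (le_trans card_biUnion_le ?_) _
  refine le_trans (Finset.sum_le_sum fun s _ => card_image_le) ?_
  rw [Finset.sum_const, smul_eq_mul]
  refine Nat.mul_le_mul_right _ (le_trans (card_union_le _ _) ?_)
  exact Nat.add_le_add_left card_image_le _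

theorem key_ineq2 (hp2 : p ≠ 2) (n : ZMod p) (hn : n ^ ((p - 1) / 2) = -1)
    (A₀ B : PowerSeries (ZMod p)) (j T : ℕ) (hT : 0 < T) (S E W0 : Finset ℕ)
    (hS : ∀ i, i < 3 * p ^ (j + 1) * T → PowerSeries.coeff i B ≠ 0 → i ∈ S)
    (hgood : ∀ R, R < 3 * p ^ (j + 1) * T → R ∉ E →
      ps (B ^ 2) R = n ∧ ps B (R / p) = - ps B R)
    (hW0 : ∀ R, T ≤ R → R < p * T → R ∉ W0 → ps A₀ R = ps B R)
    (A Q : ℕ) (hA : 0 < A) (hQ : 1 + ((jumps A₀ T).card + 1) * (j + 2) ≤ Q) :
    ∃ q, 0 < q ∧ q ≤ A ^ (jumps A₀ T).card ∧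
      p ^ j * (T / q) ≤ E.card + (S.card + Q) *
        (T + 2 * p ^ j * E.card + 2 * p ^ (j + 1) * W0.card) +
        Q ^ 2 * (2 * p ^ (j + 1) * T / (A * q) + 1) := by
  classical
  have hp0 : 0 < p := hpF.out.pos
  have hp3 : 3 ≤ p := by have := hpF.out.two_le; omega
  obtain ⟨q, hq0, hqA, P₀, hP₀⟩ := dirichlet (jumps A₀ T) T A hT hA
  refine ⟨q, hq0, hqA, ?_⟩
  set N := 3 * p ^ (j + 1) * T with hN
  set P : ℕ → ℕ := fun s => if s = 0 then 0 else if s = p * T then p * q else P₀ s with hP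
  have hP0 : P 0 = 0 := by simp [hP]
  have hPcases : ∀ s ∈ idx A₀ T, (s = p * T ∧ P s = p * q) ∨
      (s ∈ jumps A₀ T ∧ P s = P₀ s ∧ T < s ∧ s < p * T) := by
    intro s hs
    have hs' := idx_pos A₀ T hT s hs
    unfold idx at hs
    rw [mem_insert] at hs
    rcases hs with h | h
    · left
      refine ⟨h, ?_⟩
      simp only [hP]
      rw [if_neg (by omega), if_pos h]
    · right
      have hne : s ≠ p * T := fun h' => notMem_jumps A₀ T (h' ▸ h)
      refine ⟨h, ?_, hs'.1, lt_of_le_of_ne hs'.2 hne⟩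
      simp only [hP]
      rw [if_neg (by omega), if_neg hne]
  have hPb : ∀ s ∈ idx A₀ T, q ≤ P s ∧ P s ≤ p * q := by
    intro s hs
    rcases hPcases s hs with ⟨_, h2⟩ | ⟨h1, h2, h3, h4⟩
    · rw [h2]; exact ⟨Nat.le_mul_of_pos_left q hp0, le_rfl⟩
    · rw [h2]; exact places_bounds T A q s (P₀ s) hT hA h3 h4 (hP₀ s h1)
  have hPa : ∀ s ∈ idx A₀ T, (A : ℤ) * |(q : ℤ) * s - P s * T| ≤ T := by
    intro s hs
    rcases hPcases s hs with ⟨h1, h2⟩ | ⟨h1, h2, h3, h4⟩
    · rw [h2, h1]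
      have : (q : ℤ) * ((p * T : ℕ) : ℤ) - ((p * q : ℕ) : ℤ) * T = 0 := by push_cast; ring
      rw [this]; simp
    · rw [h2]; exact (hP₀ s h1).le
  set M := p ^ j * (2 * p * q + 1) with hM
  set bad := {R ∈ range M | ps ((cont A₀ T P (j + 2) : PowerSeries (ZMod p)) ^ 2) R ≠ n}
    with hbad
  have hbadcard : p ^ j ≤ bad.card :=
    zeros_model hp2 n hn A₀ T hT P hP0 q hq0 (fun s hs => (hPb s hs).1)
      (fun s hs => (hPb s hs).2) j
  set W2 := {R ∈ range N | ps ((cont A₀ T id (j + 2) : PowerSeries (ZMod p)) ^ 2) R ≠ n} with hW2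
  set W3 := {R ∈ range N | ps ((cont A₀ T id (j + 2) : PowerSeries (ZMod p)) ^ 2) R ≠
      ps ((cont A₀ T P (j + 2) : PowerSeries (ZMod p)) ^ 2) (R * q / T)} with hW3
  have hc2 : W2.card ≤ E.card + (S.card + (big A₀ T (j + 2)).card) *
      (diffs2 A₀ B T (j + 2) N).card :=
    card_bad2' A₀ B n T (j + 2) N S E hS (fun R hR hRE => (hgood R hR hRE).1) W2 hW2
  have hNle : N ≤ p ^ (j + 2) * T := by
    rw [hN]
    calc 3 * p ^ (j + 1) * T ≤ p * p ^ (j + 1) * T :=
          Nat.mul_le_mul_right _ (Nat.mul_le_mul_right _ hp3)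
      _ = p ^ (j + 2) * T := by ring
  have hcd : (diffs2 A₀ B T (j + 2) N).card ≤
      T + 2 * p ^ j * E.card + 2 * p ^ (j + 1) * W0.card :=
    card_diffs2 A₀ B T j N hT hNle E W0 (fun R hR hRE => (hgood R hR hRE).2) hW0
  have hc3 : W3.card ≤ (big A₀ T (j + 2)).card ^ 2 * (2 * p ^ (j + 1) * T / (A * q) + 1) :=
    card_bad3 A₀ T j N q A hT hq0 hA P hP0 hPa W3 hW3
  have hbig : (big A₀ T (j + 2)).card ≤ Q := le_trans (card_big A₀ T (j + 2)) hQ
  -- the fibres
  set V' := filter (fun R => R * q / T ∈ bad) (range N) with hV'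
  have hV1 : V' ⊆ W2 ∪ W3 := by
    intro R hR
    rw [hV', mem_filter, hbad, mem_filter] at hR
    rw [mem_union, hW2, hW3, mem_filter, mem_filter]
    by_cases h : ps ((cont A₀ T id (j + 2) : PowerSeries (ZMod p)) ^ 2) R = n
    · right
      refine ⟨hR.1, ?_⟩
      rw [h]
      exact fun h' => hR.2.2 h'.symm
    · left
      exact ⟨hR.1, h⟩
  have hV2 : p ^ j * (T / q) ≤ V'.card := by
    have h1 : V'.card = ∑ r ∈ bad, (filter (fun R => R * q / T = r) V').card := by
      apply card_eq_sum_card_fiberwise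
      intro R hR
      rw [Finset.mem_coe, hV', mem_filter] at hR
      exact hR.2
    rw [h1]
    calc p ^ j * (T / q) ≤ bad.card * (T / q) := Nat.mul_le_mul_right _ hbadcard
      _ = ∑ r ∈ bad, T / q := by rw [Finset.sum_const, smul_eq_mul]
      _ ≤ _ := by
          apply Finset.sum_le_sum
          intro r hr
          have hrM : r < M := by
            rw [hbad, mem_filter, mem_range] at hr
            exact hr.1
          have hle : (r + 1) * T ≤ N * q := by
            calc (r + 1) * T ≤ M * T := Nat.mul_le_mul_right _ hrM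
              _ ≤ (p ^ j * (3 * p * q)) * T := by
                  apply Nat.mul_le_mul_right
                  rw [hM]
                  apply Nat.mul_le_mul_left
                  have : 1 ≤ p * q := Nat.mul_pos hp0 hq0
                  calc 2 * p * q + 1 = 2 * (p * q) + 1 := by rw [mul_assoc]
                    _ ≤ 3 * (p * q) := by omega
                    _ = 3 * p * q := by rw [mul_assoc]
              _ = N * q := by rw [hN]; ring
          refine le_trans (card_ge_fiber q T N r hq0 hle) (card_le_card ?_)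
          intro R hR
          rw [mem_filter] at hR
          rw [mem_filter, hV', mem_filter]
          refine ⟨⟨hR.1, ?_⟩, hR.2⟩
          rw [hR.2]; exact hr
  calc p ^ j * (T / q) ≤ V'.card := hV2
    _ ≤ (W2 ∪ W3).card := card_le_card hV1
    _ ≤ W2.card + W3.card := card_union_le _ _
    _ ≤ _ := by
        apply Nat.add_le_add
        · refine le_trans hc2 (Nat.add_le_add_left ?_ _)
          exact Nat.mul_le_mul (Nat.add_le_add_left hbig _) hcd
        · exact le_trans hc3 (Nat.mul_le_mul_right _ (Nat.pow_le_pow_left hbig 2))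

omit hpF in
theorem numeric_step2 (T q A m Q K E η : ℕ) (hp : 3 ≤ p) (hT : 0 < T) (hq : 0 < q)
    (hQ : 0 < Q) (hK : 0 < K) (hA : A = 16 * p * Q ^ 2) (hqA : q ≤ A ^ m)
    (h : T * (T / q) ≤ E + (K + Q) * (T + 2 * T * E + 2 * (p * T) * η) +
      Q ^ 2 * (2 * (p * T) * T / (A * q) + 1)) :
    T ≤ A ^ (m + 1) * (K * (1 + 2 * E + 2 * p * η)) := by
  set G := 1 + 2 * E + 2 * p * η with hG
  have hG1 : 1 ≤ G := by rw [hG]; omega
  have hQ2 : 1 ≤ Q ^ 2 := pow_pos hQ 2
  have hA1 : 1 ≤ A := by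
    rw [hA]
    exact Nat.mul_pos (Nat.mul_pos (by norm_num) (by omega)) hQ2
  have hKG : 1 ≤ K * G := Nat.mul_pos hK hG1
  have hA32 : 32 * Q ^ 2 ≤ A := by
    rw [hA]
    calc 32 * Q ^ 2 ≤ 16 * 3 * Q ^ 2 := Nat.mul_le_mul_right _ (by norm_num)
      _ ≤ 16 * p * Q ^ 2 := Nat.mul_le_mul_right _ (Nat.mul_le_mul_left _ hp)
  rcases lt_or_ge T q with hlt | hge
  · calc T ≤ q := hlt.le
      _ ≤ A ^ m := hqA
      _ ≤ A ^ (m + 1) := Nat.pow_le_pow_right hA1 (by omega)
      _ = A ^ (m + 1) * 1 := by ring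
      _ ≤ A ^ (m + 1) * (K * G) := Nat.mul_le_mul_left _ hKG
  · set X := T / q with hX
    set Y := 2 * (p * T) * T / (A * q) with hY
    have hX1 : 1 ≤ X := by rw [hX, Nat.le_div_iff_mul_le hq]; omega
    have hTX : T ≤ 2 * q * X := by
      have h1 := Nat.lt_mul_div_succ T hq
      rw [← hX] at h1
      nlinarith
    have hYb : 8 * (q * Q ^ 2 * Y) ≤ T ^ 2 := by
      have h1 : A * q * Y ≤ 2 * (p * T) * T := Nat.mul_div_le _ _
      rw [hA] at h1
      have h2 : 2 * p * (8 * (q * Q ^ 2 * Y)) ≤ 2 * p * T ^ 2 := by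
        calc 2 * p * (8 * (q * Q ^ 2 * Y)) = 16 * p * Q ^ 2 * q * Y := by ring
          _ ≤ 2 * (p * T) * T := h1
          _ = 2 * p * T ^ 2 := by ring
      exact Nat.le_of_mul_le_mul_left h2 (by omega)
    have hTG : T + 2 * T * E + 2 * (p * T) * η = T * G := by rw [hG]; ring
    rw [hTG] at h
    have h1 : T ^ 2 ≤ 2 * q * (E + (K + Q) * (T * G) + Q ^ 2) + 2 * (q * Q ^ 2 * Y) := by
      calc T ^ 2 = T * T := by ring
        _ ≤ T * (2 * q * X) := Nat.mul_le_mul_left _ hTX
        _ = 2 * q * (T * X) := by ring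
        _ ≤ 2 * q * (E + (K + Q) * (T * G) + Q ^ 2 * (Y + 1)) :=
            Nat.mul_le_mul_left _ h
        _ = _ := by ring
    have h2 : 3 * T ^ 2 ≤ 8 * q * (E + (K + Q) * (T * G) + Q ^ 2) := by nlinarith
    have h3 : E + (K + Q) * (T * G) + Q ^ 2 ≤ T * (4 * (K * Q ^ 2 * G)) := by
      have hKQ : 1 ≤ K * Q ^ 2 := Nat.mul_pos hK hQ2
      have e1 : E ≤ T * (K * Q ^ 2 * G) := by
        have hEG : E ≤ G := by rw [hG]; omega
        calc E ≤ G := hEG
          _ = 1 * (1 * G) := by ring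
          _ ≤ T * (K * Q ^ 2 * G) := Nat.mul_le_mul hT (Nat.mul_le_mul_right _ hKQ)
      have e2 : Q ^ 2 ≤ T * (K * Q ^ 2 * G) := by
        calc Q ^ 2 = 1 * (1 * Q ^ 2 * 1) := by ring
          _ ≤ T * (K * Q ^ 2 * G) :=
            Nat.mul_le_mul hT (Nat.mul_le_mul (Nat.mul_le_mul_right _ hK) hG1)
      have e3 : (K + Q) * (T * G) ≤ 2 * (T * (K * Q ^ 2 * G)) := by
        have f2 : K + Q ≤ 2 * (K * Q ^ 2) := by
          have g1 : K ≤ K * Q ^ 2 := Nat.le_mul_of_pos_right K hQ2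
          have g2 : Q ≤ K * Q ^ 2 := by
            calc Q = 1 * (Q * 1) := by ring
              _ ≤ K * (Q * Q) := Nat.mul_le_mul hK (Nat.mul_le_mul_left _ hQ)
              _ = K * Q ^ 2 := by ring
          omega
        calc (K + Q) * (T * G) ≤ (2 * (K * Q ^ 2)) * (T * G) := Nat.mul_le_mul_right _ f2
          _ = 2 * (T * (K * Q ^ 2 * G)) := by ring
      calc E + (K + Q) * (T * G) + Q ^ 2 ≤
          T * (K * Q ^ 2 * G) + 2 * (T * (K * Q ^ 2 * G)) + T * (K * Q ^ 2 * G) := by omega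
        _ = T * (4 * (K * Q ^ 2 * G)) := by ring
    have h4 : T * T ≤ T * (32 * (q * (K * Q ^ 2 * G))) := by
      have h5 : 8 * q * (E + (K + Q) * (T * G) + Q ^ 2) ≤
          8 * q * (T * (4 * (K * Q ^ 2 * G))) := Nat.mul_le_mul_left _ h3
      have h6 : 8 * q * (T * (4 * (K * Q ^ 2 * G))) = T * (32 * (q * (K * Q ^ 2 * G))) := by ring
      have h7 : T * T ≤ 3 * T ^ 2 := by nlinarith
      omega
    have h5 : T ≤ 32 * (q * (K * Q ^ 2 * G)) := Nat.le_of_mul_le_mul_left h4 hT
    calc T ≤ 32 * (q * (K * Q ^ 2 * G)) := h5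
      _ ≤ 32 * (A ^ m * (K * Q ^ 2 * G)) :=
          Nat.mul_le_mul_left _ (Nat.mul_le_mul_right _ hqA)
      _ = 32 * Q ^ 2 * (A ^ m * (K * G)) := by ring
      _ ≤ A * (A ^ m * (K * G)) := Nat.mul_le_mul_right _ hA32
      _ = A ^ (m + 1) * (K * G) := by ring

/-- The window estimate with a window function that is only approximately right. -/
theorem window_estimate2 (hp2 : p ≠ 2) (n : ZMod p) (hn : n ^ ((p - 1) / 2) = -1)
    (A₀ B : PowerSeries (ZMod p)) (j : ℕ) (S E W0 : Finset ℕ) (hS0 : 0 ∈ S)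
    (hS : ∀ i, i < 3 * p ^ (2 * j + 1) → PowerSeries.coeff i B ≠ 0 → i ∈ S)
    (hgood : ∀ R, R < 3 * p ^ (2 * j + 1) → R ∉ E →
      ps (B ^ 2) R = n ∧ ps B (R / p) = - ps B R)
    (hW0 : ∀ R, p ^ j ≤ R → R < p * p ^ j → R ∉ W0 → ps A₀ R = ps B R)
    (m : ℕ) (hm : (jumps A₀ (p ^ j)).card ≤ m) :
    p ^ j ≤ (16 * p * (1 + (m + 1) * (j + 2)) ^ 2) ^ (m + 1) *
      (S.card * (1 + 2 * E.card + 2 * p * W0.card)) := by
  have hp3 : 3 ≤ p := by have := hpF.out.two_le; omega
  have hp0 : 0 < p := hpF.out.pos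
  have hT : 0 < p ^ j := pow_pos hp0 j
  have hN : 3 * p ^ (j + 1) * p ^ j = 3 * p ^ (2 * j + 1) := by
    rw [mul_assoc, ← pow_add]; congr 2; ring
  set Q := 1 + (m + 1) * (j + 2) with hQ
  obtain ⟨q, hq0, hqA, hmain⟩ := key_ineq2 hp2 n hn A₀ B j (p ^ j) hT S E W0
    (by rw [hN]; exact hS) (by rw [hN]; exact hgood) hW0 (16 * p * Q ^ 2) Q
    (by positivity) (by
      rw [hQ]
      exact Nat.add_le_add_left (Nat.mul_le_mul_right _ (by omega)) _)
  have hKpos : 0 < S.card := card_pos.2 ⟨0, hS0⟩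
  apply numeric_step2 (p ^ j) q (16 * p * Q ^ 2) m Q S.card E.card W0.card hp3 hT hq0
    (by positivity) hKpos rfl (le_trans hqA (Nat.pow_le_pow_right (by positivity) hm))
  refine le_trans hmain (le_of_eq ?_)
  have e1 : 2 * p ^ (j + 1) * p ^ j = 2 * (p * p ^ j) * p ^ j := by ring
  have e2 : 2 * p ^ (j + 1) * W0.card = 2 * (p * p ^ j) * W0.card := by ring
  rw [e1, e2]

end

end Pool.Agent.K7.H59.DC
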