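import Pool.Agent.K7.H59.DC.Events
import Pool.Agent.K7.H59.DC.Final

/-!
The progressions of nonzero places given by one prime.
-/

namespace Pool.Agent.K7.H59.DC

open Finset Polynomial

noncomputable section

theorem pow_eight_le (i : ℕ) (hi : 64 ≤ i) : i ^ 8 ≤ 2 ^ i := by
  induction i, hi using Nat.le_induction with
  | base => norm_num
  | succ i hi ih =>
    have h1 : (i + 1) ^ 8 ≤ 2 * i ^ 8 := by
      have h2 : (64 * (i + 1)) ^ 8 ≤ (65 * i) ^ 8 := Nat.pow_le_pow_left (by omega) 8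
      rw [mul_pow, mul_pow] at h2
      have h3 : (65 : ℕ) ^ 8 * i ^ 8 ≤ 2 * 64 ^ 8 * i ^ 8 := Nat.mul_le_mul_right _ (by norm_num)
      have h4 : 64 ^ 8 * (i + 1) ^ 8 ≤ 64 ^ 8 * (2 * i ^ 8) := by
        calc 64 ^ 8 * (i + 1) ^ 8 ≤ 65 ^ 8 * i ^ 8 := h2
          _ ≤ 2 * 64 ^ 8 * i ^ 8 := h3
          _ = 64 ^ 8 * (2 * i ^ 8) := by ring
      exact Nat.le_of_mul_le_mul_left h4 (by norm_num)
    rw [pow_succ 2 i]
    omega

theorem lin_le (h : ℕ) (hh : 32 ≤ h) : 122 * (2 * h + 1) ≤ 2 ^ h := by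
  induction h, hh using Nat.le_induction with
  | base => norm_num
  | succ h hh ih => rw [pow_succ]; omega

theorem places_mono (ε : ℕ → ℤ) {m n : ℕ} (h : m ≤ n) : places ε m ⊆ places ε n := by
  unfold places
  apply insert_subset_insert
  intro k hk
  rw [mem_filter, mem_range] at hk ⊢
  exact ⟨by omega, hk.2⟩

theorem log_close (A l w : ℝ) (hw : 0 < w) (hl : 2 ≤ l) (h1 : l * w < A + w)
    (h2 : A < (l + 1) * w) : |Real.log A - Real.log (l * w)| ≤ 1 / (l - 1) := by
  have hl0 : 0 < l := by linarith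
  have hA : (l - 1) * w < A := by linarith
  have hA0 : 0 < A := lt_trans (mul_pos (by linarith) hw) hA
  have hlw : 0 < l * w := mul_pos hl0 hw
  rw [abs_le]
  constructor
  · have h3 := Real.log_le_sub_one_of_pos (div_pos hlw hA0)
    rw [Real.log_div hlw.ne' hA0.ne'] at h3
    have h4 : l * w / A - 1 ≤ 1 / (l - 1) := by
      rw [div_sub_one hA0.ne', div_le_div_iff₀ hA0 (by linarith)]
      nlinarith
    linarith
  · have h3 := Real.log_le_sub_one_of_pos (div_pos hA0 hlw)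
    rw [Real.log_div hA0.ne' hlw.ne'] at h3
    have h4 : A / (l * w) - 1 ≤ 1 / (l - 1) := by
      rw [div_sub_one hlw.ne', div_le_div_iff₀ hlw (by linarith)]
      nlinarith
    linarith

variable {p : ℕ} [hpF : Fact p.Prime]

theorem lines_of_prime (hp2 : p ≠ 2) (b : ℕ) (hb : 2 ≤ b) (hpb : (b : ZMod p) ≠ 0) (C : ℕ)
    (ε : ℕ → ℤ) (hε : ∀ k, |ε k| ≤ C) (x : ℝ)
    (hx : HasSum (fun k => (ε k : ℝ) / (b : ℝ) ^ k) x) (D : ℤ) (hD : x ^ 2 = D)
    (hn : (D : ZMod p) ^ ((p - 1) / 2) = -1) (i g n L : ℕ) (hi : 64 ≤ i)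
    (hC : 2 * C ^ 2 < 2 ^ i) (hg : i < 2 ^ g) (hg1 : 1 ≤ g) (hpP : 8 * g * p ≤ i)
    (hn' : 4 * g * n ≤ i) (hL : g * L ≤ i)
    (hK : (places ε (2 ^ (122 * i))).card ≤ i ^ 3) :
    ∃ Lp : Finset ℕ, ∃ pt : ℕ → ℕ → ℕ, L ≤ 2 * Lp.card ∧
      (∀ l ∈ Lp, ∀ t, t < n → ε (pt l t) ≠ 0 ∧ pt l t < 2 ^ (122 * i) ∧
        |Real.log (pt l t) + (2 * t : ℕ) * Real.log p - Real.log (l * 2 ^ (2 * i + 2))| ≤
          1 / 2 ^ (50 * i)) ∧
      (∀ l ∈ Lp, ∀ l' ∈ Lp, ∀ t, t < n → ∀ t', t' < n → pt l t = pt l' t' → l = l' ∧ t = t') := by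
  classical
  have hp3 : 3 ≤ p := by have := hpF.out.two_le; omega
  have hp0 : 0 < p := hpF.out.pos
  have h8 := pow_eight_le i hi
  have hi1 : 1 ≤ i := by omega
  have hgp : 8 * p ≤ i := by
    calc 8 * p = 8 * 1 * p := by ring
      _ ≤ 8 * g * p := Nat.mul_le_mul_right _ (Nat.mul_le_mul_left _ hg1)
      _ ≤ i := hpP
  have hi2i : i ≤ 2 ^ i := (Nat.lt_two_pow_self).le
  have hp2i : p ≤ 2 ^ i := by omega
  have hi7 : 1 ≤ i ^ 7 := Nat.one_le_pow _ _ hi1
  have h3i : 3 * i ≤ 2 ^ i := by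
    refine le_trans ?_ h8
    have h1 : 3 ≤ i ^ 7 := by
      calc 3 ≤ i ^ 1 := by rw [pow_one]; omega
        _ ≤ i ^ 7 := Nat.pow_le_pow_right hi1 (by norm_num)
    calc 3 * i ≤ i ^ 7 * i := Nat.mul_le_mul_right _ h1
      _ = i ^ 8 := by ring
  set w := 2 ^ (2 * i + 2) with hw
  set N := 2 ^ (121 * i) with hN
  set j := Nat.log p (2 ^ (60 * i)) with hj
  set T := p ^ j with hT
  have hTle : T ≤ 2 ^ (60 * i) := Nat.pow_log_le_self p (by positivity)
  have hTlt : 2 ^ (60 * i) < p ^ (j + 1) := Nat.lt_pow_succ_log_self hpF.out.one_lt _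
  have hT59 : 2 ^ (59 * i) < T := by
    have h1 : 2 ^ i * 2 ^ (59 * i) < 2 ^ i * T := by
      calc 2 ^ i * 2 ^ (59 * i) = 2 ^ (60 * i) := by rw [← pow_add]; congr 1; ring
        _ < p ^ (j + 1) := hTlt
        _ = p * T := by rw [hT]; ring
        _ ≤ 2 ^ i * T := Nat.mul_le_mul_right _ hp2i
    exact Nat.lt_of_mul_lt_mul_left h1
  have hT0 : 0 < T := pow_pos hp0 j
  have hpT : p * T ≤ 2 ^ (61 * i) := by
    calc p * T ≤ 2 ^ i * 2 ^ (60 * i) := Nat.mul_le_mul hp2i hTle
      _ = 2 ^ (61 * i) := by rw [← pow_add]; congr 1; ring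
  have hN3 : 3 * p ^ (2 * j + 1) ≤ N := by
    calc 3 * p ^ (2 * j + 1) = 3 * p * (T * T) := by rw [hT]; ring
      _ ≤ 2 ^ i * (2 ^ (60 * i) * 2 ^ (60 * i)) :=
          Nat.mul_le_mul (by omega) (Nat.mul_le_mul hTle hTle)
      _ = N := by rw [hN, ← pow_add, ← pow_add]; congr 1; ring
  set Lam := 122 * i with hLam
  have hbig : 122 * i + 3 ≤ N := by
    have h1 : 122 * i + 3 ≤ 125 * i := by omega
    have h2 : 125 * i ≤ i ^ 8 := by
      calc 125 * i ≤ i ^ 7 * i := Nat.mul_le_mul_right _ (by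
            calc 125 ≤ 64 ^ 2 := by norm_num
              _ ≤ i ^ 2 := Nat.pow_le_pow_left hi 2
              _ ≤ i ^ 7 := Nat.pow_le_pow_right hi1 (by norm_num))
        _ = i ^ 8 := by ring
    calc 122 * i + 3 ≤ 2 ^ i := by omega
      _ ≤ N := Nat.pow_le_pow_right (by norm_num) (by omega)
  have hΛ : C ^ 2 * (N + Lam + 3) < 2 ^ Lam := by
    calc C ^ 2 * (N + Lam + 3) ≤ C ^ 2 * (2 * N) := Nat.mul_le_mul_left _ (by omega)
      _ = (2 * C ^ 2) * N := by ring
      _ < 2 ^ i * N := Nat.mul_lt_mul_of_pos_right hC (by positivity)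
      _ = 2 ^ Lam := by rw [hN, hLam, ← pow_add]; congr 1; ring
  have hNM : N + Lam ≤ 2 ^ (122 * i) := by
    calc N + Lam ≤ 2 * N := by omega
      _ ≤ 2 ^ i * N := Nat.mul_le_mul_right _ (by omega)
      _ = 2 ^ (122 * i) := by rw [hN, ← pow_add]; congr 1; ring
  obtain ⟨E, hE, hgood⟩ := good_main hp2 b hb hpb C ε hε x hx D hD hn N Lam hΛ
  set S := places ε (N + Lam) with hS
  have hScard : S.card ≤ i ^ 3 := le_trans (card_le_card (places_mono ε hNM)) hK
  have hS0 : 0 ∈ S := by simp [hS, places]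
  have hEcard : E.card ≤ 2 ^ i := by
    have h1 : (i ^ 3) ^ p ≤ 2 ^ (i / 2) := by
      calc (i ^ 3) ^ p ≤ ((2 ^ g) ^ 3) ^ p :=
            Nat.pow_le_pow_left (Nat.pow_le_pow_left hg.le 3) p
        _ = 2 ^ (3 * g * p) := by rw [← pow_mul, ← pow_mul]; congr 1; ring
        _ ≤ 2 ^ (i / 2) := Nat.pow_le_pow_right (by norm_num) (by
            have e1 : 3 * g * p = 3 * (g * p) := by ring
            have e2 : 8 * g * p = 8 * (g * p) := by ring
            omega)
    have h2 : Lam ≤ 2 ^ (i / 2) := by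
      have := lin_le (i / 2) (by omega)
      omega
    calc E.card ≤ S.card ^ p * Lam := hE
      _ ≤ (i ^ 3) ^ p * Lam := Nat.mul_le_mul_right _ (Nat.pow_le_pow_left hScard p)
      _ ≤ 2 ^ (i / 2) * 2 ^ (i / 2) := Nat.mul_le_mul h1 h2
      _ = 2 ^ (i / 2 + i / 2) := by rw [← pow_add]
      _ ≤ 2 ^ i := Nat.pow_le_pow_right (by norm_num) (by omega)
  have hpk : ∀ k, k ≤ 2 * n → p ^ k ≤ 2 ^ i := by
    intro k hk
    calc p ^ k ≤ p ^ (2 * n) := Nat.pow_le_pow_right hp0 hk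
      _ ≤ (2 ^ g) ^ (2 * n) := Nat.pow_le_pow_left (by omega) _
      _ = 2 ^ (2 * g * n) := by rw [← pow_mul]; congr 1; ring
      _ ≤ 2 ^ i := Nat.pow_le_pow_right (by norm_num) (by
          have e1 : 2 * g * n = 2 * (g * n) := by ring
          have e2 : 4 * g * n = 4 * (g * n) := by ring
          omega)
  set U := chainBad p E (2 * n) N with hU
  have hUcard : U.card < w := by
    calc U.card ≤ 2 * p ^ (2 * n) * E.card := card_chainBad E (2 * n) N
      _ ≤ 2 * 2 ^ i * 2 ^ i :=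
          Nat.mul_le_mul (Nat.mul_le_mul_left _ (hpk _ le_rfl)) hEcard
      _ = 2 ^ (2 * i + 1) := by rw [pow_succ, two_mul i, pow_add]; ring
      _ < w := Nat.pow_lt_pow_right (by norm_num) (by omega)
  have hwN : p * p ^ j + 2 * w ≤ N := by
    have h1 : 2 * w ≤ 2 ^ (61 * i) := by
      calc 2 * w = 2 ^ (2 * i + 3) := by rw [hw]; ring
        _ ≤ 2 ^ (61 * i) := Nat.pow_le_pow_right (by norm_num) (by omega)
    calc p * p ^ j + 2 * w ≤ 2 ^ (61 * i) + 2 ^ (61 * i) := Nat.add_le_add hpT h1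
      _ = 2 ^ (61 * i + 1) := by ring
      _ ≤ N := Nat.pow_le_pow_right (by norm_num) (by omega)
  set B := red p b ε with hB
  have hSB : ∀ k, k < N → PowerSeries.coeff k B ≠ 0 → k ∈ S := by
    intro k hk hne
    simp only [hS, places, mem_insert, mem_filter, mem_range]
    right
    refine ⟨by omega, ?_⟩
    intro h0
    apply hne
    rw [hB, coeff_red, h0]; simp
  set ev := events B U T w N with hev
  -- many events
  have hevcard : L ≤ ev.card := by
    by_contra hlt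
    push Not at hlt
    have hest := events_estimate hp2 (D : ZMod p) hn B j N hN3 S E U w hUcard hwN hS0 hSB hgood
      ev.card le_rfl
    set m := ev.card with hm
    have hm1 : m + 1 ≤ L := hlt
    have hLi : L ≤ i := by
      calc L = 1 * L := by ring
        _ ≤ g * L := Nat.mul_le_mul_right _ hg1
        _ ≤ i := hL
    have hj60 : j ≤ 60 * i := by
      have h1 : 2 ^ j ≤ 2 ^ (60 * i) := by
        calc 2 ^ j ≤ p ^ j := Nat.pow_le_pow_left (by omega) j
          _ ≤ 2 ^ (60 * i) := hTle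
      exact (Nat.pow_le_pow_iff_right (by norm_num)).mp h1
    have hQ : 1 + (m + 1) * (j + 2) ≤ i ^ 3 := by
      have h1 : (m + 1) * (j + 2) ≤ i * (60 * i + 2) :=
        Nat.mul_le_mul (by omega) (by omega)
      have h2 : 1 + i * (60 * i + 2) ≤ i ^ 3 := by
        have h3 : 64 * i ^ 2 ≤ i ^ 3 := by
          calc 64 * i ^ 2 ≤ i * i ^ 2 := Nat.mul_le_mul_right _ hi
            _ = i ^ 3 := by ring
        nlinarith
      omega
    have hA : 16 * p * (1 + (m + 1) * (j + 2)) ^ 2 ≤ 2 ^ (8 * g) := by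
      calc 16 * p * (1 + (m + 1) * (j + 2)) ^ 2 ≤ (i * i) * (i ^ 3) ^ 2 := by
            apply Nat.mul_le_mul _ (Nat.pow_le_pow_left hQ 2)
            nlinarith
        _ = i ^ 8 := by ring
        _ ≤ (2 ^ g) ^ 8 := Nat.pow_le_pow_left hg.le 8
        _ = 2 ^ (8 * g) := by rw [← pow_mul]; congr 1; ring
    have hA2 : (16 * p * (1 + (m + 1) * (j + 2)) ^ 2) ^ (m + 1) ≤ 2 ^ (8 * i) := by
      calc (16 * p * (1 + (m + 1) * (j + 2)) ^ 2) ^ (m + 1) ≤ (2 ^ (8 * g)) ^ (m + 1) :=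
            Nat.pow_le_pow_left hA _
        _ ≤ (2 ^ (8 * g)) ^ L := Nat.pow_le_pow_right (by positivity) hm1
        _ = 2 ^ (8 * (g * L)) := by rw [← pow_mul]; congr 1; ring
        _ ≤ 2 ^ (8 * i) := Nat.pow_le_pow_right (by norm_num) (by omega)
    have hrest : S.card * (1 + 2 * E.card + 2 * p * ((m + 1) * w)) ≤ 2 ^ (3 * i) := by
      have h1 : 1 + 2 * E.card + 2 * p * ((m + 1) * w) ≤ i ^ 3 * 2 ^ (2 * i) := by
        have e1 : 2 * E.card ≤ 2 * 2 ^ (2 * i) :=
          Nat.mul_le_mul_left _ (le_trans hEcard (Nat.pow_le_pow_right (by norm_num) (by omega)))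
        have e2 : 2 * p * ((m + 1) * w) ≤ 2 * i * (i * (4 * 2 ^ (2 * i))) := by
          apply Nat.mul_le_mul (by omega)
          apply Nat.mul_le_mul (by omega)
          rw [hw, pow_add]; omega
        have e3 : 1 ≤ 2 ^ (2 * i) := Nat.one_le_two_pow
        have e4 : 3 + 8 * (i * i) ≤ i ^ 3 := by
          have h3 : 64 * i ^ 2 ≤ i ^ 3 := by
            calc 64 * i ^ 2 ≤ i * i ^ 2 := Nat.mul_le_mul_right _ hi
              _ = i ^ 3 := by ring
          nlinarith
        calc 1 + 2 * E.card + 2 * p * ((m + 1) * w) ≤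
            (3 + 8 * (i * i)) * 2 ^ (2 * i) := by nlinarith
          _ ≤ i ^ 3 * 2 ^ (2 * i) := Nat.mul_le_mul_right _ e4
      calc S.card * (1 + 2 * E.card + 2 * p * ((m + 1) * w)) ≤ i ^ 3 * (i ^ 3 * 2 ^ (2 * i)) :=
            Nat.mul_le_mul hScard h1
        _ = i ^ 6 * 2 ^ (2 * i) := by ring
        _ ≤ i ^ 8 * 2 ^ (2 * i) :=
            Nat.mul_le_mul_right _ (Nat.pow_le_pow_right hi1 (by norm_num))
        _ ≤ 2 ^ i * 2 ^ (2 * i) := Nat.mul_le_mul_right _ h8
        _ = 2 ^ (3 * i) := by rw [← pow_add]; congr 1; ring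
    have hcontra : 2 ^ (59 * i) < 2 ^ (11 * i) := by
      calc 2 ^ (59 * i) < T := hT59
        _ ≤ _ := hest
        _ ≤ 2 ^ (8 * i) * 2 ^ (3 * i) := Nat.mul_le_mul hA2 hrest
        _ = 2 ^ (11 * i) := by rw [← pow_add]; congr 1; ring
    have := (Nat.pow_lt_pow_iff_right (by norm_num : 1 < 2)).mp hcontra
    omega
  -- choice of a parity
  obtain ⟨r, hr⟩ : ∃ r, L ≤ 2 * (ev.filter fun l => l % 2 = r).card := by
    have h1 : ev.card ≤ (ev.filter fun l => l % 2 = 0).card + (ev.filter fun l => l % 2 = 1).card := by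
      rw [← card_union_of_disjoint]
      · apply card_le_card
        intro l hl
        rw [mem_union, mem_filter, mem_filter]
        rcases Nat.mod_two_eq_zero_or_one l with h | h
        · exact Or.inl ⟨hl, h⟩
        · exact Or.inr ⟨hl, h⟩
      · rw [Finset.disjoint_left]
        intro l hl hl'
        rw [mem_filter] at hl hl'
        omega
    by_cases h2 : L ≤ 2 * (ev.filter fun l => l % 2 = 0).card
    · exact ⟨0, h2⟩
    · exact ⟨1, by omega⟩
  have hpts : ∀ l, ∀ t, ∃ s, l ∈ ev → t < n → PowerSeries.coeff s B ≠ 0 ∧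
      l * w < s * p ^ (2 * t) + w ∧ s * p ^ (2 * t) < (l + 1) * w := by
    intro l t
    by_cases hl : l ∈ ev
    · by_cases ht : t < n
      · obtain ⟨s, hs⟩ := event_points B E (2 * n) N T w l (fun R hR hRE => (hgood R hR hRE).2)
          hl (2 * t) (by omega)
        exact ⟨s, fun _ _ => hs⟩
      · exact ⟨0, fun _ h => absurd h ht⟩
    · exact ⟨0, fun h => absurd h hl⟩
  choose pt hpt using hpts
  have hw0 : 0 < w := by positivity
  have hw5 : 8 * w ≤ T := by
    calc 8 * w = 2 ^ (2 * i + 5) := by rw [hw]; ring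
      _ ≤ 2 ^ (59 * i) := Nat.pow_le_pow_right (by norm_num) (by omega)
      _ ≤ T := hT59.le
  have hevT : ∀ l ∈ ev, T < (l + 1) * w ∧ l * w ≤ p * T := by
    intro l hl
    rw [hev, mem_events] at hl
    refine ⟨hl.2.1, ?_⟩
    have h1 : l ≤ p * T / w := by omega
    rwa [Nat.le_div_iff_mul_le hw0] at h1
  refine ⟨ev.filter fun l => l % 2 = r, pt, hr, ?_, ?_⟩
  · intro l hl t ht
    rw [mem_filter] at hl
    obtain ⟨h1, h2, h3⟩ := hpt l t hl.1 ht
    obtain ⟨h4, h5⟩ := hevT l hl.1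
    have hppos : 0 < p ^ (2 * t) := pow_pos hp0 _
    refine ⟨?_, ?_, ?_⟩
    · intro h0
      apply h1
      rw [hB, coeff_red, h0]; simp
    · have h6 : pt l t ≤ pt l t * p ^ (2 * t) := Nat.le_mul_of_pos_right _ hppos
      have h7 : (l + 1) * w = l * w + w := by ring
      have h8' : p * T + 2 * w ≤ N := hwN
      have h9 : N ≤ 2 ^ (122 * i) := Nat.pow_le_pow_right (by norm_num) (by omega)
      calc pt l t ≤ pt l t * p ^ (2 * t) := h6
        _ < (l + 1) * w := h3
        _ = l * w + w := h7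
        _ ≤ p * T + w := Nat.add_le_add_right h5 w
        _ ≤ N := by omega
        _ ≤ 2 ^ (122 * i) := h9
    · -- the logarithms
      have hlw : 2 ^ (58 * i) * 2 ≤ l * w := by
        have e1 : (l + 1) * w = l * w + w := by ring
        have e2 : 2 ^ (58 * i) * 2 + w ≤ 2 ^ (59 * i) := by
          have f1 : w ≤ 2 ^ (58 * i) :=
            Nat.pow_le_pow_right (by norm_num) (by omega)
          have f2 : 2 ^ (58 * i) * 4 ≤ 2 ^ (59 * i) := by
            calc 2 ^ (58 * i) * 4 = 2 ^ (58 * i + 2) := by rw [pow_add]; norm_num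
              _ ≤ 2 ^ (59 * i) := Nat.pow_le_pow_right (by norm_num) (by omega)
          omega
        omega
      have hlbig : 2 ^ (50 * i) + 1 ≤ l := by
        by_contra hcon
        push Not at hcon
        have f1 : l * w ≤ 2 ^ (50 * i) * w := Nat.mul_le_mul_right _ (Nat.lt_succ_iff.mp hcon)
        have f2 : 2 ^ (50 * i) * w ≤ 2 ^ (58 * i) := by
          calc 2 ^ (50 * i) * w = 2 ^ (50 * i + (2 * i + 2)) := by rw [hw, ← pow_add]
            _ ≤ 2 ^ (58 * i) := Nat.pow_le_pow_right (by norm_num) (by omega)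
        have f3 : 0 < 2 ^ (58 * i) := by positivity
        omega
      have hpt0 : 0 < pt l t := by
        rcases Nat.eq_zero_or_pos (pt l t) with h | h
        · rw [h, zero_mul, zero_add] at h2
          have h1l : 1 ≤ l := le_trans (Nat.le_add_left 1 _) hlbig
          have : 1 * w ≤ l * w := Nat.mul_le_mul_right _ h1l
          omega
        · exact h
      have hlR : (2 : ℝ) ^ (50 * i) + 1 ≤ l := by exact_mod_cast hlbig
      have h50 : (1 : ℝ) ≤ 2 ^ (50 * i) := one_le_pow₀ (by norm_num)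
      have hcl := log_close ((pt l t : ℝ) * (p : ℝ) ^ (2 * t)) l w (by positivity)
        (by linarith) (by exact_mod_cast h2) (by exact_mod_cast h3)
      rw [Real.log_mul (by positivity) (by positivity), Real.log_pow] at hcl
      rw [hw] at hcl
      push_cast at hcl ⊢
      refine le_trans hcl ?_
      apply one_div_le_one_div_of_le (by positivity)
      linarith
  · intro l hl l' hl' t ht t' ht' he
    rw [mem_filter] at hl hl'
    obtain ⟨_, a2, a3⟩ := hpt l t hl.1 ht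
    obtain ⟨_, b2, b3⟩ := hpt l' t' hl'.1 ht'
    rw [← he] at b2 b3
    obtain ⟨c1, c2⟩ := hevT l hl.1
    obtain ⟨d1, d2⟩ := hevT l' hl'.1
    have key : ∀ l l' t t' s : ℕ, t < t' → l * w < s * p ^ (2 * t) + w → T < (l + 1) * w →
        l' * w ≤ p * T → s * p ^ (2 * t') < (l' + 1) * w → False := by
      intro l l' t t' s hlt h1 h2 h3 h4
      have e1 : s * p ^ (2 * t) * p ^ 2 ≤ s * p ^ (2 * t') := by
        rw [mul_assoc, ← pow_add]
        exact Nat.mul_le_mul_left _ (Nat.pow_le_pow_right hp0 (by omega))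
      have e2 : T < s * p ^ (2 * t) + 2 * w := by
        have : (l + 1) * w = l * w + w := by ring
        omega
      have e3 : s * p ^ (2 * t') < p * T + w := by
        have : (l' + 1) * w = l' * w + w := by ring
        omega
      set y := s * p ^ (2 * t) with hy
      have e4 : y * p ^ 2 < p * T + w := lt_of_le_of_lt e1 e3
      have e5 : 3 * (p * T) ≤ p ^ 2 * T := by
        calc 3 * (p * T) ≤ p * (p * T) := Nat.mul_le_mul_right _ hp3
          _ = p ^ 2 * T := by ring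
      have e6 : p ^ 2 * T ≤ p ^ 2 * (y + 2 * w) := Nat.mul_le_mul_left _ e2.le
      have e7 : p ^ 2 * (8 * w) ≤ p ^ 2 * T := Nat.mul_le_mul_left _ hw5
      have e8 : w ≤ p ^ 2 * w := Nat.le_mul_of_pos_left w (by positivity)
      nlinarith
    have htt : t = t' := by
      rcases lt_trichotomy t t' with h | h | h
      · exact absurd (key l l' t t' (pt l t) h a2 c1 d2 b3) not_false
      · exact h
      · exact absurd (key l' l t' t (pt l t) h b2 d1 c2 a3) not_false
    subst htt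
    refine ⟨?_, rfl⟩
    have e1 : l * w < (l' + 2) * w := by
      have : (l' + 2) * w = (l' + 1) * w + w := by ring
      omega
    have e2 : l' * w < (l + 2) * w := by
      have : (l + 2) * w = (l + 1) * w + w := by ring
      omega
    have e3 := Nat.lt_of_mul_lt_mul_right e1
    have e4 := Nat.lt_of_mul_lt_mul_right e2
    have := hl.2
    have := hl'.2
    omega

end

end Pool.Agent.K7.H59.DC
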