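import Pool.Agent.K7.H59.DC.Compare

/-!
The model with proportional places, and the resulting inequality.
-/

namespace Pool.Agent.K7.H59.DC

open Finset Polynomial

noncomputable section

variable {p : ℕ} [hpF : Fact p.Prime]

theorem ps_sq_eq_of_diffs (f g : PowerSeries (ZMod p)) (R : ℕ)
    (h : ∀ i, i ≤ R → PowerSeries.coeff i (g + f) ≠ 0 → ps g (R - i) = ps f (R - i)) :
    ps (g ^ 2) R = ps (f ^ 2) R := by
  have h1 : g ^ 2 = (g + f) * (g - f) + f ^ 2 := by ring
  rw [h1, ps_add, ps_mul]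
  rw [Finset.sum_eq_zero, zero_add]
  intro i hi
  rw [mem_range] at hi
  by_cases hc : PowerSeries.coeff i (g + f) = 0
  · rw [hc, zero_mul]
  · rw [ps_sub, h i (by omega) hc, sub_self, mul_zero]

theorem card_bad2 (B : PowerSeries (ZMod p)) (n : ZMod p) (T L N : ℕ) (S E : Finset ℕ)
    (hS : ∀ i, i < N → PowerSeries.coeff i B ≠ 0 → i ∈ S)
    (hgood : ∀ R, R < N → R ∉ E → ps (B ^ 2) R = n)
    (W : Finset ℕ)
    (hW' : W = open Classical in {R ∈ range N |
      ps ((cont B T id L : PowerSeries (ZMod p)) ^ 2) R ≠ n}) :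
    W.card ≤ E.card + (S.card + (big B T L).card) * (diffs B T L N).card := by
  classical
  set S₂ := (big B T L).image (fun τ => τ.1 * p ^ τ.2) with hS₂
  have h1 : W ⊆ E ∪ (S ∪ S₂).biUnion (fun s => (diffs B T L N).image (fun t => t + s)) := by
    intro R hR
    rw [hW', mem_filter, mem_range] at hR
    rw [mem_union, mem_biUnion]
    by_contra hcon
    push Not at hcon
    obtain ⟨hRE, hall⟩ := hcon
    apply hR.2
    rw [← hgood R hR.1 hRE]
    apply ps_sq_eq_of_diffs
    intro i hi hc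
    by_contra hne
    have hmem : R - i ∈ diffs B T L N := by
      unfold diffs
      rw [mem_filter, mem_range]
      exact ⟨by omega, hne⟩
    have hiS : i ∈ S ∪ S₂ := by
      rw [mem_union]
      by_contra hcon
      push Not at hcon
      apply hc
      rw [map_add]
      have h2 : PowerSeries.coeff i B = 0 := by
        by_contra h3
        exact hcon.1 (hS i (by omega) h3)
      have h3 : PowerSeries.coeff i (cont B T id L : PowerSeries (ZMod p)) = 0 := by
        rw [Polynomial.coeff_coe]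
        apply coeff_msum_eq_zero
        intro τ hτ he
        apply hcon.2
        rw [hS₂, mem_image]
        exact ⟨τ, hτ, he⟩
      rw [h2, h3, add_zero]
    apply hall i hiS
    rw [mem_image]
    exact ⟨R - i, hmem, by omega⟩
  refine le_trans (card_le_card h1) (le_trans (card_union_le _ _) ?_)
  refine Nat.add_le_add_left (le_trans card_biUnion_le ?_) _
  refine le_trans (Finset.sum_le_sum fun s _ => card_image_le) ?_
  rw [Finset.sum_const, smul_eq_mul]
  refine Nat.mul_le_mul_right _ (le_trans (card_union_le _ _) ?_)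
  exact Nat.add_le_add_left card_image_le _

/-- The full continuation of the moved window. -/
def model (B : PowerSeries (ZMod p)) (T : ℕ) (P : ℕ → ℕ) : PowerSeries (ZMod p) :=
  PowerSeries.mk fun k => (cont B T P (k + 1)).coeff k

theorem cont_succ (B : PowerSeries (ZMod p)) (T : ℕ) (hT : 0 < T) (P : ℕ → ℕ) (hP0 : P 0 = 0)
    (L : ℕ) : cont B T P (L + 1) = cont B T P L + (-1) ^ L * win B T P ^ p ^ L := by
  rw [cont_eq B T hT P hP0, cont_eq B T hT P hP0, Finset.sum_range_succ, add_assoc]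

theorem coeff_win_pow (B : PowerSeries (ZMod p)) (T : ℕ) (P : ℕ → ℕ) (q : ℕ)
    (hP : ∀ s ∈ idx B T, q ≤ P s) (L k : ℕ) (hk : k < q * p ^ L) :
    ((-1) ^ L * win B T P ^ p ^ L).coeff k = 0 := by
  have h1 : ((-1) ^ L : (ZMod p)[X]) = C ((-1) ^ L) := by simp
  unfold win
  rw [h1, Polynomial.coeff_C_mul, msum_pow, coeff_msum_eq_zero, mul_zero]
  intro s hs he
  have := Nat.mul_le_mul_right (p ^ L) (hP s hs)
  omega

theorem coeff_cont_stable (B : PowerSeries (ZMod p)) (T : ℕ) (hT : 0 < T) (P : ℕ → ℕ)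
    (hP0 : P 0 = 0) (q : ℕ) (hP : ∀ s ∈ idx B T, q ≤ P s) (k L₁ L₂ : ℕ) (hL : L₁ ≤ L₂)
    (hk : k < q * p ^ L₁) : (cont B T P L₂).coeff k = (cont B T P L₁).coeff k := by
  induction L₂, hL using Nat.le_induction with
  | base => rfl
  | succ L hL ih =>
    rw [cont_succ B T hT P hP0, Polynomial.coeff_add, ih,
      coeff_win_pow B T P q hP L k (lt_of_lt_of_le hk (Nat.mul_le_mul_left _
        (Nat.pow_le_pow_right hpF.out.pos hL))), add_zero]

theorem coeff_model (B : PowerSeries (ZMod p)) (T : ℕ) (hT : 0 < T) (P : ℕ → ℕ)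
    (hP0 : P 0 = 0) (q : ℕ) (hq : 0 < q) (hP : ∀ s ∈ idx B T, q ≤ P s) (k L : ℕ)
    (hk : k < q * p ^ L) :
    PowerSeries.coeff k (model B T P) = (cont B T P L).coeff k := by
  unfold model
  rw [PowerSeries.coeff_mk]
  have hk2 : k < q * p ^ (k + 1) := by
    calc k < p ^ k := Nat.lt_pow_self hpF.out.one_lt
      _ ≤ p ^ (k + 1) := Nat.pow_le_pow_right hpF.out.pos (by omega)
      _ = 1 * p ^ (k + 1) := by ring
      _ ≤ q * p ^ (k + 1) := Nat.mul_le_mul_right _ hq
  rcases le_total L (k + 1) with h | h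
  · exact coeff_cont_stable B T hT P hP0 q hP k L (k + 1) h hk
  · exact (coeff_cont_stable B T hT P hP0 q hP k (k + 1) L h hk2).symm

theorem cont_pow_add (hp2 : p ≠ 2) (B : PowerSeries (ZMod p)) (T : ℕ) (hT : 0 < T)
    (P : ℕ → ℕ) (hP0 : P 0 = 0) (L : ℕ) :
    cont B T P L ^ p + cont B T P L =
      C (2 * ps B T) + win B T P - (-1) ^ L * win B T P ^ p ^ L := by
  have hodd : Odd p := hpF.out.odd_of_ne_two hp2
  induction L with
  | zero =>
    rw [cont_eq B T hT P hP0]
    simp only [range_zero, Finset.sum_empty, add_zero, pow_zero, one_mul, pow_one]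
    rw [← C_pow, ZMod.pow_card, two_mul, C_add]
    ring
  | succ L ih =>
    rw [cont_succ B T hT P hP0, add_pow_char, mul_pow, ← pow_mul (win B T P), ← pow_succ]
    have h1 : (((-1 : (ZMod p)[X]) ^ L) ^ p) = (-1) ^ L := by
      rw [← pow_mul, mul_comm, pow_mul, hodd.neg_one_pow]
    rw [h1]
    linear_combination ih

theorem model_eq (hp2 : p ≠ 2) (B : PowerSeries (ZMod p)) (T : ℕ) (hT : 0 < T)
    (P : ℕ → ℕ) (hP0 : P 0 = 0) (q : ℕ) (hq : 0 < q) (hP : ∀ s ∈ idx B T, q ≤ P s) :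
    model B T P ^ p + model B T P =
      ((C (2 * ps B T) + win B T P : (ZMod p)[X]) : PowerSeries (ZMod p)) := by
  ext k
  have hk2 : k < q * p ^ (k + 1) := by
    calc k < p ^ k := Nat.lt_pow_self hpF.out.one_lt
      _ ≤ p ^ (k + 1) := Nat.pow_le_pow_right hpF.out.pos (by omega)
      _ = 1 * p ^ (k + 1) := by ring
      _ ≤ q * p ^ (k + 1) := Nat.mul_le_mul_right _ hq
  have h1 : PowerSeries.coeff k (model B T P ^ p) = (cont B T P (k + 1) ^ p).coeff k := by
    have h2 := coeff_pow_expand (p := p) 1 k (model B T P)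
    have h3 := coeff_pow_expand (p := p) 1 k (cont B T P (k + 1) : PowerSeries (ZMod p))
    rw [pow_one] at h2 h3
    rw [← Polynomial.coe_pow, Polynomial.coeff_coe] at h3
    rw [h2, h3]
    split_ifs with hd
    · rw [Polynomial.coeff_coe]
      exact coeff_model B T hT P hP0 q hq hP (k / p) (k + 1)
        (lt_of_le_of_lt (Nat.div_le_self _ _) hk2)
    · rfl
  rw [map_add, h1, coeff_model B T hT P hP0 q hq hP k (k + 1) hk2, ← Polynomial.coeff_add,
    cont_pow_add hp2 B T hT P hP0, Polynomial.coeff_sub,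
    coeff_win_pow B T P q hP (k + 1) k hk2, sub_zero, Polynomial.coeff_coe]

theorem natDegree_rhs (B : PowerSeries (ZMod p)) (T : ℕ) (P : ℕ → ℕ) (q : ℕ)
    (hP : ∀ s ∈ idx B T, P s ≤ p * q) :
    (C (2 * ps B T) + win B T P : (ZMod p)[X]).natDegree ≤ p * q := by
  refine le_trans (Polynomial.natDegree_add_le _ _) (max_le ?_ ?_)
  · rw [natDegree_C]; exact Nat.zero_le _
  · unfold win msum
    apply Polynomial.natDegree_sum_le_of_forall_le
    intro s hs
    refine le_trans (Polynomial.natDegree_C_mul_X_pow_le _ _) (hP s hs)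

theorem ps_model_sq (B : PowerSeries (ZMod p)) (T : ℕ) (hT : 0 < T) (P : ℕ → ℕ)
    (hP0 : P 0 = 0) (q : ℕ) (hq : 0 < q) (hP : ∀ s ∈ idx B T, q ≤ P s) (R L : ℕ)
    (hR : R < q * p ^ L) :
    ps (model B T P ^ 2) R = ps ((cont B T P L : PowerSeries (ZMod p)) ^ 2) R := by
  apply ps_sq_eq_of_diffs
  intro i _ _
  rw [ps_eq_sum, ps_eq_sum]
  apply Finset.sum_congr rfl
  intro k hk
  rw [mem_range] at hk
  rw [coeff_model B T hT P hP0 q hq hP k L (by omega), Polynomial.coeff_coe]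

theorem zeros_model (hp2 : p ≠ 2) (n : ZMod p) (hn : n ^ ((p - 1) / 2) = -1)
    (B : PowerSeries (ZMod p)) (T : ℕ) (hT : 0 < T) (P : ℕ → ℕ) (hP0 : P 0 = 0) (q : ℕ)
    (hq : 0 < q) (hP : ∀ s ∈ idx B T, q ≤ P s) (hP' : ∀ s ∈ idx B T, P s ≤ p * q) (j : ℕ) :
    p ^ j ≤ #{R ∈ range (p ^ j * (2 * p * q + 1)) |
      ps ((cont B T P (j + 2) : PowerSeries (ZMod p)) ^ 2) R ≠ n} := by
  have hp3 : 3 ≤ p := by
    have := hpF.out.two_le; omega
  have h1 := zero_estimate hp2 n hn q (C (2 * ps B T) + win B T P) (natDegree_rhs B T P q hP')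
    (model B T P) (model_eq hp2 B T hT P hP0 q hq hP) j
  refine le_trans h1 (Finset.card_le_card ?_)
  intro R hR
  rw [mem_filter, mem_range] at hR ⊢
  refine ⟨hR.1, ?_⟩
  rw [← ps_model_sq B T hT P hP0 q hq hP R (j + 2)]
  · exact hR.2
  refine lt_of_lt_of_le hR.1 ?_
  have h2 : 2 * p * q + 1 ≤ q * p ^ 2 := by
    have h3 : 1 ≤ p * q := Nat.mul_pos hpF.out.pos hq
    have h4 : 3 * (p * q) ≤ p * (p * q) := Nat.mul_le_mul_right _ hp3
    calc 2 * p * q + 1 = 2 * (p * q) + 1 := by rw [mul_assoc]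
      _ ≤ 3 * (p * q) := by omega
      _ ≤ p * (p * q) := h4
      _ = q * p ^ 2 := by ring
  calc p ^ j * (2 * p * q + 1) ≤ p ^ j * (q * p ^ 2) := Nat.mul_le_mul_left _ h2
    _ = q * p ^ (j + 2) := by ring

end

end Pool.Agent.K7.H59.DC
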