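import Pool.Agent.K7.H59.DC.Key

/-!
A clean consequence of the key inequality, and the window estimate for expansions of square roots.
-/

namespace Pool.Agent.K7.H59.DC

open Finset Polynomial

noncomputable section

theorem numeric_step (p T q A m Q K E β Lam : ℕ) (hp : 3 ≤ p) (hT : 0 < T) (hq : 0 < q)
    (hQ : 0 < Q) (hK : 0 < K) (hA : A = 16 * p * Q ^ 2) (hqA : q ≤ A ^ m)
    (hβ : β = K ^ p * Lam) (hLam : 0 < Lam) (hE : E ≤ β)
    (h : T * (T / q) ≤ E + (K + Q) * (T + 2 * T * E) +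
      Q ^ 2 * (2 * (p * T) * T / (A * q) + 1)) :
    T ≤ 2 * (16 * p * Q ^ 2) ^ (m + 1) * K ^ (p + 1) * Lam := by
  have hβ1 : 1 ≤ β := by rw [hβ]; exact Nat.mul_pos (pow_pos hK p) hLam
  have hQ2 : 1 ≤ Q ^ 2 := pow_pos hQ 2
  have hfin : 64 * Q ^ 2 * (A ^ m * (K * β)) ≤
      2 * (16 * p * Q ^ 2) ^ (m + 1) * K ^ (p + 1) * Lam := by
    rw [← hA, hβ]
    have h1 : 64 * Q ^ 2 ≤ 2 * A := by
      rw [hA]
      calc 64 * Q ^ 2 ≤ 32 * 3 * Q ^ 2 := by nlinarith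
        _ ≤ 32 * p * Q ^ 2 := Nat.mul_le_mul_right _ (Nat.mul_le_mul_left _ hp)
        _ = 2 * (16 * p * Q ^ 2) := by ring
    calc 64 * Q ^ 2 * (A ^ m * (K * (K ^ p * Lam))) ≤ 2 * A * (A ^ m * (K * (K ^ p * Lam))) :=
          Nat.mul_le_mul_right _ h1
      _ = 2 * A ^ (m + 1) * K ^ (p + 1) * Lam := by ring
  refine le_trans ?_ hfin
  rcases lt_or_ge T q with hlt | hge
  · calc T ≤ q := hlt.le
      _ ≤ A ^ m := hqA
      _ = 1 * (A ^ m * (1 * 1)) := by ring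
      _ ≤ 64 * Q ^ 2 * (A ^ m * (K * β)) := by
          apply Nat.mul_le_mul (by omega)
          exact Nat.mul_le_mul_left _ (Nat.mul_le_mul hK hβ1)
  · set X := T / q with hX
    set Y := 2 * (p * T) * T / (A * q) with hY
    have hX1 : 1 ≤ X := by rw [hX, Nat.le_div_iff_mul_le hq]; omega
    have hTX : T ≤ 2 * q * X := by
      have h1 := Nat.lt_mul_div_succ T hq
      rw [← hX] at h1
      nlinarith
    have hYb : 8 * (q * Q ^ 2 * Y) ≤ T ^ 2 := by
      have h1 : A * q * Y ≤ 2 * (p * T) * T := Nat.mul_div_le _ _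
      rw [hA] at h1
      have h2 : 2 * p * (8 * (q * Q ^ 2 * Y)) ≤ 2 * p * T ^ 2 := by
        calc 2 * p * (8 * (q * Q ^ 2 * Y)) = 16 * p * Q ^ 2 * q * Y := by ring
          _ ≤ 2 * (p * T) * T := h1
          _ = 2 * p * T ^ 2 := by ring
      exact Nat.le_of_mul_le_mul_left h2 (by omega)
    have h1 : T ^ 2 ≤ 2 * q * (β + (K + Q) * (T + 2 * T * β) + Q ^ 2) + 2 * (q * Q ^ 2 * Y) := by
      calc T ^ 2 = T * T := by ring
        _ ≤ T * (2 * q * X) := Nat.mul_le_mul_left _ hTX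
        _ = 2 * q * (T * X) := by ring
        _ ≤ 2 * q * (E + (K + Q) * (T + 2 * T * E) + Q ^ 2 * (Y + 1)) :=
            Nat.mul_le_mul_left _ h
        _ ≤ 2 * q * (β + (K + Q) * (T + 2 * T * β) + Q ^ 2 * (Y + 1)) := by
            apply Nat.mul_le_mul_left
            apply Nat.add_le_add_right
            apply Nat.add_le_add hE
            apply Nat.mul_le_mul_left
            apply Nat.add_le_add_left
            exact Nat.mul_le_mul_left _ hE
        _ = _ := by ring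
    have h2 : 3 * T ^ 2 ≤ 8 * q * (β + (K + Q) * (T + 2 * T * β) + Q ^ 2) := by nlinarith
    have h3 : β + (K + Q) * (T + 2 * T * β) + Q ^ 2 ≤ T * (8 * (K * Q ^ 2 * β)) := by
      have e1 : β ≤ T * (K * Q ^ 2 * β) := by
        calc β = 1 * (1 * 1 * β) := by ring
          _ ≤ T * (K * Q ^ 2 * β) :=
            Nat.mul_le_mul hT (Nat.mul_le_mul_right _ (Nat.mul_le_mul hK hQ2))
      have e2 : Q ^ 2 ≤ T * (K * Q ^ 2 * β) := by
        calc Q ^ 2 = 1 * (1 * Q ^ 2 * 1) := by ring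
          _ ≤ T * (K * Q ^ 2 * β) :=
            Nat.mul_le_mul hT (Nat.mul_le_mul (Nat.mul_le_mul_right _ hK) hβ1)
      have e3 : (K + Q) * (T + 2 * T * β) ≤ 6 * (T * (K * Q ^ 2 * β)) := by
        have f1 : T + 2 * T * β ≤ 3 * (T * β) := by nlinarith
        have f2 : K + Q ≤ 2 * (K * Q ^ 2) := by
          have g1 : K ≤ K * Q ^ 2 := Nat.le_mul_of_pos_right K hQ2
          have g2 : Q ≤ K * Q ^ 2 := by
            calc Q = 1 * (Q * 1) := by ring
              _ ≤ K * (Q * Q) := Nat.mul_le_mul hK (Nat.mul_le_mul_left _ hQ)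
              _ = K * Q ^ 2 := by ring
          omega
        calc (K + Q) * (T + 2 * T * β) ≤ (2 * (K * Q ^ 2)) * (3 * (T * β)) :=
              Nat.mul_le_mul f2 f1
          _ = 6 * (T * (K * Q ^ 2 * β)) := by ring
      calc β + (K + Q) * (T + 2 * T * β) + Q ^ 2 ≤
          T * (K * Q ^ 2 * β) + 6 * (T * (K * Q ^ 2 * β)) + T * (K * Q ^ 2 * β) := by omega
        _ = T * (8 * (K * Q ^ 2 * β)) := by ring
    have h4 : T * T ≤ T * (64 * (q * (K * Q ^ 2 * β))) := by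
      have h5 : 8 * q * (β + (K + Q) * (T + 2 * T * β) + Q ^ 2) ≤
          8 * q * (T * (8 * (K * Q ^ 2 * β))) := Nat.mul_le_mul_left _ h3
      have h6 : 8 * q * (T * (8 * (K * Q ^ 2 * β))) = T * (64 * (q * (K * Q ^ 2 * β))) := by ring
      have h7 : T * T ≤ 3 * T ^ 2 := by nlinarith
      omega
    have h5 : T ≤ 64 * (q * (K * Q ^ 2 * β)) := Nat.le_of_mul_le_mul_left h4 hT
    calc T ≤ 64 * (q * (K * Q ^ 2 * β)) := h5
      _ ≤ 64 * (A ^ m * (K * Q ^ 2 * β)) :=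
          Nat.mul_le_mul_left _ (Nat.mul_le_mul_right _ hqA)
      _ = 64 * Q ^ 2 * (A ^ m * (K * β)) := by ring

variable {p : ℕ} [hpF : Fact p.Prime]

/-- The window estimate. -/
theorem window_estimate (hp2 : p ≠ 2) (n : ZMod p) (hn : n ^ ((p - 1) / 2) = -1)
    (B : PowerSeries (ZMod p)) (j : ℕ) (S E : Finset ℕ) (Lam : ℕ) (hLam : 0 < Lam)
    (hS0 : 0 ∈ S)
    (hS : ∀ i, i < 3 * p ^ (2 * j + 1) → PowerSeries.coeff i B ≠ 0 → i ∈ S)
    (hE : E.card ≤ S.card ^ p * Lam)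
    (hgood : ∀ R, R < 3 * p ^ (2 * j + 1) → R ∉ E →
      ps (B ^ 2) R = n ∧ ps B (R / p) = - ps B R) :
    p ^ j ≤ 2 * (16 * p * (1 + ((jumps B (p ^ j)).card + 1) * (j + 2)) ^ 2) ^
      ((jumps B (p ^ j)).card + 1) * S.card ^ (p + 1) * Lam := by
  have hp3 : 3 ≤ p := by have := hpF.out.two_le; omega
  have hp0 : 0 < p := hpF.out.pos
  have hT : 0 < p ^ j := pow_pos hp0 j
  have hN : 3 * p ^ (j + 1) * p ^ j = 3 * p ^ (2 * j + 1) := by
    rw [mul_assoc, ← pow_add]; congr 2; ring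
  set Q := 1 + ((jumps B (p ^ j)).card + 1) * (j + 2) with hQ
  obtain ⟨q, hq0, hqA, hmain⟩ := key_ineq hp2 n hn B j (p ^ j) hT S E
    (by rw [hN]; exact hS) (by rw [hN]; exact hgood) (16 * p * Q ^ 2) Q
    (by positivity) le_rfl
  have hKpos : 0 < S.card := card_pos.2 ⟨0, hS0⟩
  apply numeric_step p (p ^ j) q (16 * p * Q ^ 2) (jumps B (p ^ j)).card Q S.card E.card
    (S.card ^ p * Lam) Lam hp3 hT hq0 (by positivity) hKpos rfl hqA rfl hLam hE
  refine le_trans hmain (le_of_eq ?_)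
  have e1 : 2 * p ^ (j + 1) * p ^ j = 2 * (p * p ^ j) * p ^ j := by ring
  rw [e1]

end

end Pool.Agent.K7.H59.DC
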