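import Pool.Agent.K7.H59.DC.Final

/-!
The binary digits of `√2` as a bounded expansion, and linear relations between them.
-/

namespace Pool.Agent.K7.H59.DC

open Finset

noncomputable section

/-- The `k`-th binary digit of `√2`: for `k = 0` the integer part, for `k ≥ 1` the `k`-th digit
after the point. -/
def dig (k : ℕ) : ℤ := ⌊Real.sqrt 2 * (2 : ℝ) ^ k⌋ % 2

theorem dig_mem (k : ℕ) : 0 ≤ dig k ∧ dig k ≤ 1 := by
  unfold dig
  constructor
  · exact Int.emod_nonneg _ (by norm_num)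
  · have := Int.emod_lt_of_pos ⌊Real.sqrt 2 * (2 : ℝ) ^ k⌋ (by norm_num : (0 : ℤ) < 2)
    omega

theorem floor_zero : ⌊Real.sqrt 2 * (2 : ℝ) ^ 0⌋ = 1 := by
  rw [pow_zero, mul_one, Int.floor_eq_iff]
  constructor
  · have : (1 : ℝ) ≤ Real.sqrt 2 := by
      rw [Real.le_sqrt] <;> norm_num
    exact_mod_cast this
  · have : Real.sqrt 2 < 2 := by
      rw [Real.sqrt_lt'] <;> norm_num
    push_cast
    linarith

theorem floor_succ (k : ℕ) :
    ⌊Real.sqrt 2 * (2 : ℝ) ^ (k + 1)⌋ = 2 * ⌊Real.sqrt 2 * (2 : ℝ) ^ k⌋ + dig (k + 1) := by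
  unfold dig
  set y : ℝ := Real.sqrt 2 * (2 : ℝ) ^ k with hy
  have h1 : Real.sqrt 2 * (2 : ℝ) ^ (k + 1) = 2 * y := by rw [hy, pow_succ]; ring
  rw [h1]
  have h2 := Int.floor_le y
  have h3 := Int.lt_floor_add_one y
  have h4 : 2 * ⌊y⌋ ≤ ⌊2 * y⌋ := by
    rw [Int.le_floor]; push_cast; linarith
  have h5 : ⌊2 * y⌋ < 2 * ⌊y⌋ + 2 := by
    rw [Int.floor_lt]; push_cast; linarith
  omega

theorem partial_sum (m : ℕ) :
    ∑ k ∈ range (m + 1), (dig k : ℝ) / 2 ^ k = (⌊Real.sqrt 2 * (2 : ℝ) ^ m⌋ : ℝ) / 2 ^ m := by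
  induction m with
  | zero =>
    rw [Finset.sum_range_one]
    unfold dig
    rw [floor_zero]; norm_num
  | succ m ih =>
    rw [Finset.sum_range_succ, ih, floor_succ]
    push_cast
    field_simp
    ring

theorem hasSum_dig : HasSum (fun k : ℕ => (dig k : ℝ) / 2 ^ k) (Real.sqrt 2) := by
  rw [hasSum_iff_tendsto_nat_of_nonneg]
  · rw [← Filter.tendsto_add_atTop_iff_nat 1]
    simp only [partial_sum]
    have hlow : ∀ m : ℕ, Real.sqrt 2 - (1 / 2) ^ m ≤
        (⌊Real.sqrt 2 * (2 : ℝ) ^ m⌋ : ℝ) / 2 ^ m := by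
      intro m
      rw [le_div_iff₀ (by positivity), sub_mul, ← mul_pow]
      have := Int.lt_floor_add_one (Real.sqrt 2 * (2 : ℝ) ^ m)
      norm_num
      linarith
    have hup : ∀ m : ℕ, (⌊Real.sqrt 2 * (2 : ℝ) ^ m⌋ : ℝ) / 2 ^ m ≤ Real.sqrt 2 := by
      intro m
      rw [div_le_iff₀ (by positivity)]
      exact Int.floor_le _
    refine tendsto_of_tendsto_of_tendsto_of_le_of_le ?_ tendsto_const_nhds hlow hup
    have := tendsto_pow_atTop_nhds_zero_of_lt_one (by norm_num : (0 : ℝ) ≤ 1 / 2)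
      (by norm_num : (1 / 2 : ℝ) < 1)
    simpa using this.const_sub (Real.sqrt 2)
  · intro k
    have := (dig_mem k).1
    have h : (0 : ℝ) ≤ dig k := by exact_mod_cast this
    positivity

/-- The integer `∑_{i < j} dig i 2^(j - i)`. -/
def head (j : ℕ) : ℤ := ∑ i ∈ range j, dig i * 2 ^ (j - i)

theorem hasSum_shift (j : ℕ) :
    HasSum (fun k : ℕ => (dig (k + j) : ℝ) / 2 ^ k) (2 ^ j * Real.sqrt 2 - head j) := by
  have h1 := (hasSum_nat_add_iff' j).2 hasSum_dig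
  have h2 := h1.mul_left ((2 : ℝ) ^ j)
  have e1 : (fun k : ℕ => (2 : ℝ) ^ j * ((dig (k + j) : ℝ) / 2 ^ (k + j))) =
      fun k : ℕ => (dig (k + j) : ℝ) / 2 ^ k := by
    funext k
    rw [pow_add]
    field_simp
  rw [e1] at h2
  have e2 : (2 : ℝ) ^ j * (Real.sqrt 2 - ∑ i ∈ range j, (dig i : ℝ) / 2 ^ i) =
      2 ^ j * Real.sqrt 2 - head j := by
    rw [mul_sub]
    congr 1
    unfold head
    push_cast
    rw [Finset.mul_sum]
    apply Finset.sum_congr rfl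
    intro i hi
    rw [mem_range] at hi
    have : (2 : ℝ) ^ j = 2 ^ (j - i) * 2 ^ i := by
      rw [← pow_add]; congr 1; omega
    rw [this]
    field_simp
  rw [e2] at h2
  exact h2

/-- The value of a relation, corrected at the place `0` so that the expansion has no rational
part. -/
def rel (J : ℕ) (q : ℕ → ℤ) (e : ℤ) (k : ℕ) : ℤ :=
  (∑ j ∈ range J, q j * dig (k + j) - e) +
    if k = 0 then ∑ j ∈ range J, q j * head j + 2 * e else 0

theorem hasSum_rel (J : ℕ) (q : ℕ → ℤ) (e : ℤ) :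
    HasSum (fun k : ℕ => (rel J q e k : ℝ) / ((2 : ℕ) : ℝ) ^ k)
      ((∑ j ∈ range J, q j * 2 ^ j : ℤ) * Real.sqrt 2) := by
  have h1 : HasSum (fun k : ℕ => ∑ j ∈ range J, (q j : ℝ) * ((dig (k + j) : ℝ) / 2 ^ k))
      (∑ j ∈ range J, (q j : ℝ) * (2 ^ j * Real.sqrt 2 - head j)) :=
    hasSum_sum fun j _ => (hasSum_shift j).mul_left (q j : ℝ)
  have h2 : HasSum (fun k : ℕ => (e : ℝ) * (1 / 2 : ℝ) ^ k) ((e : ℝ) * 2) := by
    have := hasSum_geometric_two.mul_left (e : ℝ)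
    exact this
  have h3 : HasSum (fun k : ℕ => if k = 0 then
      ((∑ j ∈ range J, q j * head j + 2 * e : ℤ) : ℝ) else 0)
      ((∑ j ∈ range J, q j * head j + 2 * e : ℤ) : ℝ) :=
    hasSum_ite_eq 0 _
  have h4 := (h1.sub h2).add h3
  have e1 : (fun k : ℕ => (rel J q e k : ℝ) / ((2 : ℕ) : ℝ) ^ k) = fun k : ℕ =>
      ∑ j ∈ range J, (q j : ℝ) * ((dig (k + j) : ℝ) / 2 ^ k) - (e : ℝ) * (1 / 2 : ℝ) ^ k +
        if k = 0 then ((∑ j ∈ range J, q j * head j + 2 * e : ℤ) : ℝ) else 0 := by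
    funext k
    unfold rel
    have e3 : ∑ j ∈ range J, (q j : ℝ) * ((dig (k + j) : ℝ) / 2 ^ k) =
        (∑ j ∈ range J, (q j : ℝ) * (dig (k + j) : ℝ)) / 2 ^ k := by
      rw [Finset.sum_div]
      exact Finset.sum_congr rfl fun j _ => (mul_div_assoc _ _ _).symm
    rw [e3]
    by_cases hk : k = 0
    · subst hk; simp
    · rw [if_neg hk, if_neg hk]
      push_cast
      rw [one_div, inv_pow]
      ring
  have e2 : ((∑ j ∈ range J, q j * 2 ^ j : ℤ) : ℝ) * Real.sqrt 2 =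
      ∑ j ∈ range J, (q j : ℝ) * (2 ^ j * Real.sqrt 2 - head j) - (e : ℝ) * 2 +
        ((∑ j ∈ range J, q j * head j + 2 * e : ℤ) : ℝ) := by
    push_cast
    have : ∀ j ∈ range J, (q j : ℝ) * (2 ^ j * Real.sqrt 2 - head j) =
        (q j : ℝ) * 2 ^ j * Real.sqrt 2 - q j * head j := by intro j _; ring
    rw [Finset.sum_mul, Finset.sum_congr rfl this, Finset.sum_sub_distrib]
    ring
  rw [e1, e2]
  exact h4

theorem rel_bounded (J : ℕ) (q : ℕ → ℤ) (e : ℤ) : ∃ C : ℕ, ∀ k, |rel J q e k| ≤ C := by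
  refine ⟨(∑ j ∈ range J, |q j| + |e| + |∑ j ∈ range J, q j * head j + 2 * e|).toNat, ?_⟩
  intro k
  have h0 : 0 ≤ ∑ j ∈ range J, |q j| := Finset.sum_nonneg fun j _ => abs_nonneg _
  have h1 := abs_nonneg e
  have h2 := abs_nonneg (∑ j ∈ range J, q j * head j + 2 * e)
  rw [Int.toNat_of_nonneg (by linarith)]
  unfold rel
  have h3 : |∑ j ∈ range J, q j * dig (k + j)| ≤ ∑ j ∈ range J, |q j| := by
    refine le_trans (Finset.abs_sum_le_sum_abs _ _) (Finset.sum_le_sum fun j _ => ?_)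
    rw [abs_mul]
    have h4 := dig_mem (k + j)
    have h5 : |dig (k + j)| ≤ 1 := by rw [abs_le]; omega
    have h6 := abs_nonneg (q j)
    nlinarith
  refine le_trans (abs_add_le _ _) (add_le_add ?_ ?_)
  · refine le_trans (abs_sub _ _) (by linarith)
  · split_ifs
    · exact le_rfl
    · simp

end

end Pool.Agent.K7.H59.DC
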